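import Pool.Agent.DSD.St

/-!
# [CSq] Cauchy-Schwarz for the last part
-/

set_option autoImplicit false

namespace DSD

open Finset

section

variable {V : Type} [Fintype V] [DecidableEq V]

/-- the weight of `x` -/
private def cw (π : V → ℝ) (x : V → Bool) : ℝ := ∏ v, if x v = true then π v else 1 - π v

private theorem ep_eq (π : V → ℝ) (F : (V → Bool) → ℝ) : Ep π F = ∑ x, cw π x * F x := rfl

omit [DecidableEq V] in
private theorem cw_nonneg {π : V → ℝ} (h : ∀ v, 0 ≤ π v ∧ π v ≤ 1) (x : V → Bool) :
    0 ≤ cw π x := by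
  refine Finset.prod_nonneg fun v _ => ?_
  have := h v
  split_ifs <;> linarith

private theorem ep_pr (π : V → ℝ) (g : V → Bool → ℝ) :
    Ep π (fun x => ∏ v, g v (x v)) = ∏ v, (π v * g v true + (1 - π v) * g v false) := by
  have h1 : ∀ v, π v * g v true + (1 - π v) * g v false =
      ∑ b : Bool, (if b = true then π v else 1 - π v) * g v b := by
    intro v
    simp
  simp only [h1]
  rw [Finset.prod_univ_sum, Fintype.piFinset_univ, ep_eq]
  refine Finset.sum_congr rfl fun x _ => ?_
  rw [cw, Finset.prod_mul_distrib]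

private theorem cw_sum (π : V → ℝ) : ∑ x, cw π x = 1 := by
  have h1 := ep_pr π (fun _ _ => 1)
  simp only [mul_one, Finset.prod_const_one, add_sub_cancel] at h1
  rw [ep_eq] at h1
  simpa using h1

private theorem ep_swap (π : V → ℝ) (F : (V → Bool) → (V → Bool) → ℝ) :
    (Ep π fun x => Ep π fun y => F x y) = Ep π fun y => Ep π fun x => F x y := by
  simp only [ep_eq, Finset.mul_sum]
  rw [Finset.sum_comm]
  exact Finset.sum_congr rfl fun x _ => Finset.sum_congr rfl fun y _ => by ring

private theorem ep_mul (π : V → ℝ) (c : ℝ) (F : (V → Bool) → ℝ) :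
    (Ep π fun x => c * F x) = c * Ep π F := by
  simp only [ep_eq, Finset.mul_sum]
  exact Finset.sum_congr rfl fun x _ => by ring

private theorem ep_mono {π : V → ℝ} (h : ∀ v, 0 ≤ π v ∧ π v ≤ 1) {F G : (V → Bool) → ℝ}
    (hFG : ∀ x, F x ≤ G x) : Ep π F ≤ Ep π G := by
  simp only [ep_eq]
  exact Finset.sum_le_sum fun x _ => mul_le_mul_of_nonneg_left (hFG x) (cw_nonneg h x)

private theorem ep_sq {π : V → ℝ} (h : ∀ v, 0 ≤ π v ∧ π v ≤ 1) (F : (V → Bool) → ℝ) :
    (Ep π F) ^ 2 ≤ Ep π fun x => F x ^ 2 := by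
  have h1 : 0 ≤ Ep π fun x => (F x - Ep π F) ^ 2 := by
    rw [ep_eq]
    exact Finset.sum_nonneg fun x _ => mul_nonneg (cw_nonneg h x) (sq_nonneg _)
  have h2 : (Ep π fun x => (F x - Ep π F) ^ 2) = (Ep π fun x => F x ^ 2) - (Ep π F) ^ 2 := by
    have h3 : ∀ m : ℝ, (Ep π fun x => (F x - m) ^ 2) =
        (Ep π fun x => F x ^ 2) - 2 * m * Ep π F + m ^ 2 := by
      intro m
      simp only [ep_eq]
      have h4 : ∀ x, cw π x * (F x - m) ^ 2 =
          cw π x * F x ^ 2 - 2 * m * (cw π x * F x) + m ^ 2 * cw π x := fun x => by ring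
      simp only [h4]
      rw [Finset.sum_add_distrib, Finset.sum_sub_distrib, ← Finset.mul_sum, ← Finset.mul_sum,
        cw_sum, mul_one]
    rw [h3]
    ring
  linarith

private theorem ep_mix (π : V → ℝ) (A : Finset V) (F : (V → Bool) → ℝ) :
    Ep π F = Ep π fun y => Ep π fun x => F (mix A y x) := by
  have hmm : ∀ p q : V → Bool, mix A (mix A p q) (mix A q p) = p := by
    intro p q
    funext v
    simp only [mix]
    split_ifs <;> rfl
  let e : (V → Bool) × (V → Bool) ≃ (V → Bool) × (V → Bool) :=
    { toFun := fun p => (mix A p.1 p.2, mix A p.2 p.1)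
      invFun := fun p => (mix A p.1 p.2, mix A p.2 p.1)
      left_inv := fun p => by
        refine Prod.ext ?_ ?_
        · exact hmm p.1 p.2
        · exact hmm p.2 p.1
      right_inv := fun p => by
        refine Prod.ext ?_ ?_
        · exact hmm p.1 p.2
        · exact hmm p.2 p.1 }
  have hw : ∀ p q : V → Bool, cw π (mix A p q) * cw π (mix A q p) = cw π p * cw π q := by
    intro p q
    simp only [cw]
    rw [← Finset.prod_mul_distrib, ← Finset.prod_mul_distrib]
    refine Finset.prod_congr rfl fun v _ => ?_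
    simp only [mix]
    by_cases hv : v ∈ A
    · simp [hv]
    · simp only [hv, if_false]
      ring
  have h1 : Ep π F = ∑ p : (V → Bool) × (V → Bool), cw π p.1 * cw π p.2 * F p.1 := by
    rw [Fintype.sum_prod_type, ep_eq]
    refine Finset.sum_congr rfl fun x _ => ?_
    have h2 : ∀ y, cw π x * cw π y * F x = (cw π x * F x) * cw π y := fun y => by ring
    simp only [h2]
    rw [← Finset.mul_sum, cw_sum, mul_one]
  rw [h1]
  have h3 : (Ep π fun y => Ep π fun x => F (mix A y x)) =
      ∑ p : (V → Bool) × (V → Bool), cw π p.1 * cw π p.2 * F (mix A p.1 p.2) := by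
    rw [Fintype.sum_prod_type, ep_eq]
    refine Finset.sum_congr rfl fun x _ => ?_
    rw [ep_eq, Finset.mul_sum]
    exact Finset.sum_congr rfl fun y _ => by ring
  rw [h3]
  symm
  refine Fintype.sum_equiv e _ _ fun p => ?_
  show cw π p.1 * cw π p.2 * F (mix A p.1 p.2) =
    cw π (mix A p.1 p.2) * cw π (mix A p.2 p.1) * F (mix A p.1 p.2)
  rw [hw]

end

theorem thm_CSq : St_CSq := by
  intro V _ _ χ N k π f hπ hN hf
  set A : Finset V := univ.filter fun u => χ u = k with hA
  set G : (V → Bool) → ℝ := fun x => Sgn χ N k x * ∏ i ∈ range k, f i x with hG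
  let K : (V → Bool) → (V → Bool) → ℝ := fun y z =>
    ∏ u ∈ A, if y u = true then (-1 : ℝ) ^ cnt (N u) z else 1
  -- dependence
  have hcnt : ∀ u, χ u ≤ k → ∀ y z : V → Bool, cnt (N u) (mix A y z) = cnt (N u) z := by
    intro u hu y z
    unfold cnt
    congr 1
    refine Finset.filter_congr fun v hv => ?_
    have h1 := hN u v hv
    have h2 : v ∉ A := by
      rw [hA, Finset.mem_filter]
      rintro ⟨-, h⟩
      omega
    rw [mix, if_neg h2]
  have hSg : ∀ y z : V → Bool, Sgn χ N k (mix A y z) = Sgn χ N k z := by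
    intro y z
    unfold Sgn
    refine Finset.prod_congr rfl fun u hu => ?_
    have h1 : χ u < k := (Finset.mem_filter.1 hu).2
    rw [hcnt u h1.le]
    have h2 : u ∉ A := by
      rw [hA, Finset.mem_filter]
      rintro ⟨-, h⟩
      omega
    rw [mix, if_neg h2]
  have hfi : ∀ i < k, ∀ y z : V → Bool, f i (mix A y z) = f i z := by
    intro i hi y z
    refine (hf i).1 _ _ fun v hv => ?_
    have h1 : χ v = i := (Finset.mem_filter.1 hv).2
    have h2 : v ∉ A := by
      rw [hA, Finset.mem_filter]
      rintro ⟨-, h⟩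
      omega
    rw [mix, if_neg h2]
  have hfk : ∀ y z : V → Bool, f k (mix A y z) = f k y := by
    intro y z
    refine (hf k).1 _ _ fun v hv => ?_
    rw [mix, if_pos (hA ▸ hv)]
  have hGm : ∀ y z : V → Bool, G (mix A y z) = G z := by
    intro y z
    simp only [hG]
    rw [hSg]
    congr 1
    exact Finset.prod_congr rfl fun i hi => hfi i (Finset.mem_range.1 hi) y z
  have hstep : ∀ x : V → Bool, Sgn χ N (k + 1) x =
      Sgn χ N k x * ∏ u ∈ A, if x u = true then (-1 : ℝ) ^ cnt (N u) x else 1 := by
    intro x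
    unfold Sgn
    rw [hA, ← Finset.prod_union]
    · refine Finset.prod_congr ?_ fun _ _ => rfl
      ext u
      simp only [Finset.mem_filter, Finset.mem_univ, true_and, Finset.mem_union]
      omega
    · rw [Finset.disjoint_filter]
      intro u _ h1 h2
      omega
  have hmix : ∀ y z : V → Bool, Sgn χ N (k + 1) (mix A y z) *
      ∏ i ∈ range (k + 1), f i (mix A y z) = f k y * (K y z * G z) := by
    intro y z
    have h1 : (∏ u ∈ A, if mix A y z u = true then (-1 : ℝ) ^ cnt (N u) (mix A y z) else 1) =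
        K y z := by
      refine Finset.prod_congr rfl fun u hu => ?_
      have h2 : χ u = k := (Finset.mem_filter.1 hu).2
      rw [hcnt u h2.le, mix, if_pos hu]
    rw [hstep, h1, Finset.prod_range_succ, hfk, hSg]
    have h3 : ∏ i ∈ range k, f i (mix A y z) = ∏ i ∈ range k, f i z :=
      Finset.prod_congr rfl fun i hi => hfi i (Finset.mem_range.1 hi) y z
    rw [h3]
    simp only [hG]
    ring
  have e1 : (Ep π fun x => Sgn χ N (k + 1) x * ∏ i ∈ range (k + 1), f i x) =
      Ep π fun y => f k y * Ep π fun z => K y z * G z := by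
    rw [ep_mix π A]
    congr 1
    funext y
    rw [← ep_mul]
    congr 1
    funext z
    exact hmix y z
  rw [e1]
  refine (ep_sq hπ _).trans ?_
  have e2 : (Ep π fun y => (f k y * Ep π fun z => K y z * G z) ^ 2) ≤
      Ep π fun y => (Ep π fun z => K y z * G z) ^ 2 := by
    refine ep_mono hπ fun y => ?_
    rw [mul_pow]
    have h1 : (f k y) ^ 2 ≤ 1 := by
      have := (hf k).2 y
      rw [← sq_abs]
      nlinarith [abs_nonneg (f k y)]
    nlinarith [sq_nonneg (Ep π fun z => K y z * G z)]
  refine e2.trans (le_of_eq ?_)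
  have e3 : (fun y => (Ep π fun z => K y z * G z) ^ 2) =
      fun y => Ep π fun x => Ep π fun x' => (K y x * G x) * (K y x' * G x') := by
    funext y
    rw [sq]
    have h1 : ∀ x, (Ep π fun x' => (K y x * G x) * (K y x' * G x')) =
        (Ep π fun x' => K y x' * G x') * (K y x * G x) := by
      intro x
      rw [ep_mul]
      ring
    simp only [h1]
    rw [ep_mul]
  rw [e3, ep_swap]
  congr 1
  funext x
  rw [ep_swap]
  congr 1
  funext x'
  have e4 : (fun y => K y x * G x * (K y x' * G x')) = fun y => (G x * G x') *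
      ∏ u, (if u ∈ A then (if y u = true then (-1 : ℝ) ^ (cnt (N u) x + cnt (N u) x') else 1)
        else 1) := by
    funext y
    have h1 : K y x * K y x' = ∏ u, (if u ∈ A then
        (if y u = true then (-1 : ℝ) ^ (cnt (N u) x + cnt (N u) x') else 1) else 1) := by
      simp only [K]
      rw [← Finset.prod_mul_distrib, ← Finset.prod_filter]
      have h2 : univ.filter (fun u => u ∈ A) = A := by
        ext u
        simp
      rw [h2]
      refine Finset.prod_congr rfl fun u _ => ?_
      split_ifs
      · rw [pow_add]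
      · rw [mul_one]
    rw [← h1]
    ring
  rw [e4, ep_mul]
  have e5 := ep_pr π (fun u b => if u ∈ A then
    (if b = true then (-1 : ℝ) ^ (cnt (N u) x + cnt (N u) x') else 1) else 1)
  rw [e5]
  show G x * G x' * _ = G x * G x' * _
  refine congrArg (fun t => G x * G x' * t) ?_
  rw [← Finset.prod_filter_mul_prod_filter_not univ (fun u => u ∈ A)]
  have h3 : ∏ u ∈ univ.filter (fun u => ¬ u ∈ A), (π u * (if u ∈ A then
      (if true = true then (-1 : ℝ) ^ (cnt (N u) x + cnt (N u) x') else 1) else 1) +
      (1 - π u) * (if u ∈ A then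
      (if false = true then (-1 : ℝ) ^ (cnt (N u) x + cnt (N u) x') else 1) else 1)) = 1 := by
    refine Finset.prod_eq_one fun u hu => ?_
    have h4 : u ∉ A := (Finset.mem_filter.1 hu).2
    rw [if_neg h4, if_neg h4]
    ring
  rw [h3, mul_one]
  have h2 : univ.filter (fun u => u ∈ A) = A := by
    ext u
    simp
  rw [h2]
  refine Finset.prod_congr rfl fun u hu => ?_
  rw [if_pos hu, if_pos hu]
  by_cases ho : Odd (cnt (N u) x + cnt (N u) x')
  · rw [if_pos ho, ho.neg_one_pow]
    simp
    ring
  · rw [if_neg ho, (Nat.not_odd_iff_even.1 ho).neg_one_pow]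
    simp

end DSD
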