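import Pool.Agent.DSD.St

/-!
# DSD, module Cls: the class of the functions `Sgn * ∏ f i` is closed under fixing variables
-/

set_option autoImplicit false
set_option linter.unusedSectionVars false

namespace DSD

open Finset

section

variable {V : Type} [Fintype V] [DecidableEq V]

/-- the number of true neighbours after fixing -/
private theorem Cls_cnt (M B : Finset V) (α z : V → Bool) (hz : ∀ v ∈ B, z v = false) :
    cnt M (mix B α z) = cnt (M ∩ B) α + cnt M z := by
  unfold cnt
  rw [← Finset.card_union_of_disjoint]
  · congr 1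
    ext v
    simp only [mem_filter, mem_union, mem_inter, mix]
    by_cases h : v ∈ B
    · rw [if_pos h, hz v h]
      simp [h]
    · rw [if_neg h]
      simp [h]
  · rw [Finset.disjoint_left]
    intro v h1 h2
    have h3 := (mem_inter.1 (mem_filter.1 h1).1).2
    have h4 := (mem_filter.1 h2).2
    rw [hz v h3] at h4
    exact Bool.false_ne_true h4

/-- a product of signs -/
private theorem Cls_sign (S : Finset V) (P : V → Prop) [DecidablePred P] :
    (∏ v ∈ S, if P v then (-1 : ℝ) else 1) = (-1) ^ (S.filter P).card := by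
  rw [Finset.prod_ite, Finset.prod_const, Finset.prod_const_one, mul_one]

/-- the sign of a vertex after fixing, without the signs of the edges to fixed larger vertices -/
private def Cls_e1 (N : V → Finset V) (B : Finset V) (α z : V → Bool) (u : V) : ℝ :=
  if u ∈ B then (if α u = true then (-1 : ℝ) ^ cnt (N u ∩ B) α else 1)
  else (if z u = true then (-1 : ℝ) ^ cnt (N u ∩ B) α else 1)

/-- the sign of a vertex from the edges to fixed larger vertices -/
private def Cls_e2 (N : V → Finset V) (B : Finset V) (α z : V → Bool) (v : V) : ℝ :=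
  if z v = true then (-1 : ℝ) ^ (B.filter fun u => α u = true ∧ v ∈ N u).card else 1

private theorem Cls_prod (χ : V → ℕ) (N : V → Finset V) (k : ℕ) (B : Finset V)
    (α z : V → Bool) (hN : ∀ u, ∀ v ∈ N u, χ v < χ u) (hB : ∀ v ∈ B, χ v < k)
    (hz : ∀ v ∈ B, z v = false) :
    Sgn χ N k (mix B α z) = Sgn χ N k z *
      ∏ v ∈ univ.filter (fun v => χ v < k), Cls_e1 N B α z v * Cls_e2 N B α z v := by
  unfold Sgn
  have h1 : ∀ u ∈ univ.filter (fun u => χ u < k),
      (if mix B α z u = true then (-1 : ℝ) ^ cnt (N u) (mix B α z) else 1) =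
        (if z u = true then (-1 : ℝ) ^ cnt (N u) z else 1) * (Cls_e1 N B α z u *
          ∏ v ∈ univ.filter (fun v => χ v < k),
            if u ∈ B ∧ α u = true ∧ v ∈ N u ∧ z v = true then (-1 : ℝ) else 1) := by
    intro u hu
    have hu' : χ u < k := (mem_filter.1 hu).2
    rw [Cls_cnt (N u) B α z hz, Cls_sign]
    by_cases h : u ∈ B
    · have h2 : mix B α z u = α u := by
        unfold mix
        rw [if_pos h]
      rw [h2, hz u h, Cls_e1, if_pos h]
      by_cases h3 : α u = true
      · have h4 : (univ.filter (fun v => χ v < k)).filter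
            (fun v => u ∈ B ∧ α u = true ∧ v ∈ N u ∧ z v = true) =
            (N u).filter fun v => z v = true := by
          ext v
          simp only [mem_filter, mem_univ, true_and]
          constructor
          · rintro ⟨-, -, -, h5, h6⟩
            exact ⟨h5, h6⟩
          · rintro ⟨h5, h6⟩
            exact ⟨(hN u v h5).trans hu', h, h3, h5, h6⟩
        rw [if_pos h3, if_pos h3, h4, pow_add]
        simp [cnt]
      · have h4 : (univ.filter (fun v => χ v < k)).filter
            (fun v => u ∈ B ∧ α u = true ∧ v ∈ N u ∧ z v = true) = ∅ := by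
          rw [Finset.filter_eq_empty_iff]
          rintro v - ⟨-, h5, -⟩
          exact h3 h5
        rw [if_neg h3, if_neg h3, h4]
        simp
    · have h2 : mix B α z u = z u := by
        unfold mix
        rw [if_neg h]
      have h4 : (univ.filter (fun v => χ v < k)).filter
          (fun v => u ∈ B ∧ α u = true ∧ v ∈ N u ∧ z v = true) = ∅ := by
        rw [Finset.filter_eq_empty_iff]
        rintro v - ⟨h5, -⟩
        exact h h5
      rw [h2, Cls_e1, if_neg h, h4, card_empty, pow_zero, mul_one]
      by_cases h3 : z u = true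
      · rw [if_pos h3, if_pos h3, if_pos h3, pow_add, mul_comm]
      · rw [if_neg h3, if_neg h3, if_neg h3, mul_one]
  rw [Finset.prod_congr rfl h1, Finset.prod_mul_distrib, Finset.prod_mul_distrib,
    Finset.prod_mul_distrib, Finset.prod_comm]
  congr 2
  refine Finset.prod_congr rfl fun v hv => ?_
  rw [Cls_sign, Cls_e2]
  by_cases h3 : z v = true
  · rw [if_pos h3]
    congr 2
    ext u
    simp only [mem_filter, mem_univ, true_and]
    constructor
    · rintro ⟨-, h5, h6, h7, -⟩
      exact ⟨h5, h6, h7⟩
    · rintro ⟨h5, h6, h7⟩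
      exact ⟨hB u h5, h5, h6, h7, h3⟩
  · have h4 : (univ.filter (fun u => χ u < k)).filter
        (fun u => u ∈ B ∧ α u = true ∧ v ∈ N u ∧ z v = true) = ∅ := by
      rw [Finset.filter_eq_empty_iff]
      rintro u - ⟨-, -, -, h5⟩
      exact h3 h5
    rw [if_neg h3, h4, card_empty, pow_zero]

private theorem Cls_abs (N : V → Finset V) (B : Finset V) (α z : V → Bool) (v : V) :
    |Cls_e1 N B α z v * Cls_e2 N B α z v| = 1 := by
  have h : ∀ n : ℕ, |(-1 : ℝ) ^ n| = 1 := fun n => by rw [abs_pow, abs_neg, abs_one, one_pow]
  rw [abs_mul]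
  have h1 : |Cls_e1 N B α z v| = 1 := by
    unfold Cls_e1
    split_ifs <;> first | exact h _ | exact abs_one
  have h2 : |Cls_e2 N B α z v| = 1 := by
    unfold Cls_e2
    split_ifs <;> first | exact h _ | exact abs_one
  rw [h1, h2, mul_one]

end

theorem thm_Cls : St_Cls := by
  intro V _ _ χ N k B α f hN hf hB
  refine ⟨fun i z => f i (mix B α z) *
    ∏ v ∈ univ.filter (fun v => χ v = i), Cls_e1 N B α z v * Cls_e2 N B α z v, ?_, ?_⟩
  · intro i
    refine ⟨?_, ?_⟩
    · intro x y hxy
      have h1 : f i (mix B α x) = f i (mix B α y) := by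
        refine (hf i).1 _ _ fun v hv => ?_
        unfold mix
        rw [hxy v hv]
      show f i (mix B α x) * _ = f i (mix B α y) * _
      rw [h1]
      congr 1
      refine Finset.prod_congr rfl fun v hv => ?_
      unfold Cls_e1 Cls_e2
      rw [hxy v hv]
    · intro x
      show |f i (mix B α x) * _| ≤ 1
      rw [abs_mul, Finset.abs_prod, Finset.prod_congr rfl fun v _ => Cls_abs N B α x v,
        Finset.prod_const_one, mul_one]
      exact (hf i).2 _
  · intro z hz
    rw [Cls_prod χ N k B α z hN hB hz]
    have h1 : (∏ v ∈ univ.filter (fun v => χ v < k), Cls_e1 N B α z v * Cls_e2 N B α z v) =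
        ∏ i ∈ range k, ∏ v ∈ univ.filter (fun v => χ v = i),
          Cls_e1 N B α z v * Cls_e2 N B α z v := by
      rw [← Finset.prod_fiberwise_of_maps_to (s := univ.filter (fun v => χ v < k))
        (t := range k) (g := χ) fun v hv => mem_range.2 (mem_filter.1 hv).2]
      refine Finset.prod_congr rfl fun i hi => ?_
      refine Finset.prod_congr ?_ fun _ _ => rfl
      ext v
      simp only [mem_filter, mem_univ, true_and]
      constructor
      · rintro ⟨-, h⟩
        exact h
      · intro h
        exact ⟨h ▸ mem_range.1 hi, h⟩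
    rw [h1]
    show _ = Sgn χ N k z * ∏ i ∈ range k, (f i (mix B α z) *
      ∏ v ∈ univ.filter (fun v => χ v = i), Cls_e1 N B α z v * Cls_e2 N B α z v)
    rw [Finset.prod_mul_distrib (f := fun i => f i (mix B α z))]
    ring

end DSD
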