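import Pool.Agent.DSD.St

/-!
# DSD, module Cnt: count of edges (helper68)
-/

set_option autoImplicit false

namespace DSD

open Finset

private theorem Cnt_inter {V : Type} [DecidableEq V] (N : V → Finset V) (B : Finset V) (u : V) :
    (N u ∩ B).card = ∑ v ∈ B, if v ∈ N u then 1 else 0 := by
  rw [inter_comm, ← filter_mem_eq_inter, card_filter]

private theorem Cnt_double {V : Type} [Fintype V] [DecidableEq V] (N : V → Finset V)
    (B : Finset V) :
    ∑ u, (N u ∩ B).card = ∑ v ∈ B, (univ.filter fun u => v ∈ N u).card := by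
  have h : ∀ u, (N u ∩ B).card = ∑ v ∈ B, if v ∈ N u then 1 else 0 := Cnt_inter N B
  rw [sum_congr rfl fun u _ => h u, sum_comm]
  refine sum_congr rfl fun v _ => ?_
  rw [card_filter]

theorem thm_Cnt : St_Cnt := by
  intro V _ _ χ N d k U S hL hS
  set B := S.biUnion N with hB
  obtain ⟨-, hd⟩ := hL
  let r : V → ℕ := fun u => (N u ∩ B).card + if u ∈ B then (N u).card else 0
  have h1 : ∀ u, χ u < k + 1 → (N u ∩ U).card ≤
      (if u ∉ B ∧ χ u < k then (N u ∩ (U \ B)).card else 0) +
      (if χ u = k ∧ u ∉ S then (N u ∩ (U \ B)).card else 0) + r u := by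
    intro u hu
    have h2 : (N u ∩ U).card ≤ (N u ∩ (U \ B)).card + (N u ∩ B).card := by
      refine le_trans (card_le_card ?_) (card_union_le _ _)
      intro v hv
      rw [mem_inter] at hv
      rw [mem_union, mem_inter, mem_inter, mem_sdiff]
      by_cases hvB : v ∈ B
      · exact Or.inr ⟨hv.1, hvB⟩
      · exact Or.inl ⟨hv.1, hv.2, hvB⟩
    rcases Nat.lt_or_ge (χ u) k with h3 | h3
    · by_cases h4 : u ∈ B
      · have h5 : (N u ∩ U).card ≤ (N u).card := card_le_card inter_subset_left
        have h6 : r u = (N u ∩ B).card + (N u).card := by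
          simp only [r]
          rw [if_pos h4]
        rw [h6]
        omega
      · rw [if_pos ⟨h4, h3⟩]
        have h6 : (N u ∩ B).card ≤ r u := Nat.le_add_right _ _
        omega
    · have h4 : χ u = k := by omega
      by_cases h5 : u ∈ S
      · have h6 : N u ∩ U ⊆ N u ∩ B := by
          intro v hv
          rw [mem_inter] at hv ⊢
          exact ⟨hv.1, by rw [hB, mem_biUnion]; exact ⟨u, h5, hv.1⟩⟩
        have h7 := card_le_card h6
        have h8 : (N u ∩ B).card ≤ r u := Nat.le_add_right _ _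
        omega
      · rw [if_pos (show χ u = k ∧ u ∉ S from ⟨h4, h5⟩)]
        have h8 : (N u ∩ B).card ≤ r u := Nat.le_add_right _ _
        omega
  have h2 : ∑ u ∈ U.filter (fun u => χ u < k + 1),
      (if u ∉ B ∧ χ u < k then (N u ∩ (U \ B)).card else 0) ≤ ec χ N k (U \ B) := by
    unfold ec
    rw [← sum_filter]
    refine sum_le_sum_of_subset fun u hu => ?_
    rw [mem_filter, mem_filter] at hu
    rw [mem_filter, mem_sdiff]
    exact ⟨⟨hu.1.1, hu.2.1⟩, hu.2.2⟩
  have h3 : ∑ u ∈ U.filter (fun u => χ u < k + 1),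
      (if χ u = k ∧ u ∉ S then (N u ∩ (U \ B)).card else 0) ≤
      ∑ u ∈ U.filter (fun u => χ u = k ∧ u ∉ S), (N u ∩ (U \ B)).card := by
    rw [← sum_filter]
    refine sum_le_sum_of_subset fun u hu => ?_
    rw [mem_filter, mem_filter] at hu
    rw [mem_filter]
    exact ⟨hu.1.1, hu.2⟩
  have h4 : ∑ u ∈ U.filter (fun u => χ u < k + 1), r u ≤ d ^ 2 * S.card := by
    have h5 : ∑ u ∈ U.filter (fun u => χ u < k + 1), r u ≤ ∑ u, r u :=
      sum_le_sum_of_subset (subset_univ _)
    have h6 : ∑ u, r u = ∑ v ∈ B, ((N v).card + (univ.filter fun u => v ∈ N u).card) := by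
      simp only [r]
      rw [sum_add_distrib, Cnt_double, ← sum_filter, filter_mem_eq_inter, univ_inter, add_comm,
        ← sum_add_distrib]
    have h7 : ∑ v ∈ B, ((N v).card + (univ.filter fun u => v ∈ N u).card) ≤ B.card * d := by
      refine le_trans (sum_le_card_nsmul B _ d fun v _ => hd v) ?_
      rw [smul_eq_mul]
    have h8 : B.card ≤ S.card * d := by
      rw [hB]
      refine card_biUnion_le_card_mul S N d fun u _ => ?_
      exact le_trans (Nat.le_add_right _ _) (hd u)
    calc ∑ u ∈ U.filter (fun u => χ u < k + 1), r u ≤ B.card * d := by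
          rw [h6] at h5
          exact h5.trans h7
      _ ≤ S.card * d * d := Nat.mul_le_mul_right d h8
      _ = d ^ 2 * S.card := by ring
  calc ec χ N (k + 1) U = ∑ u ∈ U.filter (fun u => χ u < k + 1), (N u ∩ U).card := rfl
    _ ≤ ∑ u ∈ U.filter (fun u => χ u < k + 1),
        ((if u ∉ B ∧ χ u < k then (N u ∩ (U \ B)).card else 0) +
        (if χ u = k ∧ u ∉ S then (N u ∩ (U \ B)).card else 0) + r u) :=
      sum_le_sum fun u hu => h1 u (mem_filter.1 hu).2
    _ = ∑ u ∈ U.filter (fun u => χ u < k + 1),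
          (if u ∉ B ∧ χ u < k then (N u ∩ (U \ B)).card else 0) +
        ∑ u ∈ U.filter (fun u => χ u < k + 1),
          (if χ u = k ∧ u ∉ S then (N u ∩ (U \ B)).card else 0) +
        ∑ u ∈ U.filter (fun u => χ u < k + 1), r u := by
      rw [sum_add_distrib, sum_add_distrib]
    _ ≤ _ := Nat.add_le_add (Nat.add_le_add h2 h3) h4

end DSD
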