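import Pool.Agent.DSD.St

/-!
# DSD module Def: the defects (helper85)

Greedy colouring, arithmetic and geometric mean, independence in a colour class.
-/

set_option autoImplicit false
set_option linter.unusedSectionVars false

namespace DSD

open Finset

section DefEp

variable {V : Type} [Fintype V] [DecidableEq V]

private def wt (π : V → ℝ) (x : V → Bool) : ℝ := ∏ v, if x v = true then π v else 1 - π v

private theorem Ep_wt (π : V → ℝ) (F : (V → Bool) → ℝ) : Ep π F = ∑ x, wt π x * F x := rfl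

private theorem wt_nonneg {π : V → ℝ} (h : ∀ v, 0 ≤ π v ∧ π v ≤ 1) (x : V → Bool) :
    0 ≤ wt π x := by
  refine prod_nonneg fun v _ => ?_
  split
  · exact (h v).1
  · linarith [(h v).2]

private theorem wt_sum (π : V → ℝ) : ∑ x : V → Bool, wt π x = 1 := by
  unfold wt
  have h := Finset.prod_univ_sum (fun _ : V => (univ : Finset Bool))
    (fun v b => if b = true then π v else 1 - π v)
  rw [Fintype.piFinset_univ] at h
  rw [← h]
  simp

private theorem wt_mix (π : V → ℝ) (S : Finset V) (x z : V → Bool) :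
    wt π (mix S x z) * wt π (mix S z x) = wt π x * wt π z := by
  unfold wt
  rw [← prod_mul_distrib, ← prod_mul_distrib]
  refine prod_congr rfl fun v _ => ?_
  unfold mix
  by_cases h : v ∈ S
  · simp only [h, if_true]
  · simp only [h, if_false]
    exact mul_comm _ _

private theorem mix_mix (S : Finset V) (x z : V → Bool) :
    mix S (mix S x z) (mix S z x) = x := by
  funext v
  unfold mix
  by_cases h : v ∈ S
  · simp only [h, if_true]
  · simp only [h, if_false]

private theorem sum_mix (S : Finset V) (G : (V → Bool) → (V → Bool) → ℝ) :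
    ∑ x, ∑ z, G (mix S x z) (mix S z x) = ∑ x, ∑ z, G x z := by
  rw [← Fintype.sum_prod_type' (f := fun x z => G (mix S x z) (mix S z x)),
    ← Fintype.sum_prod_type' (f := fun x z => G x z)]
  have hi : Function.Involutive
      (fun q : (V → Bool) × (V → Bool) => (mix S q.1 q.2, mix S q.2 q.1)) := by
    intro q
    exact Prod.ext (mix_mix S q.1 q.2) (mix_mix S q.2 q.1)
  exact Equiv.sum_comp (Function.Involutive.toPerm _ hi)
    (fun q : (V → Bool) × (V → Bool) => G q.1 q.2)

private theorem Ep_split (π : V → ℝ) (S : Finset V) (F : (V → Bool) → ℝ) :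
    Ep π F = ∑ x, ∑ z, wt π x * wt π z * F (mix S x z) := by
  have h1 : ∀ x z : V → Bool, wt π x * wt π z * F (mix S x z) =
      (fun x z : V → Bool => wt π x * wt π z * F x) (mix S x z) (mix S z x) := by
    intro x z
    change _ = wt π (mix S x z) * wt π (mix S z x) * F (mix S x z)
    rw [wt_mix]
  rw [sum_congr rfl fun x _ => sum_congr rfl fun z _ => h1 x z,
    sum_mix S (fun x z => wt π x * wt π z * F x), Ep_wt]
  refine sum_congr rfl fun x _ => ?_
  rw [← sum_mul, ← mul_sum, wt_sum, mul_one]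

private theorem dep_mix {S : Finset V} {f : (V → Bool) → ℝ} (hf : DepOn f S) (x z : V → Bool) :
    f (mix S x z) = f x := by
  refine hf _ _ fun v hv => ?_
  unfold mix
  simp only [hv, if_true]

private theorem dep_mix' {S T : Finset V} (hST : Disjoint S T) {f : (V → Bool) → ℝ}
    (hf : DepOn f T) (x z : V → Bool) : f (mix S x z) = f z := by
  refine hf _ _ fun v hv => ?_
  have h : v ∉ S := fun h => (Finset.disjoint_left.1 hST h) hv
  unfold mix
  simp only [h, if_false]

private theorem Ep_mul (π : V → ℝ) {S T : Finset V} (hST : Disjoint S T)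
    {f g : (V → Bool) → ℝ} (hf : DepOn f S) (hg : DepOn g T) :
    Ep π (fun x => f x * g x) = Ep π f * Ep π g := by
  rw [Ep_split π S]
  have h1 : ∀ x z : V → Bool, wt π x * wt π z * (f (mix S x z) * g (mix S x z)) =
      (wt π x * f x) * (wt π z * g z) := by
    intro x z
    rw [dep_mix hf, dep_mix' hST hg]
    ring
  rw [sum_congr rfl fun x _ => sum_congr rfl fun z _ => h1 x z, Ep_wt, Ep_wt, sum_mul_sum]

private theorem Ep_mono {π : V → ℝ} (h : ∀ v, 0 ≤ π v ∧ π v ≤ 1) {F G : (V → Bool) → ℝ}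
    (hFG : ∀ x, F x ≤ G x) : Ep π F ≤ Ep π G :=
  sum_le_sum fun x _ => mul_le_mul_of_nonneg_left (hFG x) (wt_nonneg h x)

private theorem Ep_nonneg {π : V → ℝ} (h : ∀ v, 0 ≤ π v ∧ π v ≤ 1) {F : (V → Bool) → ℝ}
    (hF : ∀ x, 0 ≤ F x) : 0 ≤ Ep π F :=
  sum_nonneg fun x _ => mul_nonneg (wt_nonneg h x) (hF x)

private theorem Ep_const (π : V → ℝ) (c : ℝ) : Ep π (fun _ => c) = c := by
  rw [Ep_wt, ← sum_mul, wt_sum, one_mul]

private theorem Ep_add (π : V → ℝ) (F G : (V → Bool) → ℝ) :
    Ep π (fun x => F x + G x) = Ep π F + Ep π G := by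
  rw [Ep_wt, Ep_wt, Ep_wt, ← sum_add_distrib]
  exact sum_congr rfl fun x _ => mul_add _ _ _

private theorem Ep_smul (π : V → ℝ) (c : ℝ) (F : (V → Bool) → ℝ) :
    Ep π (fun x => c * F x) = c * Ep π F := by
  rw [Ep_wt, Ep_wt, mul_sum]
  exact sum_congr rfl fun x _ => by ring

private theorem Ep_sum {ι : Type} (s : Finset ι) (π : V → ℝ) (F : ι → (V → Bool) → ℝ) :
    Ep π (fun x => ∑ i ∈ s, F i x) = ∑ i ∈ s, Ep π (F i) := by
  rw [Ep_wt]
  rw [sum_congr rfl fun x _ => mul_sum s (fun i => F i x) (wt π x), sum_comm]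
  rfl

/-- the mean of one bit -/
private theorem Ep_bit (π : V → ℝ) (v : V) :
    Ep π (fun x => if x v = true then (1 : ℝ) else 0) = π v := by
  have h := Finset.prod_univ_sum (fun _ : V => (univ : Finset Bool))
    (fun w b => (if b = true then π w else 1 - π w) *
      (if w = v then (if b = true then (1 : ℝ) else 0) else 1))
  rw [Fintype.piFinset_univ] at h
  have h1 : ∀ x : V → Bool, wt π x * (if x v = true then (1 : ℝ) else 0) =
      ∏ w, (if x w = true then π w else 1 - π w) *
        (if w = v then (if x w = true then (1 : ℝ) else 0) else 1) := by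
    intro x
    rw [prod_mul_distrib, prod_ite_eq' univ v (fun w => if x w = true then (1 : ℝ) else 0)]
    simp only [mem_univ, if_true]
    rfl
  rw [Ep_wt, sum_congr rfl fun x _ => h1 x, ← h]
  rw [prod_eq_single v]
  · simp
  · intro w _ hw
    simp [hw]
  · intro hv
    exact absurd (mem_univ v) hv

private theorem dep_bit (v : V) :
    DepOn (fun x : V → Bool => if x v = true then (1 : ℝ) else 0) {v} := by
  intro x y h
  have h1 := h v (mem_singleton_self v)
  simp only [h1]

private theorem cnt_cast (N : Finset V) (x : V → Bool) :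
    ((cnt N x : ℕ) : ℝ) = ∑ v ∈ N, if x v = true then (1 : ℝ) else 0 := by
  unfold cnt
  rw [card_filter, Nat.cast_sum]
  refine sum_congr rfl fun v _ => ?_
  split <;> simp

private theorem dep_cnt (N : Finset V) {β : Type} (g : ℕ → β) :
    DepOn (fun x : V → Bool => g (cnt N x)) N := by
  intro x y h
  have h1 : cnt N x = cnt N y := by
    unfold cnt
    congr 1
    refine filter_congr fun v hv => ?_
    rw [h v hv]
  simp only [h1]

private theorem Ep_cnt (π : V → ℝ) (N : Finset V) :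
    Ep π (fun x => (cnt N x : ℝ)) = ∑ v ∈ N, π v := by
  have h : (fun x : V → Bool => ((cnt N x : ℕ) : ℝ)) =
      fun x => ∑ v ∈ N, if x v = true then (1 : ℝ) else 0 := funext fun x => cnt_cast N x
  rw [h, Ep_sum N π (fun v x => if x v = true then (1 : ℝ) else 0)]
  exact sum_congr rfl fun v _ => Ep_bit π v

private theorem Ep_cnt2 {π : V → ℝ} (h0 : ∀ v, 0 ≤ π v) (N : Finset V) :
    Ep π (fun x => (cnt N x : ℝ) * cnt N x) ≤ (∑ v ∈ N, π v) ^ 2 + ∑ v ∈ N, π v := by
  have h : (fun x : V → Bool => ((cnt N x : ℕ) : ℝ) * ((cnt N x : ℕ) : ℝ)) =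
      fun x => ∑ v ∈ N, ∑ w ∈ N, (if x v = true then (1 : ℝ) else 0) *
        (if x w = true then (1 : ℝ) else 0) := by
    funext x
    rw [cnt_cast, sum_mul_sum]
  rw [h, Ep_sum N π]
  have h2 : ∀ v ∈ N, Ep π (fun x => ∑ w ∈ N, (if x v = true then (1 : ℝ) else 0) *
      (if x w = true then (1 : ℝ) else 0)) ≤ π v * (∑ w ∈ N, π w) + π v := by
    intro v hv
    rw [Ep_sum N π]
    have h3 : ∀ w ∈ N, Ep π (fun x => (if x v = true then (1 : ℝ) else 0) *
        (if x w = true then (1 : ℝ) else 0)) ≤ π v * π w + if w = v then π v else 0 := by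
      intro w _
      by_cases hw : w = v
      · subst hw
        have h4 : (fun x : V → Bool => (if x w = true then (1 : ℝ) else 0) *
            (if x w = true then (1 : ℝ) else 0)) =
            fun x => if x w = true then (1 : ℝ) else 0 := by
          funext x
          split <;> simp
        rw [h4, Ep_bit, if_pos rfl]
        have := mul_nonneg (h0 w) (h0 w)
        linarith
      · rw [Ep_mul π (by simpa using fun h => hw h.symm) (dep_bit v) (dep_bit w), Ep_bit, Ep_bit,
          if_neg hw, add_zero]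
    refine (sum_le_sum h3).trans ?_
    rw [sum_add_distrib, ← mul_sum, sum_ite_eq' N v (fun _ => π v), if_pos hv]
  refine (sum_le_sum h2).trans ?_
  rw [sum_add_distrib, ← sum_mul, pow_two]

/-- the dependence of a function of two independent copies -/
private def Dep2 (F : (V → Bool) → (V → Bool) → ℝ) (S : Finset V) : Prop :=
  ∀ x x' y y', (∀ v ∈ S, x v = x' v) → (∀ v ∈ S, y v = y' v) → F x y = F x' y'

private noncomputable def E2 (π : V → ℝ) (F : (V → Bool) → (V → Bool) → ℝ) : ℝ := Ep π fun x => Ep π fun y => F x y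

private theorem E2_mul (π : V → ℝ) {S T : Finset V} (hST : Disjoint S T)
    {F G : (V → Bool) → (V → Bool) → ℝ} (hF : Dep2 F S) (hG : Dep2 G T) :
    E2 π (fun x y => F x y * G x y) = E2 π F * E2 π G := by
  have h1 : ∀ x, Ep π (fun y => F x y * G x y) = Ep π (F x) * Ep π (G x) := fun x =>
    Ep_mul π hST (fun y y' h => hF x x y y' (fun _ _ => rfl) h)
      (fun y y' h => hG x x y y' (fun _ _ => rfl) h)
  unfold E2
  rw [funext h1]
  refine Ep_mul π hST (fun x x' h => ?_) (fun x x' h => ?_)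
  · have e : F x = F x' := funext fun y => hF x x' y y h fun _ _ => rfl
    change Ep π (F x) = Ep π (F x')
    rw [e]
  · have e : G x = G x' := funext fun y => hG x x' y y h fun _ _ => rfl
    change Ep π (G x) = Ep π (G x')
    rw [e]

private theorem E2_mono {π : V → ℝ} (h : ∀ v, 0 ≤ π v ∧ π v ≤ 1)
    {F G : (V → Bool) → (V → Bool) → ℝ} (hFG : ∀ x y, F x y ≤ G x y) : E2 π F ≤ E2 π G :=
  Ep_mono h fun x => Ep_mono h fun y => hFG x y

private theorem E2_nonneg {π : V → ℝ} (h : ∀ v, 0 ≤ π v ∧ π v ≤ 1)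
    {F : (V → Bool) → (V → Bool) → ℝ} (hF : ∀ x y, 0 ≤ F x y) : 0 ≤ E2 π F :=
  Ep_nonneg h fun x => Ep_nonneg h fun y => hF x y

private theorem E2_prod (π : V → ℝ) {s : Finset V} {N : V → Finset V}
    {F : V → (V → Bool) → (V → Bool) → ℝ}
    (hN : ∀ u ∈ s, ∀ u' ∈ s, u ≠ u' → Disjoint (N u) (N u')) (hF : ∀ u ∈ s, Dep2 (F u) (N u)) :
    E2 π (fun x y => ∏ u ∈ s, F u x y) = ∏ u ∈ s, E2 π (F u) := by
  induction s using Finset.induction_on with
  | empty =>
    simp only [prod_empty]
    unfold E2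
    simp only [Ep_const]
  | insert a s ha ih =>
    have e : (fun x y => ∏ u ∈ insert a s, F u x y) =
        fun x y => F a x y * ∏ u ∈ s, F u x y := by
      funext x y
      rw [prod_insert ha]
    rw [e, prod_insert ha, E2_mul π (S := N a) (T := s.biUnion N) ?_ (hF a (mem_insert_self a s)) ?_,
      ih (fun u hu u' hu' => hN u (mem_insert_of_mem hu) u' (mem_insert_of_mem hu'))
        (fun u hu => hF u (mem_insert_of_mem hu))]
    · rw [disjoint_biUnion_right]
      intro u hu
      refine hN a (mem_insert_self a s) u (mem_insert_of_mem hu) ?_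
      rintro rfl
      exact ha hu
    · intro x x' y y' hx hy
      refine prod_congr rfl fun u hu => ?_
      exact hF u (mem_insert_of_mem hu) x x' y y'
        (fun v hv => hx v (mem_biUnion.2 ⟨u, hu, hv⟩))
        (fun v hv => hy v (mem_biUnion.2 ⟨u, hu, hv⟩))

/-- at least two of the bits -/
private theorem E2_two {π : V → ℝ} (h : ∀ v, 0 ≤ π v ∧ π v ≤ 1) (N : Finset V) :
    E2 π (fun x y => if 2 ≤ cnt N x + cnt N y then (1 : ℝ) else 0) ≤ 2 * (∑ v ∈ N, π v) ^ 2 := by
  have hs : 0 ≤ ∑ v ∈ N, π v := sum_nonneg fun v _ => (h v).1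
  have h2 := Ep_cnt2 (fun v => (h v).1) N
  have h1 := Ep_cnt π N
  generalize ∑ v ∈ N, π v = s at hs h2 h1 ⊢
  have key : ∀ a b : ℕ, (if 2 ≤ a + b then (1 : ℝ) else 0) ≤
      (1 / 2) * ((b : ℝ) * b) + (((a : ℝ) - 1 / 2) * b + ((1 / 2) * (a * a) - (1 / 2) * a)) := by
    intro a b
    have e : (1 / 2) * ((b : ℝ) * b) + (((a : ℝ) - 1 / 2) * b + ((1 / 2) * (a * a) - (1 / 2) * a)) =
        (1 / 2) * (((a + b : ℕ) : ℝ) * (((a + b : ℕ) : ℝ) - 1)) := by
      push_cast
      ring
    rw [e]
    generalize a + b = t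
    split
    · rename_i ht
      have h3 : (2 : ℝ) ≤ t := by exact_mod_cast ht
      nlinarith
    · rename_i ht
      have h3 : t = 0 ∨ t = 1 := by omega
      rcases h3 with rfl | rfl <;> norm_num
  have h3 : ∀ x, Ep π (fun y => if 2 ≤ cnt N x + cnt N y then (1 : ℝ) else 0) ≤
      (1 / 2) * ((cnt N x : ℝ) * cnt N x) + ((s - 1 / 2) * (cnt N x : ℝ) + s ^ 2 / 2) := by
    intro x
    refine (Ep_mono h fun y => key (cnt N x) (cnt N y)).trans ?_
    rw [Ep_add π (fun y => (1 / 2) * ((cnt N y : ℝ) * cnt N y)), Ep_smul, Ep_add π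
      (fun y => ((cnt N x : ℝ) - 1 / 2) * (cnt N y : ℝ)), Ep_smul, Ep_const, h1]
    nlinarith
  unfold E2
  refine (Ep_mono h h3).trans ?_
  rw [Ep_add π (fun y => (1 / 2) * ((cnt N y : ℝ) * cnt N y)), Ep_smul, Ep_add π
      (fun y => (s - 1 / 2) * (cnt N y : ℝ)), Ep_smul, Ep_const, h1]
  nlinarith

end DefEp

private theorem pow_aux {κ : ℝ} (hκ : 0 ≤ κ) {C : ℕ} (h : κ * C ≤ 1) :
    (1 + κ) ^ C ≤ 1 + 2 * κ * C := by
  have h0 : 0 ≤ (C : ℝ) * κ := mul_nonneg (Nat.cast_nonneg C) hκ
  have h1 : (1 + κ) ^ C ≤ Real.exp (C * κ) := by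
    rw [Real.exp_nat_mul]
    refine pow_le_pow_left₀ (by linarith) ?_ C
    have := Real.add_one_le_exp κ
    linarith
  have h2 : |(C : ℝ) * κ| ≤ 1 := by
    rw [abs_of_nonneg h0]
    linarith
  have h3 := (abs_le.1 (Real.abs_exp_sub_one_sub_id_le h2)).2
  nlinarith

private theorem amgm {C : ℕ} (hC : 0 < C) (X : Fin C → ℝ) (hX : ∀ c, 0 ≤ X c) :
    ∏ c, X c ≤ ∑ c, ((C : ℝ)⁻¹ * X c ^ C) := by
  have hC' : (C : ℝ) ≠ 0 := by exact_mod_cast hC.ne'
  have h := Real.geom_mean_le_arith_mean_weighted (univ : Finset (Fin C)) (fun _ => (C : ℝ)⁻¹)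
    (fun c => X c ^ C) (fun _ _ => by positivity) (by
      rw [sum_const, card_univ, Fintype.card_fin, nsmul_eq_mul, mul_inv_cancel₀ hC'])
    (fun c _ => pow_nonneg (hX c) C)
  rw [prod_congr rfl fun c _ => Real.pow_rpow_inv_natCast (hX c) hC.ne'] at h
  exact h

/-- greedy colouring -/
private theorem colour {V : Type} [Fintype V] [DecidableEq V] (d : ℕ) (N : V → Finset V)
    (A : Finset V) (h1 : ∀ u ∈ A, (N u).card ≤ d)
    (h2 : ∀ v, (A.filter fun u => v ∈ N u).card ≤ d) :
    ∃ c : V → Fin (d * d + 1), ∀ u ∈ A, ∀ u' ∈ A, u ≠ u' → c u = c u' →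
      Disjoint (N u) (N u') := by
  induction A using Finset.induction_on with
  | empty => exact ⟨fun _ => 0, fun u hu => absurd hu (notMem_empty u)⟩
  | insert a s ha ih =>
    obtain ⟨c, hc⟩ := ih (fun u hu => h1 u (mem_insert_of_mem hu)) (fun v =>
      (card_le_card (filter_subset_filter _ (subset_insert a s))).trans (h2 v))
    have h3 : (s.filter fun u => ¬ Disjoint (N a) (N u)).card ≤ d * d := by
      have h4 : (s.filter fun u => ¬ Disjoint (N a) (N u)) ⊆
          (N a).biUnion fun v => s.filter fun u => v ∈ N u := by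
        intro u hu
        rw [mem_filter, Finset.not_disjoint_iff] at hu
        obtain ⟨hu, v, hv, hv'⟩ := hu
        exact mem_biUnion.2 ⟨v, hv, mem_filter.2 ⟨hu, hv'⟩⟩
      refine (card_le_card h4).trans (card_biUnion_le.trans ?_)
      refine (sum_le_card_nsmul (N a) _ d fun v _ =>
        (card_le_card (filter_subset_filter _ (subset_insert a s))).trans (h2 v)).trans ?_
      rw [smul_eq_mul]
      exact Nat.mul_le_mul_right d (h1 a (mem_insert_self a s))
    obtain ⟨k, hk⟩ : ∃ k : Fin (d * d + 1),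
        k ∉ (s.filter fun u => ¬ Disjoint (N a) (N u)).image c := by
      by_contra hcon
      push Not at hcon
      have h4 : (univ : Finset (Fin (d * d + 1))).card ≤
          ((s.filter fun u => ¬ Disjoint (N a) (N u)).image c).card :=
        card_le_card fun k _ => hcon k
      rw [card_univ, Fintype.card_fin] at h4
      have h5 := card_image_le (s := s.filter fun u => ¬ Disjoint (N a) (N u)) (f := c)
      omega
    have hk' : ∀ u ∈ s, c u = k → Disjoint (N a) (N u) := by
      intro u hu hcu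
      by_contra hcon
      exact hk (mem_image.2 ⟨u, mem_filter.2 ⟨hu, hcon⟩, hcu⟩)
    refine ⟨Function.update c a k, fun u hu u' hu' hne hcc => ?_⟩
    rcases mem_insert.1 hu with e1 | e1
    · rcases mem_insert.1 hu' with e2 | e2
      · exact absurd (e1.trans e2.symm) hne
      · have e3 : u' ≠ a := fun h => hne (e1.trans h.symm)
        rw [e1, Function.update_self, Function.update_of_ne e3] at hcc
        rw [e1]
        exact hk' u' e2 hcc.symm
    · rcases mem_insert.1 hu' with e2 | e2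
      · have e3 : u ≠ a := fun h => hne (h.trans e2.symm)
        rw [e2, Function.update_self, Function.update_of_ne e3] at hcc
        rw [e2]
        exact (hk' u e1 hcc).symm
      · have e3 : u ≠ a := fun h => ha (h ▸ e1)
        have e4 : u' ≠ a := fun h => ha (h ▸ e2)
        rw [Function.update_of_ne e3, Function.update_of_ne e4] at hcc
        exact hc u e1 u' e2 hne hcc

private theorem E2_lin {V : Type} [Fintype V] [DecidableEq V] (π : V → ℝ) (K : ℝ)
    (F : (V → Bool) → (V → Bool) → ℝ) :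
    E2 π (fun x y => 1 + K * F x y) = 1 + K * E2 π F := by
  unfold E2
  have h : ∀ x, Ep π (fun y => 1 + K * F x y) = 1 + K * Ep π (F x) := by
    intro x
    rw [Ep_add π (fun _ => 1), Ep_const, Ep_smul]
  rw [funext h, Ep_add π (fun _ => 1), Ep_const, Ep_smul]

private theorem E2_sum {V ι : Type} [Fintype V] [DecidableEq V] (s : Finset ι) (π : V → ℝ) (a : ℝ)
    (F : ι → (V → Bool) → (V → Bool) → ℝ) :
    E2 π (fun x y => ∑ i ∈ s, a * F i x y) = ∑ i ∈ s, a * E2 π (F i) := by
  unfold E2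
  have h : ∀ x, Ep π (fun y => ∑ i ∈ s, a * F i x y) = ∑ i ∈ s, a * Ep π (F i x) := by
    intro x
    rw [Ep_sum s π (fun i y => a * F i x y)]
    exact sum_congr rfl fun i _ => Ep_smul π a (F i x)
  rw [funext h, Ep_sum s π (fun i x => a * Ep π (F i x))]
  exact sum_congr rfl fun i _ => Ep_smul π a (fun x => Ep π (F i x))

theorem thm_Def : St_Def := by
  intro V _ _ d p π A N hd hp hp8 hπ hN hdeg
  have hD : (1 : ℝ) ≤ d := by exact_mod_cast hd
  have hp1 : p ≤ 1 := by
    have h1 : 2 ≤ (d : ℝ) * ((d : ℝ) ^ 2 + 1) := by nlinarith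
    nlinarith
  have h01 : ∀ v, 0 ≤ π v ∧ π v ≤ 1 := fun v => ⟨(hπ v).1, (hπ v).2.trans hp1⟩
  obtain ⟨c, hc⟩ := colour d N A hN hdeg
  obtain ⟨C, hCd⟩ : ∃ C, C = d * d + 1 := ⟨_, rfl⟩
  have hC0 : 0 < C := by omega
  have hCr : (C : ℝ) = (d : ℝ) ^ 2 + 1 := by
    rw [hCd]
    push_cast
    ring
  have hCr' : (C : ℝ) ≠ 0 := by exact_mod_cast hC0.ne'
  have hκ : 0 ≤ 8 * p * d := by positivity
  have hκC : 8 * p * d * C ≤ 1 := by rw [hCr]; exact hp8
  obtain ⟨H, hH⟩ : ∃ H : V → (V → Bool) → (V → Bool) → ℝ,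
      H = fun u x y => 1 + if 2 ≤ cnt (N u) x + cnt (N u) y then 8 * p * d else 0 := ⟨_, rfl⟩
  have hH0 : ∀ u x y, 0 ≤ H u x y := by
    intro u x y
    rw [hH]
    change 0 ≤ 1 + _
    split
    · linarith
    · norm_num
  have hone : ∀ u ∈ A, E2 π (fun x y => H u x y ^ C) ≤ Real.exp (64 * p ^ 3 * d ^ 5) := by
    intro u hu
    have h1 : ∀ x y, H u x y ^ C ≤
        1 + (2 * (8 * p * d) * C) * (if 2 ≤ cnt (N u) x + cnt (N u) y then (1 : ℝ) else 0) := by
      intro x y
      rw [hH]
      change (1 + if 2 ≤ cnt (N u) x + cnt (N u) y then 8 * p * d else 0) ^ C ≤ _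
      split
      · rw [mul_one]
        exact pow_aux hκ hκC
      · rw [add_zero, one_pow, mul_zero, add_zero]
    refine (E2_mono h01 h1).trans ?_
    rw [E2_lin π _ (fun x y => if 2 ≤ cnt (N u) x + cnt (N u) y then (1 : ℝ) else 0)]
    have h2 := E2_two h01 (N u)
    have h3 : ∑ v ∈ N u, π v ≤ d * p := by
      refine (sum_le_card_nsmul (N u) π p fun v _ => (hπ v).2).trans ?_
      rw [nsmul_eq_mul]
      exact mul_le_mul_of_nonneg_right (by exact_mod_cast hN u hu) hp
    have h4 : 0 ≤ ∑ v ∈ N u, π v := sum_nonneg fun v _ => (hπ v).1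
    have h5 : (∑ v ∈ N u, π v) ^ 2 ≤ (d * p) ^ 2 := pow_le_pow_left₀ h4 h3 2
    have h6 : 0 ≤ 2 * (8 * p * d) * (C : ℝ) := by positivity
    have h7 := Real.add_one_le_exp (64 * p ^ 3 * (d : ℝ) ^ 5)
    have h8 := mul_le_mul_of_nonneg_left (h2.trans (mul_le_mul_of_nonneg_left h5 two_pos.le)) h6
    refine (add_le_add_right h8 1).trans ?_
    refine le_trans ?_ h7
    have h9 : 2 * (8 * p * (d : ℝ)) * (C : ℝ) * (2 * (d * p) ^ 2) =
        32 * (p ^ 3 * (d : ℝ) ^ 3) * ((d : ℝ) ^ 2 + 1) := by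
      rw [hCr]
      ring
    rw [h9]
    have h10 : (d : ℝ) ^ 2 + 1 ≤ 2 * (d : ℝ) ^ 2 := by nlinarith
    have h11 : 0 ≤ 32 * (p ^ 3 * (d : ℝ) ^ 3) := by positivity
    have h12 := mul_le_mul_of_nonneg_left h10 h11
    have h13 : 32 * (p ^ 3 * (d : ℝ) ^ 3) * (2 * (d : ℝ) ^ 2) = 64 * p ^ 3 * (d : ℝ) ^ 5 := by ring
    linarith
  have hpt : ∀ x y, ∏ u ∈ A, H u x y ≤
      ∑ k : Fin (d * d + 1), (C : ℝ)⁻¹ * ∏ u ∈ A with c u = k, H u x y ^ C := by
    intro x y
    rw [← prod_fiberwise A c (fun u => H u x y)]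
    have h1 := amgm (C := d * d + 1) (by omega) (fun k => ∏ u ∈ A with c u = k, H u x y)
      (fun k => prod_nonneg fun u _ => hH0 u x y)
    refine h1.trans (le_of_eq (sum_congr rfl fun k _ => ?_))
    rw [hCd, prod_pow]
  have hmain : E2 π (fun x y => ∏ u ∈ A, H u x y) ≤
      Real.exp (64 * p ^ 3 * d ^ 5 * A.card) := by
    refine (E2_mono h01 hpt).trans ?_
    rw [E2_sum univ π (C : ℝ)⁻¹ (fun k x y => ∏ u ∈ A with c u = k, H u x y ^ C)]
    have h1 : ∀ k : Fin (d * d + 1), E2 π (fun x y => ∏ u ∈ A with c u = k, H u x y ^ C) ≤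
        Real.exp (64 * p ^ 3 * d ^ 5 * A.card) := by
      intro k
      rw [E2_prod π (N := N) (F := fun u x y => H u x y ^ C)]
      · refine (prod_le_prod (fun u _ => E2_nonneg h01 fun x y => pow_nonneg (hH0 u x y) C)
          (fun u hu => hone u (mem_filter.1 hu).1)).trans ?_
        rw [prod_const, ← Real.exp_nat_mul]
        refine Real.exp_le_exp.2 ?_
        rw [mul_comm]
        refine mul_le_mul_of_nonneg_left ?_ (by positivity)
        exact_mod_cast card_filter_le A _
      · intro u hu u' hu' hne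
        rw [mem_filter] at hu hu'
        exact hc u hu.1 u' hu'.1 hne (hu.2.trans hu'.2.symm)
      · intro u _ x x' y y' hx hy
        have e1 := dep_cnt (N u) id x x' hx
        have e2 := dep_cnt (N u) id y y' hy
        simp only [id] at e1 e2
        change H u x y ^ C = H u x' y' ^ C
        rw [hH]
        change (1 + if 2 ≤ cnt (N u) x + cnt (N u) y then 8 * p * d else 0) ^ C =
          (1 + if 2 ≤ cnt (N u) x' + cnt (N u) y' then 8 * p * d else 0) ^ C
        rw [e1, e2]
    refine (sum_le_sum fun k _ => mul_le_mul_of_nonneg_left (h1 k) (by positivity)).trans ?_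
    rw [sum_const, card_univ, Fintype.card_fin, ← hCd, nsmul_eq_mul, ← mul_assoc,
      mul_inv_cancel₀ hCr', one_mul]
  rw [hH] at hmain
  exact hmain

end DSD
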