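import Mathlib

/-!
# Independent bits, read-once formulas, bipartite graphs (MP_4ed1f9_lc): definitions
-/

set_option autoImplicit false

namespace DSD

open Finset

/-! ### Functions of few variables -/

/-- `f` depends only on the variables in `S` -/
def DepOn {V β : Type} (f : (V → Bool) → β) (S : Finset V) : Prop :=
  ∀ x y, (∀ v ∈ S, x v = y v) → f x = f y

/-- `F` is computed by a read-once formula with the variables `S` -/
inductive ReadOnce {V : Type} [DecidableEq V] : Finset V → ((V → Bool) → Bool) → Prop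
  | const (b : Bool) : ReadOnce ∅ (fun _ => b)
  | var (v : V) : ReadOnce {v} (fun x => x v)
  | and {S T : Finset V} {f g : (V → Bool) → Bool} : Disjoint S T → ReadOnce S f → ReadOnce T g →
      ReadOnce (S ∪ T) (fun x => f x && g x)
  | or {S T : Finset V} {f g : (V → Bool) → Bool} : Disjoint S T → ReadOnce S f → ReadOnce T g →
      ReadOnce (S ∪ T) (fun x => f x || g x)

/-! ### Random subsets -/

/-- the number `0` or `1` -/
def bv (b : Bool) : ℝ := if b = true then 1 else 0

/-- the indicator of a set of facts -/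
def ind {V : Type} [DecidableEq V] (W : Finset V) : V → Bool := fun f => decide (f ∈ W)

/-- the mean of `F` for a random subset of `D`: every `f ∈ D` is chosen with probability `t f`,
independently (for a database: a tuple-independent probabilistic database) -/
noncomputable def Mean {V : Type} [DecidableEq V] (D : Finset V) (t : V → ℝ)
    (F : (V → Bool) → ℝ) : ℝ :=
  ∑ W ∈ D.powerset, (∏ f ∈ W, t f) * (∏ f ∈ D \ W, (1 - t f)) * F (ind W)

/-! ### Independent bits -/

/-- the mean of `F`, if the bits are independent and `v` is `true` with probability `π v` -/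
noncomputable def Ep {V : Type} [Fintype V] [DecidableEq V] (π : V → ℝ) (F : (V → Bool) → ℝ) : ℝ :=
  ∑ x : V → Bool, (∏ v, if x v = true then π v else 1 - π v) * F x

/-- `x` on `S` and `z` outside `S` -/
def mix {V : Type} [DecidableEq V] (S : Finset V) (x z : V → Bool) : V → Bool :=
  fun v => if v ∈ S then x v else z v

/-- the number of the elements of `N` where `x` is `true` -/
def cnt {V : Type} (N : Finset V) (x : V → Bool) : ℕ := (N.filter fun v => x v = true).card

/-! ### Bipartite graphs -/

section Bip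

variable {K : Type} [Fintype K] [DecidableEq K]

/-- the monotone 2-DNF of a bipartite graph -/
def Phi (E : Finset (K × K)) (x : K ⊕ K → Bool) : ℝ :=
  if ∃ e ∈ E, x (Sum.inl e.1) = true ∧ x (Sum.inr e.2) = true then 1 else 0

/-- the sign `(-1) ^ (number of edges with both ends true)` -/
def Sg (E : Finset (K × K)) (x : K ⊕ K → Bool) : ℝ :=
  ∏ e ∈ E, if x (Sum.inl e.1) = true ∧ x (Sum.inr e.2) = true then (-1 : ℝ) else 1

end Bip

/-! ### The sign of the crossing edges

`χ` numbers the parts, `N u` are the neighbours of `u` in parts with smaller numbers. -/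

section Cross

variable {V : Type} [Fintype V] [DecidableEq V]

/-- the sign of the edges `u v`, `v ∈ N u`, with `χ u < k` -/
def Sgn (χ : V → ℕ) (N : V → Finset V) (k : ℕ) (x : V → Bool) : ℝ :=
  ∏ u ∈ univ.filter (fun u => χ u < k), if x u = true then (-1 : ℝ) ^ cnt (N u) x else 1

/-- the number of the edges `u v`, `v ∈ N u`, with `χ u < k` and both ends in `U` -/
def ec (χ : V → ℕ) (N : V → Finset V) (k : ℕ) (U : Finset V) : ℕ :=
  ∑ u ∈ U.filter (fun u => χ u < k), (N u ∩ U).card

/-- the numbers of parts decrease, at most `d` edges at every vertex -/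
def Low (χ : V → ℕ) (N : V → Finset V) (d : ℕ) : Prop :=
  (∀ u, ∀ v ∈ N u, χ v < χ u) ∧ ∀ v, (N v).card + (univ.filter fun u => v ∈ N u).card ≤ d

/-- functions with values in `[-1, 1]`; the function `i` depends only on the part `i` -/
def Loc (χ : V → ℕ) (f : ℕ → (V → Bool) → ℝ) : Prop :=
  ∀ i, DepOn (f i) (univ.filter fun v => χ v = i) ∧ ∀ x, |f i x| ≤ 1

open Classical in
/-- the vertices which are not always `false` -/
noncomputable def act (π : V → ℝ) : Finset V := univ.filter fun v => π v ≠ 0

/-- the probabilities are `0` or between `(1 - η) p` and `p` -/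
def Adm (p η : ℝ) (π : V → ℝ) : Prop := ∀ v, π v = 0 ∨ ((1 - η) * p ≤ π v ∧ π v ≤ p)

/-- the bound of the discrepancy for `k` parts -/
noncomputable def bd (d r n : ℕ) (p : ℝ) (e k : ℕ) : ℝ :=
  Real.exp (-(2 * p ^ 2 * (1 - 5 * d * r * p)) * e + 32 * k * p ^ 3 * d ^ 5 * n)

/-- the statement for `k` parts -/
def Dis (χ : V → ℕ) (N : V → Finset V) (d r : ℕ) (p : ℝ) (k : ℕ) : Prop :=
  ∀ (π : V → ℝ), Adm p (2 * d * p * ((r : ℝ) - k)) π → ∀ f : ℕ → (V → Bool) → ℝ, Loc χ f →
    |Ep π fun x => Sgn χ N k x * ∏ i ∈ range k, f i x| ≤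
      bd d r (Fintype.card V) p (ec χ N k (act π)) k

/-- the standing conditions on `p` -/
def Par (d r : ℕ) (p : ℝ) : Prop :=
  1 ≤ d ∧ 1 ≤ r ∧ 0 < p ∧ 8 * p * d * ((d : ℝ) ^ 2 + 1) ≤ 1 ∧ 5 * d * r * p ≤ 1

end Cross

end DSD
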