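import Pool.Agent.DSD.Defs

/-!
# Basic facts about `Ep` (independent bits)
-/

set_option autoImplicit false

namespace DSD

open Finset

section

variable {V : Type} [DecidableEq V]

/-! ### Mixing -/

theorem mix_of_mem {B : Finset V} {v : V} (h : v ∈ B) (x z : V → Bool) : mix B x z v = x v :=
  if_pos h

theorem mix_of_notMem {B : Finset V} {v : V} (h : v ∉ B) (x z : V → Bool) : mix B x z v = z v :=
  if_neg h

theorem mix_mix (B : Finset V) (x z : V → Bool) : mix B (mix B x z) (mix B z x) = x := by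
  funext v
  by_cases h : v ∈ B
  · rw [mix_of_mem h, mix_of_mem h]
  · rw [mix_of_notMem h, mix_of_notMem h]

/-- functions of the variables in `B` -/
theorem DepOn.mix_left {β : Type} {F : (V → Bool) → β} {B : Finset V} (h : DepOn F B)
    (x z : V → Bool) : F (mix B x z) = F x := h _ _ fun _ hv => mix_of_mem hv x z

/-- functions of the variables outside `B` -/
theorem DepOn.mix_right {β : Type} {F : (V → Bool) → β} {S B : Finset V} (h : DepOn F S)
    (hd : Disjoint S B) (x z : V → Bool) : F (mix B x z) = F z :=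
  h _ _ fun _ hv => mix_of_notMem (Finset.disjoint_left.1 hd hv) x z

omit [DecidableEq V] in
theorem DepOn.mono {β : Type} {F : (V → Bool) → β} {S S' : Finset V} (h : DepOn F S)
    (hS : S ⊆ S') : DepOn F S' := fun x y hxy => h x y fun v hv => hxy v (hS hv)

theorem DepOn.mul {F G : (V → Bool) → ℝ} {S S' : Finset V} (h : DepOn F S) (h' : DepOn G S') :
    DepOn (fun x => F x * G x) (S ∪ S') := fun x y hxy => by
  show F x * G x = F y * G y
  rw [h.mono subset_union_left x y hxy, h'.mono subset_union_right x y hxy]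

theorem DepOn.prod {ι : Type} [DecidableEq ι] {s : Finset ι} {F : ι → (V → Bool) → ℝ}
    {S : ι → Finset V} (h : ∀ i ∈ s, DepOn (F i) (S i)) :
    DepOn (fun x => ∏ i ∈ s, F i x) (s.biUnion S) := fun x y hxy => by
  apply Finset.prod_congr rfl
  intro i hi
  exact h i hi x y fun v hv => hxy v (Finset.mem_biUnion.2 ⟨i, hi, hv⟩)

end

section

variable {V : Type} [Fintype V] [DecidableEq V]

/-- the weight of a point -/
noncomputable def Ep_w (π : V → ℝ) (x : V → Bool) : ℝ := ∏ v, if x v = true then π v else 1 - π v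

theorem Ep_eq (π : V → ℝ) (F : (V → Bool) → ℝ) : Ep π F = ∑ x, Ep_w π x * F x := rfl

theorem Ep_w_nonneg {π : V → ℝ} (h : ∀ v, 0 ≤ π v ∧ π v ≤ 1) (x : V → Bool) : 0 ≤ Ep_w π x := by
  apply Finset.prod_nonneg
  intro v _
  split_ifs
  · exact (h v).1
  · linarith [(h v).2]

theorem Ep_add (π : V → ℝ) (F G : (V → Bool) → ℝ) :
    (Ep π fun x => F x + G x) = Ep π F + Ep π G := by
  simp only [Ep_eq, mul_add, Finset.sum_add_distrib]

theorem Ep_sub (π : V → ℝ) (F G : (V → Bool) → ℝ) :
    (Ep π fun x => F x - G x) = Ep π F - Ep π G := by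
  simp only [Ep_eq, mul_sub, Finset.sum_sub_distrib]

theorem Ep_neg (π : V → ℝ) (F : (V → Bool) → ℝ) : (Ep π fun x => - F x) = - Ep π F := by
  simp only [Ep_eq, mul_neg, Finset.sum_neg_distrib]

theorem Ep_const_mul (π : V → ℝ) (c : ℝ) (F : (V → Bool) → ℝ) :
    (Ep π fun x => c * F x) = c * Ep π F := by
  simp only [Ep_eq, Finset.mul_sum]
  exact Finset.sum_congr rfl fun x _ => by ring

theorem Ep_mul_const (π : V → ℝ) (c : ℝ) (F : (V → Bool) → ℝ) :
    (Ep π fun x => F x * c) = Ep π F * c := by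
  simp only [Ep_eq, Finset.sum_mul]
  exact Finset.sum_congr rfl fun x _ => by ring

theorem Ep_sum (π : V → ℝ) {ι : Type} (s : Finset ι) (F : ι → (V → Bool) → ℝ) :
    (Ep π fun x => ∑ i ∈ s, F i x) = ∑ i ∈ s, Ep π (F i) := by
  simp only [Ep_eq, Finset.mul_sum]
  exact Finset.sum_comm

/-- product functions -/
theorem Ep_prod (π : V → ℝ) (h : V → Bool → ℝ) :
    (Ep π fun x => ∏ v, h v (x v)) = ∏ v, (π v * h v true + (1 - π v) * h v false) := by
  rw [Ep_eq]
  have h1 : ∀ v, π v * h v true + (1 - π v) * h v false =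
      ∑ b : Bool, (if b = true then π v else 1 - π v) * h v b := by
    intro v
    rw [Fintype.sum_bool]
    simp
  rw [Finset.prod_congr rfl fun v _ => h1 v, Finset.prod_univ_sum, Fintype.piFinset_univ]
  apply Finset.sum_congr rfl
  intro x _
  rw [Ep_w, ← Finset.prod_mul_distrib]

theorem Ep_const (π : V → ℝ) (c : ℝ) : (Ep π fun _ => c) = c := by
  have h := Ep_prod π (fun _ _ => (1 : ℝ))
  simp only [Finset.prod_const_one, mul_one] at h
  have h2 := Ep_mul_const π c (fun _ => (1 : ℝ))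
  simp only [one_mul] at h2
  rw [h2, h, Finset.prod_congr rfl (g := fun _ => (1 : ℝ)) fun v _ => by ring,
    Finset.prod_const_one, one_mul]

theorem Ep_w_sum (π : V → ℝ) : ∑ x, Ep_w π x = 1 := by
  have h := Ep_const π 1
  simpa [Ep_eq] using h

/-- monotonicity, almost surely -/
theorem Ep_mono_ae {π : V → ℝ} (hπ : ∀ v, 0 ≤ π v ∧ π v ≤ 1) {F G : (V → Bool) → ℝ}
    (h : ∀ x, (∀ v, π v = 0 → x v = false) → F x ≤ G x) : Ep π F ≤ Ep π G := by
  rw [Ep_eq, Ep_eq]
  apply Finset.sum_le_sum
  intro x _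
  by_cases hx : ∀ v, π v = 0 → x v = false
  · exact mul_le_mul_of_nonneg_left (h x hx) (Ep_w_nonneg hπ x)
  · push Not at hx
    obtain ⟨v, hv, hxv⟩ := hx
    have h0 : Ep_w π x = 0 := by
      apply Finset.prod_eq_zero (Finset.mem_univ v)
      rw [if_pos (by simpa using hxv), hv]
    rw [h0, zero_mul, zero_mul]

theorem Ep_mono {π : V → ℝ} (hπ : ∀ v, 0 ≤ π v ∧ π v ≤ 1) {F G : (V → Bool) → ℝ}
    (h : ∀ x, F x ≤ G x) : Ep π F ≤ Ep π G := Ep_mono_ae hπ fun x _ => h x

theorem Ep_nonneg {π : V → ℝ} (hπ : ∀ v, 0 ≤ π v ∧ π v ≤ 1) {F : (V → Bool) → ℝ}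
    (h : ∀ x, 0 ≤ F x) : 0 ≤ Ep π F :=
  Finset.sum_nonneg fun x _ => mul_nonneg (Ep_w_nonneg hπ x) (h x)

theorem Ep_le_const {π : V → ℝ} (hπ : ∀ v, 0 ≤ π v ∧ π v ≤ 1) {F : (V → Bool) → ℝ} {c : ℝ}
    (h : ∀ x, F x ≤ c) : Ep π F ≤ c := by
  have h1 := Ep_mono hπ (F := F) (G := fun _ => c) h
  rwa [Ep_const] at h1

theorem Ep_abs_le {π : V → ℝ} (hπ : ∀ v, 0 ≤ π v ∧ π v ≤ 1) (F : (V → Bool) → ℝ) :
    |Ep π F| ≤ Ep π fun x => |F x| := by
  rw [Ep_eq, Ep_eq]
  refine (Finset.abs_sum_le_sum_abs _ _).trans (le_of_eq ?_)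
  exact Finset.sum_congr rfl fun x _ => by rw [abs_mul, abs_of_nonneg (Ep_w_nonneg hπ x)]

theorem Ep_abs_le_const {π : V → ℝ} (hπ : ∀ v, 0 ≤ π v ∧ π v ≤ 1) {F : (V → Bool) → ℝ} {c : ℝ}
    (h : ∀ x, |F x| ≤ c) : |Ep π F| ≤ c := (Ep_abs_le hπ F).trans (Ep_le_const hπ h)

/-- Cauchy-Schwarz -/
theorem Ep_sq_le {π : V → ℝ} (hπ : ∀ v, 0 ≤ π v ∧ π v ≤ 1) (F : (V → Bool) → ℝ) :
    Ep π F ^ 2 ≤ Ep π fun x => F x ^ 2 := by
  have h1 : 0 ≤ Ep π fun x => (F x - Ep π F) ^ 2 := Ep_nonneg hπ fun x => sq_nonneg _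
  have h2 : (Ep π fun x => (F x - Ep π F) ^ 2) = (Ep π fun x => F x ^ 2) - Ep π F ^ 2 := by
    have h3 : (fun x => (F x - Ep π F) ^ 2) =
        fun x => (F x ^ 2 - (2 * Ep π F) * F x) + Ep π F ^ 2 := by
      funext x; ring
    rw [h3, Ep_add, Ep_sub, Ep_const_mul, Ep_const]
    ring
  linarith

/-- equality almost surely -/
theorem Ep_congr {π : V → ℝ} {F G : (V → Bool) → ℝ}
    (h : ∀ x, (∀ v, π v = 0 → x v = false) → F x = G x) : Ep π F = Ep π G := by
  rw [Ep_eq, Ep_eq]
  apply Finset.sum_congr rfl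
  intro x _
  by_cases hx : ∀ v, π v = 0 → x v = false
  · rw [h x hx]
  · push Not at hx
    obtain ⟨v, hv, hxv⟩ := hx
    have h0 : Ep_w π x = 0 := by
      apply Finset.prod_eq_zero (Finset.mem_univ v)
      rw [if_pos (by simpa using hxv), hv]
    rw [h0, zero_mul, zero_mul]

theorem Ep_swap (π π' : V → ℝ) (F : (V → Bool) → (V → Bool) → ℝ) :
    (Ep π fun x => Ep π' fun y => F x y) = Ep π' fun y => Ep π fun x => F x y := by
  simp only [Ep_eq, Finset.mul_sum]
  rw [Finset.sum_comm]
  exact Finset.sum_congr rfl fun x _ => Finset.sum_congr rfl fun y _ => by ring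

/-- different probabilities on `B` and outside `B` -/
theorem Ep_mix2 (π₁ π₂ : V → ℝ) (B : Finset V) (F : (V → Bool) → ℝ) :
    Ep (fun v => if v ∈ B then π₁ v else π₂ v) F =
      Ep π₁ fun y => Ep π₂ fun x => F (mix B y x) := by
  let e : (V → Bool) × (V → Bool) ≃ (V → Bool) × (V → Bool) :=
    { toFun := fun a => (mix B a.1 a.2, mix B a.2 a.1)
      invFun := fun a => (mix B a.1 a.2, mix B a.2 a.1)
      left_inv := fun a => by
        simp only [mix_mix]
      right_inv := fun a => by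
        simp only [mix_mix] }
  have hw : ∀ a : (V → Bool) × (V → Bool), Ep_w π₁ a.1 * Ep_w π₂ a.2 =
      Ep_w (fun v => if v ∈ B then π₁ v else π₂ v) (e a).1 *
        Ep_w (fun v => if v ∈ B then π₂ v else π₁ v) (e a).2 := by
    intro a
    simp only [Ep_w, ← Finset.prod_mul_distrib]
    apply Finset.prod_congr rfl
    intro v _
    by_cases hv : v ∈ B
    · simp only [e, Equiv.coe_fn_mk, mix_of_mem hv, if_pos hv]
    · simp only [e, Equiv.coe_fn_mk, mix_of_notMem hv, if_neg hv]
      ring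
  have h1 : (Ep π₁ fun y => Ep π₂ fun x => F (mix B y x)) =
      ∑ a : (V → Bool) × (V → Bool), Ep_w π₁ a.1 * Ep_w π₂ a.2 * F (e a).1 := by
    rw [Fintype.sum_prod_type]
    simp only [Ep_eq, Finset.mul_sum]
    exact Finset.sum_congr rfl fun x _ => Finset.sum_congr rfl fun y _ => by
      simp only [e, Equiv.coe_fn_mk]
      ring
  rw [h1, Finset.sum_congr rfl fun a _ => by rw [hw a],
    Equiv.sum_comp e (fun a : (V → Bool) × (V → Bool) =>
      Ep_w (fun v => if v ∈ B then π₁ v else π₂ v) a.1 *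
        Ep_w (fun v => if v ∈ B then π₂ v else π₁ v) a.2 * F a.1), Fintype.sum_prod_type]
  rw [Ep_eq]
  apply Finset.sum_congr rfl
  intro x _
  have h2 : ∀ y : V → Bool, Ep_w (fun v => if v ∈ B then π₁ v else π₂ v) x *
      Ep_w (fun v => if v ∈ B then π₂ v else π₁ v) y * F x =
      Ep_w (fun v => if v ∈ B then π₂ v else π₁ v) y *
        (Ep_w (fun v => if v ∈ B then π₁ v else π₂ v) x * F x) := fun y => by ring
  rw [Finset.sum_congr rfl fun y _ => h2 y, ← Finset.sum_mul, Ep_w_sum, one_mul]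

theorem Ep_mix (π : V → ℝ) (B : Finset V) (F : (V → Bool) → ℝ) :
    Ep π F = Ep π fun y => Ep π fun x => F (mix B y x) := by
  have h := Ep_mix2 π π B F
  simpa only [ite_self] using h

/-- functions which do not depend on the variables in `B` -/
theorem Ep_zero (π : V → ℝ) (B : Finset V) {F : (V → Bool) → ℝ}
    (hF : ∀ x y, (∀ v, v ∉ B → x v = y v) → F x = F y) :
    Ep π F = Ep (fun v => if v ∈ B then 0 else π v) F := by
  rw [Ep_mix2 (fun _ => 0) π B F]
  have h : ∀ y x : V → Bool, F (mix B y x) = F x := fun y x => hF _ _ fun v hv =>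
    mix_of_notMem hv y x
  simp only [h]
  rw [Ep_const]

/-- a factor which depends only on the variables in `B` -/
theorem Ep_pull (π : V → ℝ) {B : Finset V} {H : (V → Bool) → ℝ} (hH : DepOn H B)
    (W : (V → Bool) → ℝ) :
    (Ep π fun x => H x * W x) = Ep π fun x => H x * Ep π fun z => W (mix B x z) := by
  rw [Ep_mix π B fun x => H x * W x]
  congr 1
  funext x
  rw [← Ep_const_mul]
  congr 1
  funext z
  rw [hH.mix_left]

/-- independence -/
theorem Ep_indep (π : V → ℝ) {S S' : Finset V} {F G : (V → Bool) → ℝ} (hF : DepOn F S)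
    (hG : DepOn G S') (hd : Disjoint S' S) :
    (Ep π fun x => F x * G x) = Ep π F * Ep π G := by
  rw [Ep_pull π hF]
  have h : ∀ x z : V → Bool, G (mix S x z) = G z := fun x z => hG.mix_right hd x z
  simp only [h]
  rw [Ep_mul_const]

/-- independence of many functions of pairs -/
theorem Ep_indep2 (π : V → ℝ) {ι : Type} [DecidableEq ι] (s : Finset ι) (B : ι → Finset V)
    (H : ι → (V → Bool) → (V → Bool) → ℝ)
    (hx : ∀ i ∈ s, ∀ y, DepOn (fun x => H i x y) (B i))
    (hy : ∀ i ∈ s, ∀ x, DepOn (fun y => H i x y) (B i))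
    (hd : ∀ i ∈ s, ∀ j ∈ s, i ≠ j → Disjoint (B i) (B j)) :
    (Ep π fun x => Ep π fun y => ∏ i ∈ s, H i x y) =
      ∏ i ∈ s, Ep π fun x => Ep π fun y => H i x y := by
  induction s using Finset.induction_on with
  | empty => simp only [Finset.prod_empty, Ep_const]
  | insert a s ha ih =>
    rw [Finset.prod_insert ha, ← ih (fun i hi => hx i (mem_insert_of_mem hi))
      (fun i hi => hy i (mem_insert_of_mem hi))
      (fun i hi j hj => hd i (mem_insert_of_mem hi) j (mem_insert_of_mem hj))]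
    have hdis : Disjoint (s.biUnion B) (B a) := by
      rw [Finset.disjoint_biUnion_left]
      intro i hi
      exact hd i (mem_insert_of_mem hi) a (mem_insert_self a s) fun h => ha (h ▸ hi)
    have h1 : ∀ x, (Ep π fun y => ∏ i ∈ insert a s, H i x y) =
        (Ep π fun y => H a x y) * Ep π fun y => ∏ i ∈ s, H i x y := by
      intro x
      simp only [Finset.prod_insert ha]
      exact Ep_indep π (hy a (mem_insert_self a s) x)
        (DepOn.prod fun i hi => hy i (mem_insert_of_mem hi) x) hdis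
    simp only [h1]
    refine Ep_indep π (S := B a) (S' := s.biUnion B) ?_ ?_ hdis
    · intro x x' hxx
      show (Ep π fun y => H a x y) = Ep π fun y => H a x' y
      congr 1
      funext y
      exact hx a (mem_insert_self a s) y x x' hxx
    · intro x x' hxx
      show (Ep π fun y => ∏ i ∈ s, H i x y) = Ep π fun y => ∏ i ∈ s, H i x' y
      congr 1
      funext y
      exact DepOn.prod (fun i hi => hx i (mem_insert_of_mem hi) y) x x' hxx

/-- tilting: a product function as density -/
theorem Ep_tilt (π C : V → ℝ) (h : ∀ v, 1 - π v * (1 - C v) ≠ 0) (G : (V → Bool) → ℝ) :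
    (Ep π fun x => (∏ v, if x v = true then C v else 1) * G x) =
      (∏ v, (1 - π v * (1 - C v))) *
        Ep (fun v => π v * C v / (1 - π v * (1 - C v))) G := by
  rw [Ep_eq, Ep_eq, Finset.mul_sum]
  apply Finset.sum_congr rfl
  intro x _
  rw [← mul_assoc, ← mul_assoc]
  congr 1
  simp only [Ep_w, ← Finset.prod_mul_distrib]
  apply Finset.prod_congr rfl
  intro v _
  have hv := h v
  by_cases hx : x v = true
  · rw [if_pos hx, if_pos hx, if_pos hx]
    field_simp
  · rw [if_neg hx, if_neg hx, if_neg hx]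
    field_simp
    ring

/-- the probability that `v` is true -/
theorem Ep_bit (π : V → ℝ) (u : V) : (Ep π fun x => if x u = true then (1 : ℝ) else 0) = π u := by
  have h3 : (fun x : V → Bool => if x u = true then (1 : ℝ) else 0) =
      fun x => ∏ t, (fun (t : V) (b : Bool) => if t = u then (if b = true then (1 : ℝ) else 0)
        else 1) t (x t) := by
    funext x
    rw [Finset.prod_eq_single u]
    · simp
    · intro t _ ht
      simp [ht]
    · intro hu
      exact absurd (Finset.mem_univ u) hu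
  refine (congrArg (Ep π) h3).trans ((Ep_prod π (fun (t : V) (b : Bool) =>
    if t = u then (if b = true then (1 : ℝ) else 0) else 1)).trans ?_)
  rw [Finset.prod_eq_single u]
  · simp
  · intro t _ ht
    simp [ht]
  · intro hu
    exact absurd (Finset.mem_univ u) hu

/-- the probability that `v` and `w` are both true -/
theorem Ep_two (π : V → ℝ) {v w : V} (h : v ≠ w) :
    (Ep π fun x => if x v = true ∧ x w = true then (1 : ℝ) else 0) = π v * π w := by
  have h1 : (fun x : V → Bool => if x v = true ∧ x w = true then (1 : ℝ) else 0) =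
      fun x => (if x v = true then (1 : ℝ) else 0) * (if x w = true then 1 else 0) := by
    funext x
    by_cases h1 : x v = true <;> by_cases h2 : x w = true <;> simp [h1, h2]
  rw [h1, Ep_indep π (S := {v}) (S' := {w}) (F := fun x => if x v = true then (1 : ℝ) else 0)
    (G := fun x => if x w = true then (1 : ℝ) else 0), Ep_bit, Ep_bit]
  · intro x y hxy
    show (if x v = true then (1 : ℝ) else 0) = if y v = true then 1 else 0
    rw [hxy v (mem_singleton_self v)]
  · intro x y hxy
    show (if x w = true then (1 : ℝ) else 0) = if y w = true then 1 else 0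
    rw [hxy w (mem_singleton_self w)]
  · rw [Finset.disjoint_singleton]
    exact h.symm

end

end DSD
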