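import Pool.Agent.DSD.St
import Pool.Agent.DSD.Ep

/-!
[Dis] the multi-part discrepancy: the induction on the number of parts.
-/

set_option autoImplicit false

namespace DSD

open Finset

section

variable {V : Type} [Fintype V] [DecidableEq V]

private lemma Dis_par {d r : ℕ} {p : ℝ} (h : Par d r p) : p * d ≤ 1 / 16 ∧ p ≤ 1 / 16 ∧
    2 * d * p * (r : ℝ) ≤ 2 / 5 := by
  obtain ⟨h1, h2, h3, h4, h5⟩ := h
  have hd : (1 : ℝ) ≤ d := by exact_mod_cast h1
  have hr : (1 : ℝ) ≤ r := by exact_mod_cast h2
  have h6 : p * d ≤ 1 / 16 := by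
    have : 8 * p * d * 2 ≤ 8 * p * d * ((d : ℝ) ^ 2 + 1) := by
      apply mul_le_mul_of_nonneg_left _ (by positivity)
      nlinarith
    linarith
  refine ⟨h6, ?_, by linarith⟩
  nlinarith

private lemma Dis_adm {d r j : ℕ} {p : ℝ} (h : Par d r p) {π : V → ℝ}
    (ha : Adm p (2 * d * p * ((r : ℝ) - j)) π) (v : V) : 0 ≤ π v ∧ π v ≤ p := by
  have hp := Dis_par h
  obtain ⟨h1, h2, h3, h4, h5⟩ := h
  have hd : (1 : ℝ) ≤ d := by exact_mod_cast h1
  rcases ha v with h0 | ⟨h6, h7⟩
  · rw [h0]
    exact ⟨le_rfl, h3.le⟩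
  · refine ⟨le_trans ?_ h6, h7⟩
    apply mul_nonneg _ h3.le
    have h8 : 2 * d * p * ((r : ℝ) - j) ≤ 2 * d * p * r := by
      apply mul_le_mul_of_nonneg_left _ (by positivity)
      have : (0 : ℝ) ≤ j := Nat.cast_nonneg j
      linarith
    linarith [hp.2.2]

/-- the mean with the two copies factored through the revealed set -/
private lemma Dis_fac (π : V → ℝ) (hπ : ∀ v, 0 ≤ π v ∧ π v ≤ 1) (B : Finset V)
    (D : (V → Bool) → (V → Bool) → ℝ) (Ψ : (V → Bool) → ℝ) (Λ : ℝ)
    (hx : ∀ y, DepOn (fun x => D x y) B) (hy : ∀ x, DepOn (fun y => D x y) B)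
    (hD : ∀ x y, 0 ≤ D x y) (hΛ : ∀ x, |Ep π fun z => Ψ (mix B x z)| ≤ Λ) :
    |Ep π fun x => Ep π fun y => D x y * (Ψ x * Ψ y)| ≤
      Λ ^ 2 * Ep π fun x => Ep π fun y => D x y := by
  set Φ : (V → Bool) → ℝ := fun x => Ep π fun z => Ψ (mix B x z) with hΦ
  have h1 : (Ep π fun x => Ep π fun y => D x y * (Ψ x * Ψ y)) =
      Ep π fun x => Ep π fun y => D x y * (Φ x * Φ y) := by
    calc (Ep π fun x => Ep π fun y => D x y * (Ψ x * Ψ y))
        = Ep π fun x => Ψ x * Ep π fun y => D x y * Ψ y := by
          congr 1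
          funext x
          rw [← Ep_const_mul]
          congr 1
          funext y
          ring
      _ = Ep π fun x => Ψ x * Ep π fun y => D x y * Φ y := by
          congr 1
          funext x
          rw [Ep_pull π (hy x)]
      _ = Ep π fun x => Ep π fun y => Φ y * (D x y * Ψ x) := by
          congr 1
          funext x
          rw [← Ep_const_mul]
          congr 1
          funext y
          ring
      _ = Ep π fun y => Φ y * Ep π fun x => D x y * Ψ x := by
          rw [Ep_swap]
          congr 1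
          funext y
          rw [Ep_const_mul]
      _ = Ep π fun y => Φ y * Ep π fun x => D x y * Φ x := by
          congr 1
          funext y
          rw [Ep_pull π (hx y)]
      _ = Ep π fun y => Ep π fun x => D x y * (Φ x * Φ y) := by
          congr 1
          funext y
          rw [← Ep_const_mul]
          congr 1
          funext x
          ring
      _ = _ := Ep_swap _ _ _
  rw [h1]
  refine (Ep_abs_le hπ _).trans ?_
  rw [← Ep_const_mul]
  apply Ep_mono hπ
  intro x
  refine (Ep_abs_le hπ _).trans ?_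
  rw [← Ep_const_mul]
  apply Ep_mono hπ
  intro y
  rw [abs_mul, abs_of_nonneg (hD x y), abs_mul, mul_comm, sq]
  exact mul_le_mul_of_nonneg_right
    (mul_le_mul (hΛ x) (hΛ y) (abs_nonneg _) ((abs_nonneg _).trans (hΛ x))) (hD x y)

theorem thm_Dis (hK : St_Ker) (hDf : St_Def) (hC : St_CSq) (hP : St_Psi) : St_Dis := by
  intro V _ _ χ N d r p hpar hlow k
  induction k with
  | zero =>
    intro _ π ha f hf
    have hS : ∀ x : V → Bool, Sgn χ N 0 x * ∏ i ∈ range 0, f i x = 1 := by
      intro x
      simp [Sgn]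
    simp only [hS]
    rw [Ep_const]
    have he : ec χ N 0 (act π) = 0 := by simp [ec]
    rw [bd, he]
    simp
  | succ k ih =>
    intro hk π ha f hf
    have ihk := ih (by omega)
    obtain ⟨hpd, hp16, hpr⟩ := Dis_par hpar
    have hpar' := hpar
    obtain ⟨hd1, hr1, hp0, hp8, hp5⟩ := hpar'
    have hd : (1 : ℝ) ≤ d := by exact_mod_cast hd1
    have hπp := Dis_adm hpar ha
    have hπ : ∀ v, 0 ≤ π v ∧ π v ≤ 1 := fun v => ⟨(hπp v).1, (hπp v).2.trans (by linarith)⟩
    set A : Finset V := univ.filter (fun u => χ u = k) with hA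
    set G : (V → Bool) → ℝ := fun x => Sgn χ N k x * ∏ i ∈ range k, f i x with hG
    set α : ℝ := 2 * p ^ 2 * (1 - 5 * d * r * p) with hα
    set n : ℕ := Fintype.card V with hn
    set e : ℕ := ec χ N (k + 1) (act π) with he
    set E0 : ℝ := Real.exp (-α * e + 32 * k * p ^ 3 * d ^ 5 * n) with hE0
    have hα0 : 0 ≤ α := by
      apply mul_nonneg (by positivity)
      linarith
    have hα2 : α ≤ 2 * p ^ 2 := by
      have h1 : 1 - 5 * d * r * p ≤ 1 := by
        have : 0 ≤ 5 * (d : ℝ) * r * p := by positivity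
        linarith
      calc α ≤ 2 * p ^ 2 * 1 := mul_le_mul_of_nonneg_left h1 (by positivity)
        _ = _ := mul_one _
    have hexp2 : Real.exp (α * d ^ 2) ^ 2 ≤ 2 := by
      rw [← Real.exp_nat_mul]
      have h1 : ((2 : ℕ) : ℝ) * (α * d ^ 2) ≤ 1 / 2 := by
        push_cast
        have h2 : α * (d : ℝ) ^ 2 ≤ 2 * p ^ 2 * d ^ 2 :=
          mul_le_mul_of_nonneg_right hα2 (by positivity)
        have h3 : 2 * p ^ 2 * (d : ℝ) ^ 2 = 2 * (p * d) ^ 2 := by ring
        have h4 : (p * d) ^ 2 ≤ (1 / 16) ^ 2 := pow_le_pow_left₀ (by positivity) hpd 2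
        rw [h3] at h2
        linarith
      refine (Real.exp_le_exp.2 h1).trans ?_
      have h5 : Real.exp (1 / 2) ^ 2 = Real.exp 1 := by
        rw [← Real.exp_nat_mul]; norm_num
      have h6 := Real.exp_one_lt_d9
      have h7 : Real.exp (1 / 2) ^ 2 ≤ 2 ^ 2 := by rw [h5]; linarith
      exact le_of_sq_le_sq h7 (by norm_num)
    -- kernel
    set ker : V → (V → Bool) → (V → Bool) → ℝ := fun u x y =>
      if Odd (cnt (N u) x + cnt (N u) y) then 1 - 2 * π u else 1 with hker
    set φ : V → (V → Bool) → ℝ := fun u x => (1 - 2 * π u) ^ cnt (N u) x with hφ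
    set D : V → (V → Bool) → (V → Bool) → ℝ := fun u x y => ker u x y - φ u x * φ u y with hDd
    have hcnt : ∀ u (x : V → Bool), cnt (N u) x ≤ d := by
      intro u x
      have h1 := hlow.2 u
      exact (card_le_card (filter_subset _ _)).trans (by omega)
    have hD0 : ∀ u x y, 0 ≤ D u x y := fun u x y =>
      (hK d (cnt (N u) x) (cnt (N u) y) (π u) (hπ u).1 (by linarith [(hπp u).2])
        (by have := hcnt u x; have := hcnt u y; omega)).1
    have hD1 : ∀ u x y, D u x y ≤
        if 2 ≤ cnt (N u) x + cnt (N u) y then 4 * d * π u else 0 := fun u x y =>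
      (hK d (cnt (N u) x) (cnt (N u) y) (π u) (hπ u).1 (by linarith [(hπp u).2])
        (by have := hcnt u x; have := hcnt u y; omega)).2
    have hD2 : ∀ u x y, 1 + 2 * D u x y ≤
        1 + if 2 ≤ cnt (N u) x + cnt (N u) y then 8 * p * d else 0 := by
      intro u x y
      have h1 := hD1 u x y
      split_ifs at h1 ⊢
      · have h2 : 4 * (d : ℝ) * π u ≤ 4 * d * p :=
          mul_le_mul_of_nonneg_left (hπp u).2 (by positivity)
        linarith
      · linarith
    have hcd : ∀ u, ∀ x y : V → Bool, (∀ v ∈ N u, x v = y v) → cnt (N u) x = cnt (N u) y := by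
      intro u x y hxy
      unfold cnt
      congr 1
      apply Finset.filter_congr
      intro v hv
      rw [hxy v hv]
    -- the sum over S
    have hexpand : ∀ x y : V → Bool, G x * G y * ∏ u ∈ A, ker u x y =
        ∑ S ∈ A.powerset, (∏ u ∈ S, D u x y) *
          ((G x * ∏ u ∈ A \ S, φ u x) * (G y * ∏ u ∈ A \ S, φ u y)) := by
      intro x y
      have h1 : ∀ u ∈ A, ker u x y = D u x y + φ u x * φ u y := fun u _ => by
        rw [hDd]
        ring
      rw [Finset.prod_congr rfl h1, Finset.prod_add, Finset.mul_sum]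
      apply Finset.sum_congr rfl
      intro S _
      rw [Finset.prod_mul_distrib]
      ring
    have hsq := hC V χ N k π f hπ hlow.1 hf
    have hmain : (Ep π fun x => Sgn χ N (k + 1) x * ∏ i ∈ range (k + 1), f i x) ^ 2 ≤
        ∑ S ∈ A.powerset, Ep π fun x => Ep π fun y => (∏ u ∈ S, D u x y) *
          ((G x * ∏ u ∈ A \ S, φ u x) * (G y * ∏ u ∈ A \ S, φ u y)) := by
      refine hsq.trans (le_of_eq ?_)
      have h1 : (fun x => Ep π fun y => G x * G y * ∏ u ∈ A, ker u x y) =
          fun x => ∑ S ∈ A.powerset, Ep π fun y => (∏ u ∈ S, D u x y) *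
            ((G x * ∏ u ∈ A \ S, φ u x) * (G y * ∏ u ∈ A \ S, φ u y)) := by
        funext x
        rw [← Ep_sum]
        congr 1
        funext y
        exact hexpand x y
      calc _ = Ep π (fun x => Ep π fun y => G x * G y * ∏ u ∈ A, ker u x y) := rfl
        _ = _ := by rw [h1, Ep_sum]
    have hterm : ∀ S ∈ A.powerset, (Ep π fun x => Ep π fun y => (∏ u ∈ S, D u x y) *
          ((G x * ∏ u ∈ A \ S, φ u x) * (G y * ∏ u ∈ A \ S, φ u y))) ≤
        E0 ^ 2 * Ep π fun x => Ep π fun y => ∏ u ∈ S, (2 * D u x y) := by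
      intro S hS
      have hSA : S ⊆ A := mem_powerset.1 hS
      have hSk : ∀ u ∈ S, χ u = k := fun u hu => (mem_filter.1 (hSA hu)).2
      have hAS : A \ S = univ.filter (fun u => χ u = k ∧ u ∉ S) := by
        ext u
        simp [hA, mem_sdiff, mem_filter]
      have h1 := Dis_fac π hπ (S.biUnion N) (fun x y => ∏ u ∈ S, D u x y)
        (fun x => G x * ∏ u ∈ A \ S, φ u x)
        (Real.exp (-α * ((e : ℝ) - d ^ 2 * S.card) + 32 * k * p ^ 3 * d ^ 5 * n))
        (fun y x x' hxx => by
          apply Finset.prod_congr rfl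
          intro u hu
          have h2 : cnt (N u) x = cnt (N u) x' :=
            hcd u x x' fun v hv => hxx v (mem_biUnion.2 ⟨u, hu, hv⟩)
          simp only [hDd, hker, hφ, h2])
        (fun x y y' hyy => by
          apply Finset.prod_congr rfl
          intro u hu
          have h2 : cnt (N u) y = cnt (N u) y' :=
            hcd u y y' fun v hv => hyy v (mem_biUnion.2 ⟨u, hu, hv⟩)
          simp only [hDd, hker, hφ, h2])
        (fun x y => Finset.prod_nonneg fun u _ => hD0 u x y)
        (fun x => by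
          have h3 := hP V χ N d r k p hpar hlow (by omega) ihk π ha f hf S hSk x
          rw [← hAS] at h3
          exact h3)
      refine (le_abs_self _).trans (h1.trans ?_)
      have h4 : Real.exp (-α * ((e : ℝ) - d ^ 2 * S.card) + 32 * k * p ^ 3 * d ^ 5 * n) ^ 2 ≤
          E0 ^ 2 * 2 ^ S.card := by
        have h5 : Real.exp (-α * ((e : ℝ) - d ^ 2 * S.card) + 32 * k * p ^ 3 * d ^ 5 * n) =
            E0 * Real.exp (α * d ^ 2) ^ S.card := by
          rw [hE0, ← Real.exp_nat_mul, ← Real.exp_add]
          congr 1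
          ring
        rw [h5, mul_pow]
        apply mul_le_mul_of_nonneg_left _ (by positivity)
        rw [← pow_mul, mul_comm S.card 2, pow_mul]
        exact pow_le_pow_left₀ (by positivity) hexp2 _
      have h6 : (Ep π fun x => Ep π fun y => ∏ u ∈ S, (2 * D u x y)) =
          2 ^ S.card * Ep π fun x => Ep π fun y => ∏ u ∈ S, D u x y := by
        rw [← Ep_const_mul]
        congr 1
        funext x
        rw [← Ep_const_mul]
        congr 1
        funext y
        rw [Finset.prod_mul_distrib, Finset.prod_const]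
      rw [h6, ← mul_assoc]
      apply mul_le_mul_of_nonneg_right h4
      exact Ep_nonneg hπ fun x => Ep_nonneg hπ fun y => Finset.prod_nonneg fun u _ => hD0 u x y
    have hsum : (∑ S ∈ A.powerset, E0 ^ 2 * Ep π fun x => Ep π fun y => ∏ u ∈ S, (2 * D u x y)) =
        E0 ^ 2 * Ep π fun x => Ep π fun y => ∏ u ∈ A, (1 + 2 * D u x y) := by
      rw [← Finset.mul_sum]
      congr 1
      rw [← Ep_sum]
      congr 1
      funext x
      rw [← Ep_sum]
      congr 1
      funext y
      rw [Finset.prod_congr rfl fun u _ => add_comm 1 (2 * D u x y), Finset.prod_add]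
      apply Finset.sum_congr rfl
      intro S _
      rw [Finset.prod_const_one, mul_one]
    have hdef : (Ep π fun x => Ep π fun y => ∏ u ∈ A, (1 + 2 * D u x y)) ≤
        Real.exp (64 * p ^ 3 * d ^ 5 * n) := by
      have h1 := hDf V d p π A N hd1 hp0.le hp8 hπp (fun u _ => by have := hlow.2 u; omega)
        (fun v => (card_le_card (filter_subset_filter _ (subset_univ _))).trans
          (by have := hlow.2 v; omega))
      refine le_trans ?_ (h1.trans ?_)
      · apply Ep_mono hπ
        intro x
        apply Ep_mono hπ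
        intro y
        apply Finset.prod_le_prod
        · intro u _
          have := hD0 u x y
          linarith
        · intro u _
          exact hD2 u x y
      · apply Real.exp_le_exp.2
        apply mul_le_mul_of_nonneg_left _ (by positivity)
        exact_mod_cast card_le_univ A
    have hT : (Ep π fun x => Sgn χ N (k + 1) x * ∏ i ∈ range (k + 1), f i x) ^ 2 ≤
        (E0 * Real.exp (32 * p ^ 3 * d ^ 5 * n)) ^ 2 := by
      refine hmain.trans ((Finset.sum_le_sum hterm).trans ?_)
      rw [hsum, mul_pow]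
      apply mul_le_mul_of_nonneg_left _ (by positivity)
      refine hdef.trans (le_of_eq ?_)
      rw [← Real.exp_nat_mul]
      congr 1
      push_cast
      ring
    have hfin := abs_le_of_sq_le_sq hT (by positivity)
    refine hfin.trans (le_of_eq ?_)
    rw [bd, hE0, ← Real.exp_add]
    congr 1
    push_cast
    ring

end

end DSD
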