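import Pool.Agent.DSD.St

/-!
# DSD, module Exs: the mean over random subsets with probabilities `p` or `1`
-/

set_option autoImplicit false

namespace DSD

open Finset

theorem thm_Exs : St_Exs := by
  intro V W _ _ _ ι D t p F hι hD htp ht1
  unfold Mean Ep
  symm
  have hfix : ∀ x : V → Bool, ∀ v, ι v ∈ D \ (univ.filter fun v => x v = false).image ι ↔
      x v = true := by
    intro x v
    rw [mem_sdiff, mem_image]
    constructor
    · rintro ⟨_, h⟩
      by_contra hx
      exact h ⟨v, mem_filter.2 ⟨mem_univ v, by simpa using hx⟩, rfl⟩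
    · intro hx
      refine ⟨hD v, ?_⟩
      rintro ⟨v', hv', he⟩
      have h1 : v' = v := hι he
      rw [h1] at hv'
      have h2 := (mem_filter.1 hv').2
      rw [hx] at h2
      exact Bool.noConfusion h2
  refine Finset.sum_of_injOn (fun x : V → Bool => D \ (univ.filter fun v => x v = false).image ι)
    ?_ ?_ ?_ ?_
  · intro x _ y _ hxy
    funext v
    have h1 := hfix x v
    have h2 := hfix y v
    have h3 : D \ (univ.filter fun v => x v = false).image ι =
        D \ (univ.filter fun v => y v = false).image ι := hxy
    rw [h3] at h1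
    have h4 : x v = true ↔ y v = true := h1.symm.trans h2
    cases hx : x v
    · cases hy : y v
      · rfl
      · rw [hx, hy] at h4
        exact absurd (h4.2 rfl) Bool.false_ne_true
    · cases hy : y v
      · rw [hx, hy] at h4
        exact absurd (h4.1 rfl) Bool.false_ne_true
      · rfl
  · intro x _
    rw [Finset.mem_coe, mem_powerset]
    exact sdiff_subset
  · intro Y hY hne
    rw [mem_powerset] at hY
    by_cases hsub : ∀ w ∈ D, (∀ v, ι v ≠ w) → w ∈ Y
    · exfalso
      apply hne
      refine ⟨fun v => decide (ι v ∈ Y), mem_coe.2 (mem_univ _), ?_⟩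
      ext w
      rw [mem_sdiff, mem_image]
      constructor
      · rintro ⟨hwD, h⟩
        by_cases hr : ∃ v, ι v = w
        · obtain ⟨v, rfl⟩ := hr
          by_contra hw
          exact h ⟨v, mem_filter.2 ⟨mem_univ v, by simpa using hw⟩, rfl⟩
        · push Not at hr
          exact hsub w hwD hr
      · intro hw
        refine ⟨hY hw, ?_⟩
        rintro ⟨v, hv, rfl⟩
        have h2 := (mem_filter.1 hv).2
        rw [decide_eq_false_iff_not] at h2
        exact h2 hw
    · push Not at hsub
      obtain ⟨w, hwD, hr, hwY⟩ := hsub
      have h1 : ∏ f ∈ D \ Y, (1 - t f) = 0 := by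
        refine Finset.prod_eq_zero (mem_sdiff.2 ⟨hwD, hwY⟩) ?_
        rw [ht1 w hwD hr, sub_self]
      rw [h1, mul_zero, zero_mul]
  · intro x _
    have e1 : D \ (D \ (univ.filter fun v => x v = false).image ι) =
        (univ.filter fun v => x v = false).image ι := by
      rw [Finset.sdiff_sdiff_eq_self]
      intro w hw
      obtain ⟨v, _, rfl⟩ := mem_image.1 hw
      exact hD v
    have e2 : ∏ f ∈ D \ (D \ (univ.filter fun v => x v = false).image ι), (1 - t f) =
        ∏ v ∈ univ.filter (fun v => x v = false), (1 - p) := by
      rw [e1, Finset.prod_image fun a _ b _ h => hι h]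
      exact Finset.prod_congr rfl fun v _ => by rw [htp]
    have e3 : ∏ f ∈ D \ (univ.filter fun v => x v = false).image ι, t f =
        ∏ v ∈ univ.filter (fun v => x v = true), p := by
      have e4 : ∏ v ∈ univ.filter (fun v => x v = true), p =
          ∏ f ∈ (univ.filter fun v => x v = true).image ι, t f := by
        rw [Finset.prod_image fun a _ b _ h => hι h]
        exact Finset.prod_congr rfl fun v _ => by rw [htp]
      rw [e4]
      symm
      refine Finset.prod_subset ?_ ?_
      · intro w hw
        obtain ⟨v, hv, rfl⟩ := mem_image.1 hw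
        exact (hfix x v).2 (mem_filter.1 hv).2
      · intro w hw hw'
        refine ht1 w (mem_sdiff.1 hw).1 ?_
        rintro v rfl
        exact hw' (mem_image.2 ⟨v, mem_filter.2 ⟨mem_univ v, (hfix x v).1 hw⟩, rfl⟩)
    have e5 : ∏ v, (if x v = true then p else 1 - p) =
        (∏ v ∈ univ.filter (fun v => x v = true), p) *
          ∏ v ∈ univ.filter (fun v => x v = false), (1 - p) := by
      rw [Finset.prod_ite]
      congr 2
      refine Finset.filter_congr fun v _ => ?_
      simp
    rw [e2, e3]
    exact congrArg (· * F _) e5

end DSD
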