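import Pool.Agent.DSD.St

/-!
[Gra] Regular bipartite graphs where small sets span few edges (random lifts, union bound).
-/

set_option autoImplicit false

namespace DSD

open Finset

/-- the permutations which map `A` into `Y` -/
private def Gra_C {n : ℕ} (A Y : Finset (Fin n)) : Finset (Equiv.Perm (Fin n)) :=
  univ.filter fun σ => ∀ a ∈ A, σ a ∈ Y

private lemma Gra_mem {n : ℕ} {A Y : Finset (Fin n)} {σ : Equiv.Perm (Fin n)} :
    σ ∈ Gra_C A Y ↔ ∀ a ∈ A, σ a ∈ Y := by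
  simp [Gra_C]

private lemma Gra_fib {n : ℕ} (A Y : Finset (Fin n)) (a : Fin n) (ha : a ∉ A) {b b' : Fin n}
    (_hb : b ∈ Y) (hb' : b' ∉ Y) :
    ((Gra_C A Y).filter fun σ => σ a = b).card ≤ ((Gra_C A Y).filter fun σ => σ a = b').card := by
  apply Finset.card_le_card_of_injOn (fun σ => Equiv.swap b b' * σ)
  · intro σ hσ
    rw [mem_coe, mem_filter, Gra_mem] at hσ ⊢
    refine ⟨?_, ?_⟩
    · intro c hc
      have h1 : σ c ∈ Y := hσ.1 c hc
      have h2 : σ c ≠ b := by
        rw [← hσ.2]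
        intro h
        exact ha (σ.injective h ▸ hc)
      have h3 : σ c ≠ b' := fun h => hb' (h ▸ h1)
      rw [Equiv.Perm.mul_apply, Equiv.swap_apply_of_ne_of_ne h2 h3]
      exact h1
    · rw [Equiv.Perm.mul_apply, hσ.2, Equiv.swap_apply_left]
  · intro σ _ σ' _ h
    exact mul_left_cancel h

private lemma Gra_step {n : ℕ} (A Y : Finset (Fin n)) (a : Fin n) (ha : a ∉ A) :
    (Gra_C (insert a A) Y).card * n ≤ (Gra_C A Y).card * Y.card := by
  set s : Fin n → ℕ := fun b => ((Gra_C A Y).filter fun σ => σ a = b).card with hs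
  have h1 : (Gra_C A Y).card = ∑ b, s b :=
    Finset.card_eq_sum_card_fiberwise (fun σ _ => mem_coe.2 (mem_univ _))
  have h2 : (Gra_C (insert a A) Y).card = ∑ b ∈ Y, s b := by
    have e : Gra_C (insert a A) Y = (Gra_C A Y).filter fun σ => σ a ∈ Y := by
      ext σ
      rw [mem_filter, Gra_mem, Gra_mem]
      constructor
      · intro h
        exact ⟨fun c hc => h c (mem_insert_of_mem hc), h a (mem_insert_self _ _)⟩
      · rintro ⟨h, h'⟩ c hc
        rcases mem_insert.1 hc with rfl | hc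
        · exact h'
        · exact h c hc
    rw [e, Finset.card_eq_sum_card_fiberwise (f := fun σ : Equiv.Perm (Fin n) => σ a) (t := Y)
      (fun σ hσ => mem_coe.2 (mem_filter.1 (mem_coe.1 hσ)).2)]
    apply Finset.sum_congr rfl
    intro b hb
    rw [hs, filter_filter]
    congr 1
    ext σ
    rw [mem_filter, mem_filter]
    constructor
    · rintro ⟨h, _, h'⟩
      exact ⟨h, h'⟩
    · rintro ⟨h, h'⟩
      have h'' : σ a = b := h'
      have h3 : σ a ∈ Y := by rw [h'']; exact hb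
      exact ⟨h, h3, h'⟩
  have h3 : ∑ b, s b = ∑ b ∈ Y, s b + ∑ b ∈ Yᶜ, s b := (Finset.sum_add_sum_compl Y s).symm
  have h4 : Yᶜ.card * ∑ b ∈ Y, s b ≤ Y.card * ∑ b ∈ Yᶜ, s b := by
    have h5 : ∑ b ∈ Y, ∑ _b' ∈ Yᶜ, s b ≤ ∑ _b ∈ Y, ∑ b' ∈ Yᶜ, s b' :=
      Finset.sum_le_sum fun b hb => Finset.sum_le_sum fun b' hb' =>
        Gra_fib A Y a ha hb (mem_compl.1 hb')
    rw [Finset.sum_comm] at h5
    rw [Finset.sum_const, Finset.sum_const, smul_eq_mul, smul_eq_mul] at h5
    exact h5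
  have h6 : Y.card + Yᶜ.card = n := by
    rw [Finset.card_add_card_compl, Fintype.card_fin]
  rw [h1, h2, h3]
  calc (∑ b ∈ Y, s b) * n = (∑ b ∈ Y, s b) * (Y.card + Yᶜ.card) := by rw [h6]
    _ = (∑ b ∈ Y, s b) * Y.card + Yᶜ.card * ∑ b ∈ Y, s b := by ring
    _ ≤ (∑ b ∈ Y, s b) * Y.card + Y.card * ∑ b ∈ Yᶜ, s b := Nat.add_le_add_left h4 _
    _ = _ := by ring

private lemma Gra_count {n : ℕ} (A Y : Finset (Fin n)) :
    (Gra_C A Y).card * n ^ A.card ≤ n.factorial * Y.card ^ A.card := by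
  induction A using Finset.induction_on with
  | empty =>
    rw [card_empty, pow_zero, pow_zero, mul_one, mul_one]
    calc (Gra_C ∅ Y).card ≤ (univ : Finset (Equiv.Perm (Fin n))).card :=
          Finset.card_le_card (filter_subset _ _)
      _ = n.factorial := by rw [card_univ, Fintype.card_perm, Fintype.card_fin]
  | insert a A ha ih =>
    rw [card_insert_of_notMem ha]
    calc (Gra_C (insert a A) Y).card * n ^ (A.card + 1)
        = ((Gra_C (insert a A) Y).card * n) * n ^ A.card := by ring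
      _ ≤ ((Gra_C A Y).card * Y.card) * n ^ A.card := Nat.mul_le_mul_right _ (Gra_step A Y a ha)
      _ = ((Gra_C A Y).card * n ^ A.card) * Y.card := by ring
      _ ≤ (n.factorial * Y.card ^ A.card) * Y.card := Nat.mul_le_mul_right _ ih
      _ = _ := by ring

/-- the triples `((i, j), a)` -/
private abbrev Gra_T (m n : ℕ) : Type := (Fin m × Fin m) × Fin n

/-- the vertices -/
private abbrev Gra_V (m n : ℕ) : Type := (Fin m × Fin n) ⊕ (Fin m × Fin n)

/-- the choices of the permutations -/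
private abbrev Gra_O (m n : ℕ) : Type := Fin m × Fin m → Equiv.Perm (Fin n)

/-- the number of the choices -/
private def Gra_N (m n : ℕ) : ℕ := Fintype.card (Gra_O m n)

private lemma Gra_N_eq (m n : ℕ) : Gra_N m n = ∏ _q : Fin m × Fin m, n.factorial := by
  rw [Gra_N, Fintype.card_fun, Fintype.card_perm, Fintype.card_fin, Finset.prod_const, card_univ]

private lemma Gra_N_pos (m n : ℕ) : 0 < Gra_N m n := by
  rw [Gra_N_eq]
  exact Finset.prod_pos fun _ _ => n.factorial_pos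

/-- all edges of `P` have their right end in `X` -/
private def Gra_ev {m n : ℕ} (P : Finset (Gra_T m n)) (X : Finset (Gra_V m n)) : Finset (Gra_O m n) :=
  univ.filter fun τ => ∀ e ∈ P, (Sum.inr (e.1.2, τ e.1 e.2) : Gra_V m n) ∈ X

private lemma Gra_ev_card {m n : ℕ} (P : Finset (Gra_T m n)) (X : Finset (Gra_V m n)) :
    (Gra_ev P X).card * n ^ P.card ≤ Gra_N m n * X.card ^ P.card := by
  let A : Fin m × Fin m → Finset (Fin n) := fun q => univ.filter fun a => (q, a) ∈ P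
  let Y : Fin m × Fin m → Finset (Fin n) := fun q =>
    univ.filter fun b => (Sum.inr (q.2, b) : Gra_V m n) ∈ X
  have hY : ∀ q, (Y q).card ≤ X.card := by
    intro q
    apply Finset.card_le_card_of_injOn (fun b => (Sum.inr (q.2, b) : Gra_V m n))
    · intro b hb
      exact (mem_filter.1 (mem_coe.1 hb)).2
    · intro b _ b' _ h
      simpa using h
  have hA : P.card = ∑ q, (A q).card := by
    rw [Finset.card_eq_sum_card_fiberwise (f := fun e : Gra_T m n => e.1) (t := univ)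
      (fun e _ => mem_coe.2 (mem_univ _))]
    apply Finset.sum_congr rfl
    intro q _
    apply Finset.card_bij (fun e _ => e.2)
    · rintro ⟨q', a⟩ he
      obtain ⟨he', h'⟩ := mem_filter.1 he
      have h'' : q' = q := h'
      rw [h''] at he'
      exact mem_filter.2 ⟨mem_univ _, he'⟩
    · rintro ⟨q', a⟩ he ⟨q'', a'⟩ he' h
      obtain ⟨_, h1⟩ := mem_filter.1 he
      obtain ⟨_, h2⟩ := mem_filter.1 he'
      have h3 : q' = q := h1
      have h4 : q'' = q := h2
      have h5 : a = a' := h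
      rw [h3, h4, h5]
    · intro a ha
      exact ⟨(q, a), mem_filter.2 ⟨(mem_filter.1 ha).2, rfl⟩, rfl⟩
  have h1 : Gra_ev P X = Fintype.piFinset fun q => Gra_C (A q) (Y q) := by
    ext τ
    rw [Fintype.mem_piFinset, Gra_ev, mem_filter]
    constructor
    · rintro ⟨_, h⟩ q
      rw [Gra_mem]
      intro a ha
      exact mem_filter.2 ⟨mem_univ _, h (q, a) (mem_filter.1 ha).2⟩
    · intro h
      refine ⟨mem_univ _, ?_⟩
      rintro ⟨q, a⟩ he
      have := Gra_mem.1 (h q) a (mem_filter.2 ⟨mem_univ _, he⟩)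
      exact (mem_filter.1 this).2
  rw [h1, Fintype.card_piFinset, hA, ← Finset.prod_pow_eq_pow_sum, ← Finset.prod_mul_distrib,
    ← Finset.prod_pow_eq_pow_sum]
  rw [Gra_N_eq, ← Finset.prod_mul_distrib]
  apply Finset.prod_le_prod'
  intro q _
  refine (Gra_count (A q) (Y q)).trans ?_
  exact Nat.mul_le_mul_left _ (Nat.pow_le_pow_left (hY q) _)

/-- the triples with left end in `X` -/
private def Gra_cand {m n : ℕ} (X : Finset (Gra_V m n)) : Finset (Gra_T m n) :=
  univ.filter fun e => (Sum.inl (e.1.1, e.2) : Gra_V m n) ∈ X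

private lemma Gra_mem_cand {m n : ℕ} {X : Finset (Gra_V m n)} {e : Gra_T m n} :
    e ∈ Gra_cand X ↔ (Sum.inl (e.1.1, e.2) : Gra_V m n) ∈ X := by
  unfold Gra_cand
  rw [mem_filter]
  exact and_iff_right (mem_univ _)

private lemma Gra_cand_card {m n : ℕ} (X : Finset (Gra_V m n)) : (Gra_cand X).card ≤ m * X.card := by
  have h : (Gra_cand X).card ≤ ((univ : Finset (Fin m)) ×ˢ X).card := by
    apply Finset.card_le_card_of_injOn
      (fun e : Gra_T m n => ((e.1.2, Sum.inl (e.1.1, e.2)) : Fin m × Gra_V m n))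
    · intro e he
      have h1 := Gra_mem_cand.1 (mem_coe.1 he)
      rw [mem_coe, mem_product]
      exact ⟨mem_univ _, h1⟩
    · intro e _ e' _ h
      have h1 : e.1.2 = e'.1.2 := congrArg Prod.fst h
      have h2 : (Sum.inl (e.1.1, e.2) : Gra_V m n) = Sum.inl (e'.1.1, e'.2) := congrArg Prod.snd h
      obtain ⟨h4, h5⟩ := Prod.mk.inj (Sum.inl.inj h2)
      exact Prod.ext (Prod.ext h4 h1) h5
  rwa [card_product, card_univ, Fintype.card_fin] at h

/-- the number of sets with `t` elements -/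
private lemma Gra_choose (n t : ℕ) (ht : 1 ≤ t) :
    ((32 * n).choose t : ℝ) ≤ (96 * n / t) ^ t := by
  have ht0 : (0 : ℝ) < t := by exact_mod_cast ht
  have h1 : ((32 * n).choose t : ℝ) ≤ ((32 * n : ℕ) : ℝ) ^ t / t.factorial :=
    Nat.choose_le_pow_div t (32 * n)
  have h2 : (t : ℝ) ^ t / t.factorial ≤ Real.exp t :=
    Real.pow_div_factorial_le_exp (x := (t : ℝ)) ht0.le t
  have h3 : Real.exp t ≤ 3 ^ t := by
    have : Real.exp t = Real.exp 1 ^ t := by rw [← Real.exp_nat_mul, mul_one]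
    rw [this]
    have h4 : Real.exp 1 ≤ 3 := by have := Real.exp_one_lt_d9; linarith
    exact pow_le_pow_left₀ (Real.exp_pos _).le h4 t
  have h5 : ((32 * n : ℕ) : ℝ) ^ t / t.factorial = (32 * n / t) ^ t * ((t : ℝ) ^ t / t.factorial) := by
    push_cast
    rw [div_pow]
    field_simp
  calc ((32 * n).choose t : ℝ) ≤ (32 * n / t) ^ t * ((t : ℝ) ^ t / t.factorial) := h5 ▸ h1
    _ ≤ (32 * n / t) ^ t * 3 ^ t := by
        apply mul_le_mul_of_nonneg_left (h2.trans h3); positivity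
    _ = _ := by rw [← mul_pow]; congr 1; ring

private lemma Gra_geo (T : ℕ) : ∑ t ∈ Icc 1 T, (1 / 2 : ℝ) ^ t < 1 := by
  have h : ∀ T : ℕ, ∑ t ∈ Icc 1 T, (1 / 2 : ℝ) ^ t = 1 - (1 / 2) ^ T := by
    intro T
    induction T with
    | zero => simp
    | succ T ih =>
      rw [Finset.sum_Icc_succ_top (by omega), ih]
      ring
  rw [h]
  have : (0 : ℝ) < (1 / 2) ^ T := by positivity
  linarith

/-- the bad choices for sets with `t` elements -/
private def Gra_bad (m n t : ℕ) : Finset (Gra_O m n) :=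
  (powersetCard t (univ : Finset (Gra_V m n))).biUnion fun X =>
    (powersetCard (2 * t) (Gra_cand X)).biUnion fun P => Gra_ev P X

private lemma Gra_bad_card (m n t : ℕ) (hm : m = 16) (hn : 1 ≤ n) (ht : 1 ≤ t) (h : (t : ℝ) ≤ 2⁻¹ ^ 25 * n) :
    ((Gra_bad m n t).card : ℝ) ≤ (Gra_N m n : ℝ) * (1 / 2) ^ t := by
  have hn0 : (0 : ℝ) < n := by exact_mod_cast hn
  have ht0 : (0 : ℝ) < t := by exact_mod_cast ht
  set K : ℝ := (Gra_N m n : ℝ) with hK
  have hK0 : 0 < K := by rw [hK]; exact_mod_cast Gra_N_pos m n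
  have h1 : ∀ X ∈ powersetCard t (univ : Finset (Gra_V m n)),
      ∀ P ∈ powersetCard (2 * t) (Gra_cand X),
      ((Gra_ev P X).card : ℝ) ≤ K * (t / n) ^ (2 * t) := by
    intro X hX P hP
    rw [mem_powersetCard] at hX hP
    have h2 := Gra_ev_card P X
    rw [hX.2, hP.2] at h2
    have h3 : ((Gra_ev P X).card : ℝ) * (n : ℝ) ^ (2 * t) ≤ K * (t : ℝ) ^ (2 * t) := by
      rw [hK]; exact_mod_cast h2
    rw [div_pow, ← mul_div_assoc, le_div_iff₀ (by positivity)]
    exact h3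
  have h2 : ∀ X ∈ powersetCard t (univ : Finset (Gra_V m n)),
      ((((powersetCard (2 * t) (Gra_cand X)).biUnion fun P => Gra_ev P X)).card : ℝ) ≤
        2 ^ (16 * t) * (K * (t / n) ^ (2 * t)) := by
    intro X hX
    have h3 : (((powersetCard (2 * t) (Gra_cand X)).biUnion fun P => Gra_ev P X).card : ℝ) ≤
        ∑ P ∈ powersetCard (2 * t) (Gra_cand X), ((Gra_ev P X).card : ℝ) := by
      exact_mod_cast card_biUnion_le
    refine h3.trans ((Finset.sum_le_sum (h1 X hX)).trans ?_)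
    rw [Finset.sum_const, nsmul_eq_mul]
    apply mul_le_mul_of_nonneg_right _ (by positivity)
    have h4 : (powersetCard (2 * t) (Gra_cand X)).card ≤ 2 ^ (16 * t) := by
      calc (powersetCard (2 * t) (Gra_cand X)).card = (Gra_cand X).card.choose (2 * t) :=
            card_powersetCard _ _
        _ ≤ 2 ^ (Gra_cand X).card := Nat.choose_le_two_pow _ _
        _ ≤ 2 ^ (16 * t) := by
            apply Nat.pow_le_pow_right (by norm_num)
            have h5 := Gra_cand_card X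
            have h6 : X.card = t := (mem_powersetCard.1 hX).2
            have h7 : m * X.card = 16 * t := by rw [h6, hm]
            exact h5.trans h7.le
    exact_mod_cast h4
  have h3 : ((Gra_bad m n t).card : ℝ) ≤
      ((32 * n).choose t : ℝ) * (2 ^ (16 * t) * (K * (t / n) ^ (2 * t))) := by
    have h4 : ((Gra_bad m n t).card : ℝ) ≤ ∑ X ∈ powersetCard t (univ : Finset (Gra_V m n)),
        ((((powersetCard (2 * t) (Gra_cand X)).biUnion fun P => Gra_ev P X)).card : ℝ) := by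
      unfold Gra_bad
      exact_mod_cast card_biUnion_le
    refine h4.trans ((Finset.sum_le_sum h2).trans (le_of_eq ?_))
    rw [Finset.sum_const, nsmul_eq_mul, card_powersetCard, card_univ]
    congr 3
    simp only [Fintype.card_sum, Fintype.card_prod, Fintype.card_fin]
    rw [hm]
    omega
  refine h3.trans ?_
  have h5 : ((32 * n).choose t : ℝ) * (2 ^ (16 * t) * (K * (t / n) ^ (2 * t))) ≤
      (96 * n / t) ^ t * (2 ^ (16 * t) * (K * (t / n) ^ (2 * t))) := by
    apply mul_le_mul_of_nonneg_right (Gra_choose n t ht); positivity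
  refine h5.trans ?_
  have h6 : (96 * n / t : ℝ) ^ t * (2 ^ (16 * t) * (K * (t / n) ^ (2 * t))) =
      K * (96 * 2 ^ 16 * (t / n)) ^ t := by
    rw [pow_mul, pow_mul]
    have e : (96 * 2 ^ 16 * (t / n) : ℝ) = (96 * n / t) * (2 ^ 16 * (t / n) ^ 2) := by
      field_simp
    rw [e, mul_pow, mul_pow]
    ring
  rw [h6]
  apply mul_le_mul_of_nonneg_left _ hK0.le
  apply pow_le_pow_left₀ (by positivity)
  have h7 : (t / n : ℝ) ≤ 2⁻¹ ^ 25 := by
    rw [div_le_iff₀ hn0]; exact h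
  calc (96 * 2 ^ 16 * (t / n) : ℝ) ≤ 96 * 2 ^ 16 * 2⁻¹ ^ 25 := by
        apply mul_le_mul_of_nonneg_left h7; norm_num
    _ ≤ 1 / 2 := by norm_num

/-- the edges of the lift -/
private def Gra_E {m n : ℕ} (τ : Gra_O m n) : Finset ((Fin m × Fin n) × (Fin m × Fin n)) :=
  univ.filter fun e => τ (e.1.1, e.2.1) e.1.2 = e.2.2

private lemma Gra_mem_E {m n : ℕ} {τ : Gra_O m n} {e : (Fin m × Fin n) × (Fin m × Fin n)} :
    e ∈ Gra_E τ ↔ τ (e.1.1, e.2.1) e.1.2 = e.2.2 := by
  unfold Gra_E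
  rw [mem_filter]
  exact and_iff_right (mem_univ _)

private lemma Gra_left {m n : ℕ} (τ : Gra_O m n) (a : Fin m × Fin n) :
    ((Gra_E τ).filter fun e => e.1 = a).card = m := by
  have h : (Gra_E τ).filter (fun e => e.1 = a) =
      (univ : Finset (Fin m)).image fun j => (a, (j, τ (a.1, j) a.2)) := by
    ext ⟨⟨i, x⟩, ⟨j, y⟩⟩
    rw [mem_filter, Gra_E, mem_filter, mem_image]
    constructor
    · rintro ⟨⟨_, h⟩, rfl⟩
      have h' : τ (i, j) x = y := h
      exact ⟨j, mem_univ _, by rw [← h']⟩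
    · rintro ⟨j', _, h⟩
      simp only [Prod.mk.injEq] at h
      obtain ⟨h1, rfl, h2⟩ := h
      refine ⟨⟨mem_univ _, ?_⟩, h1.symm⟩
      rw [← h2, h1]
  rw [h, card_image_of_injective, card_univ, Fintype.card_fin]
  intro j j' h
  simp only [Prod.mk.injEq] at h
  exact h.2.1

private lemma Gra_right {m n : ℕ} (τ : Gra_O m n) (b : Fin m × Fin n) :
    ((Gra_E τ).filter fun e => e.2 = b).card = m := by
  have h : (Gra_E τ).filter (fun e => e.2 = b) =
      (univ : Finset (Fin m)).image fun i => ((i, (τ (i, b.1)).symm b.2), b) := by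
    ext ⟨⟨i, x⟩, ⟨j, y⟩⟩
    rw [mem_filter, Gra_E, mem_filter, mem_image]
    constructor
    · rintro ⟨⟨_, h⟩, rfl⟩
      refine ⟨i, mem_univ _, ?_⟩
      simp only at h ⊢
      rw [← h, Equiv.symm_apply_apply]
    · rintro ⟨i', _, h⟩
      simp only [Prod.mk.injEq] at h
      obtain ⟨⟨rfl, h1⟩, h2⟩ := h
      refine ⟨⟨mem_univ _, ?_⟩, h2.symm⟩
      simp only
      rw [← h1, h2]
      simp
  rw [h, card_image_of_injective, card_univ, Fintype.card_fin]
  intro i i' h
  simp only [Prod.mk.injEq] at h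
  exact h.1.1

private lemma Gra_total {m n : ℕ} (τ : Gra_O m n) : (Gra_E τ).card = m * m * n := by
  rw [Finset.card_eq_sum_card_fiberwise (f := fun e : (Fin m × Fin n) × (Fin m × Fin n) => e.1)
    (t := univ) (fun e _ => mem_coe.2 (mem_univ _)),
    Finset.sum_congr rfl (fun a _ => Gra_left τ a), Finset.sum_const, card_univ,
    Fintype.card_prod, Fintype.card_fin, Fintype.card_fin, smul_eq_mul]
  ring

private lemma Gra_span {m n : ℕ} (τ : Gra_O m n) (X : Finset (Gra_V m n))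
    (h : 2 * X.card < ((Gra_E τ).filter fun e => Sum.inl e.1 ∈ X ∧ Sum.inr e.2 ∈ X).card) :
    1 ≤ X.card ∧ τ ∈ Gra_bad m n X.card := by
  constructor
  · rw [Nat.one_le_iff_ne_zero]
    intro h0
    rw [card_eq_zero] at h0
    subst h0
    simp at h
  · have h1 : ((Gra_E τ).filter fun e => Sum.inl e.1 ∈ X ∧ Sum.inr e.2 ∈ X).card ≤
        ((Gra_cand X).filter fun e => (Sum.inr (e.1.2, τ e.1 e.2) : Gra_V m n) ∈ X).card := by
      apply Finset.card_le_card_of_injOn
        (fun e : (Fin m × Fin n) × (Fin m × Fin n) => (((e.1.1, e.2.1), e.1.2) : Gra_T m n))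
      · intro e he
        obtain ⟨h1, h2, h3⟩ := mem_filter.1 (mem_coe.1 he)
        have h4 := Gra_mem_E.1 h1
        rw [mem_coe, mem_filter, Gra_mem_cand]
        refine ⟨h2, ?_⟩
        have h5 : ((e.2.1, τ (e.1.1, e.2.1) e.1.2) : Fin m × Fin n) = e.2 := Prod.ext rfl h4
        exact h5 ▸ h3
      · intro e he e' he' h
        have h1 := Gra_mem_E.1 (mem_filter.1 (mem_coe.1 he)).1
        have h2 := Gra_mem_E.1 (mem_filter.1 (mem_coe.1 he')).1
        obtain ⟨h3, h4⟩ := Prod.mk.inj h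
        obtain ⟨h5, h6⟩ := Prod.mk.inj h3
        rw [h5, h6, h4, h2] at h1
        exact Prod.ext (Prod.ext h5 h4) (Prod.ext h6 h1.symm)
    obtain ⟨P, hP, hPc⟩ := Finset.exists_subset_card_eq (h.le.trans h1)
    unfold Gra_bad
    rw [mem_biUnion]
    refine ⟨X, mem_powersetCard.2 ⟨subset_univ _, rfl⟩, ?_⟩
    rw [mem_biUnion]
    refine ⟨P, mem_powersetCard.2 ⟨hP.trans (filter_subset _ _), hPc⟩, ?_⟩
    rw [Gra_ev, mem_filter]
    exact ⟨mem_univ _, fun e he => (mem_filter.1 (hP he)).2⟩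

private lemma Gra_exists (m n : ℕ) (hm : m = 16) (hn : 1 ≤ n) : ∃ τ : Gra_O m n, ∀ t : ℕ, 1 ≤ t →
    (t : ℝ) ≤ 2⁻¹ ^ 25 * n → τ ∉ Gra_bad m n t := by
  by_contra hcon
  push Not at hcon
  set T := ⌊(2⁻¹ ^ 25 * n : ℝ)⌋₊ with hT
  have h1 : (univ : Finset (Gra_O m n)) ⊆ (Icc 1 T).biUnion fun t => Gra_bad m n t := by
    intro τ _
    obtain ⟨t, ht, h2, h3⟩ := hcon τ
    exact mem_biUnion.2 ⟨t, mem_Icc.2 ⟨ht, Nat.le_floor h2⟩, h3⟩
  have h2 : (Gra_N m n : ℝ) ≤ ∑ t ∈ Icc 1 T, ((Gra_bad m n t).card : ℝ) := by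
    have h3 : Gra_N m n ≤ ∑ t ∈ Icc 1 T, (Gra_bad m n t).card :=
      (Finset.card_le_card h1).trans card_biUnion_le
    exact_mod_cast h3
  have h3 : ∑ t ∈ Icc 1 T, ((Gra_bad m n t).card : ℝ) ≤
      ∑ t ∈ Icc 1 T, (Gra_N m n : ℝ) * (1 / 2) ^ t := by
    apply Finset.sum_le_sum
    intro t ht
    obtain ⟨ht1, ht2⟩ := mem_Icc.1 ht
    apply Gra_bad_card m n t hm hn ht1
    exact (Nat.le_floor_iff (by positivity)).1 ht2
  rw [← Finset.mul_sum] at h3
  have h4 := Gra_geo T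
  have h5 : (0 : ℝ) < (Gra_N m n : ℝ) := by exact_mod_cast Gra_N_pos m n
  have h6 := mul_lt_mul_of_pos_left h4 h5
  linarith

private lemma Gra_main (m n : ℕ) (hm : m = 16) (hn : 1 ≤ n) :
    ∃ E : Finset ((Fin m × Fin n) × (Fin m × Fin n)), E.card = m * m * n ∧
      (∀ a, (E.filter fun e => e.1 = a).card = m) ∧ (∀ b, (E.filter fun e => e.2 = b).card = m) ∧
      ∀ X : Finset ((Fin m × Fin n) ⊕ (Fin m × Fin n)), (X.card : ℝ) ≤ 2⁻¹ ^ 25 * n →
        (E.filter fun e => Sum.inl e.1 ∈ X ∧ Sum.inr e.2 ∈ X).card ≤ 2 * X.card := by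
  obtain ⟨τ, hτ⟩ := Gra_exists m n hm hn
  refine ⟨Gra_E τ, Gra_total τ, Gra_left τ, Gra_right τ, fun X hX => ?_⟩
  by_contra hcon
  obtain ⟨h1, h2⟩ := Gra_span τ X (not_le.1 hcon)
  exact hτ X.card h1 hX h2

theorem thm_Gra : St_Gra := by
  refine ⟨2⁻¹ ^ 25, by positivity, fun n hn => ?_⟩
  obtain ⟨E, h1, h2, h3, h4⟩ := Gra_main 16 n rfl hn
  exact ⟨E, h1, h2, h3, h4⟩

end DSD
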