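import Pool.Agent.DSD.St

/-!
# Harris' inequality (DSD Har, helper33)
-/

set_option autoImplicit false

namespace DSD

open Finset

theorem Har_prod {V : Type} [Fintype V] [DecidableEq V] (π : V → ℝ) (f : V → Bool → ℝ) :
    (Ep π fun x => ∏ v, f v (x v)) = ∏ v, (π v * f v true + (1 - π v) * f v false) := by
  have h := Finset.prod_univ_sum (fun _ : V => (Finset.univ : Finset Bool))
    (fun v b => (if b = true then π v else 1 - π v) * f v b)
  rw [Fintype.piFinset_univ] at h
  unfold Ep
  simp_rw [← Finset.prod_mul_distrib]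
  rw [← h]
  exact Finset.prod_congr rfl fun v _ => by rw [Fintype.sum_bool]; simp

theorem Har_one {V : Type} [Fintype V] [DecidableEq V] (π : V → ℝ) :
    (Ep π fun _ => 1) = 1 := by
  have h := Har_prod π (fun _ _ => 1)
  simp only [Finset.prod_const_one, mul_one, add_sub_cancel] at h
  exact h

theorem Har_edge {V : Type} [Fintype V] [DecidableEq V] (p : ℝ) (a b : V) (hab : a ≠ b) :
    (Ep (fun _ => p) fun x => if x a = true ∧ x b = true then (1 : ℝ) else 0) = p ^ 2 := by
  have h := Har_prod (fun _ : V => p)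
    (fun v c => if v ∈ ({a, b} : Finset V) then (if c = true then 1 else 0) else 1)
  have e : (fun x : V → Bool => if x a = true ∧ x b = true then (1 : ℝ) else 0) =
      fun x => ∏ v, if v ∈ ({a, b} : Finset V) then (if x v = true then (1 : ℝ) else 0) else 1 := by
    funext x
    rw [Finset.prod_ite_mem, Finset.univ_inter, Finset.prod_pair hab]
    by_cases h1 : x a = true <;> by_cases h2 : x b = true <;> simp [h1, h2]
  rw [e, h]
  have e2 : ∀ v : V, (p * (if v ∈ ({a, b} : Finset V) then
      (if true = true then (1 : ℝ) else 0) else 1) +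
      (1 - p) * (if v ∈ ({a, b} : Finset V) then (if false = true then 1 else 0) else 1)) =
      if v ∈ ({a, b} : Finset V) then p else 1 := by
    intro v
    split_ifs <;> simp_all
  rw [Finset.prod_congr rfl fun v _ => e2 v, Finset.prod_ite_mem, Finset.univ_inter,
    Finset.prod_pair hab, sq]

theorem Har_fkg {V : Type} [Fintype V] [DecidableEq V] (p : ℝ) (h0 : 0 ≤ p) (h1 : p ≤ 1)
    (f g : (V → Bool) → ℝ) (hf : ∀ x, 0 ≤ f x) (hg : ∀ x, 0 ≤ g x) (hfa : Antitone f)
    (hga : Antitone g) :
    Ep (fun _ => p) f * Ep (fun _ => p) g ≤ Ep (fun _ => p) fun x => f x * g x := by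
  let μ : (V → Bool)ᵒᵈ → ℝ := fun x =>
    ∏ v, if (OrderDual.ofDual x) v = true then p else 1 - p
  have hμ : ∀ a b : (V → Bool)ᵒᵈ, μ a * μ b ≤ μ (a ⊓ b) * μ (a ⊔ b) := by
    intro a b
    refine le_of_eq ?_
    simp only [μ]
    rw [← Finset.prod_mul_distrib, ← Finset.prod_mul_distrib]
    refine Finset.prod_congr rfl fun v _ => ?_
    have e1 : (OrderDual.ofDual (a ⊓ b)) v =
      ((OrderDual.ofDual a) v || (OrderDual.ofDual b) v) := rfl
    have e2 : (OrderDual.ofDual (a ⊔ b)) v =
      ((OrderDual.ofDual a) v && (OrderDual.ofDual b) v) := rfl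
    rw [e1, e2]
    cases (OrderDual.ofDual a) v <;> cases (OrderDual.ofDual b) v <;> simp [mul_comm]
  have h := fkg (α := (V → Bool)ᵒᵈ) (β := ℝ) (μ := μ) (f := fun x => f (OrderDual.ofDual x))
    (g := fun x => g (OrderDual.ofDual x))
    (fun x => Finset.prod_nonneg fun v _ => by split_ifs <;> linarith)
    (fun x => hf _) (fun x => hg _) (fun x y hxy => hfa hxy) (fun x y hxy => hga hxy) hμ
  have e0 : ∑ a, μ a = 1 := by
    have := Har_one (V := V) (fun _ => p)
    unfold Ep at this
    simp only [mul_one] at this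
    exact this
  rw [e0, one_mul] at h
  exact h

theorem thm_Har : St_Har := by
  intro K _ _ E p h0 h1
  have hp2 : 0 ≤ 1 - p ^ 2 := by nlinarith
  induction E using Finset.induction_on with
  | empty =>
    rw [Finset.card_empty, pow_zero]
    refine le_of_eq ?_
    have e : (fun x : K ⊕ K → Bool => 1 - Phi (∅ : Finset (K × K)) x) = fun _ => 1 := by
      funext x
      unfold Phi
      simp
    rw [e, Har_one]
  | insert e E he ih =>
    rw [Finset.card_insert_of_notMem he, pow_succ]
    let g : (K ⊕ K → Bool) → ℝ := fun x =>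
      1 - if x (Sum.inl e.1) = true ∧ x (Sum.inr e.2) = true then (1 : ℝ) else 0
    have hg : Ep (fun _ => p) g = 1 - p ^ 2 := by
      have h2 := Har_edge (V := K ⊕ K) p (Sum.inl e.1) (Sum.inr e.2) (by simp)
      have h3 := Har_one (V := K ⊕ K) (fun _ => p)
      have h4 : Ep (fun _ => p) g = (Ep (fun _ => p) fun _ : K ⊕ K → Bool => (1 : ℝ)) -
          Ep (fun _ => p) fun x : K ⊕ K → Bool =>
            if x (Sum.inl e.1) = true ∧ x (Sum.inr e.2) = true then (1 : ℝ) else 0 := by
        unfold Ep
        rw [← Finset.sum_sub_distrib]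
        refine Finset.sum_congr rfl fun x _ => ?_
        rw [← mul_sub]
      rw [h4, h2, h3]
    have hmon : ∀ (x y : K ⊕ K → Bool), x ≤ y → ∀ v, x v = true → y v = true := by
      intro x y hxy v hv
      have := hxy v
      rw [hv] at this
      exact top_le_iff.1 this
    have hF : (fun x : K ⊕ K → Bool => 1 - Phi (insert e E) x) =
        fun x => (1 - Phi E x) * g x := by
      funext x
      simp only [g]
      unfold Phi
      by_cases ha : x (Sum.inl e.1) = true ∧ x (Sum.inr e.2) = true
      · rw [if_pos ⟨e, Finset.mem_insert_self e E, ha⟩, if_pos ha]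
        ring
      · rw [if_neg ha, sub_zero, mul_one]
        congr 1
        by_cases hb : ∃ e ∈ E, x (Sum.inl e.1) = true ∧ x (Sum.inr e.2) = true
        · obtain ⟨e', he', h'⟩ := hb
          rw [if_pos ⟨e', Finset.mem_insert_of_mem he', h'⟩, if_pos ⟨e', he', h'⟩]
        · rw [if_neg hb, if_neg]
          rintro ⟨e', he', h'⟩
          rcases Finset.mem_insert.1 he' with rfl | he'
          · exact ha h'
          · exact hb ⟨e', he', h'⟩
    rw [hF]
    have hPhi : ∀ x : K ⊕ K → Bool, 0 ≤ 1 - Phi E x := by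
      intro x
      unfold Phi
      split_ifs <;> norm_num
    have hg0 : ∀ x, 0 ≤ g x := by
      intro x
      simp only [g]
      split_ifs <;> norm_num
    have hanti : Antitone (fun x : K ⊕ K → Bool => 1 - Phi E x) := by
      intro x y hxy
      show 1 - Phi E y ≤ 1 - Phi E x
      unfold Phi
      by_cases hb : ∃ e ∈ E, x (Sum.inl e.1) = true ∧ x (Sum.inr e.2) = true
      · obtain ⟨e', he', h'⟩ := hb
        rw [if_pos (show ∃ e ∈ E, x (Sum.inl e.1) = true ∧ x (Sum.inr e.2) = true from
            ⟨e', he', h'⟩),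
          if_pos (show ∃ e ∈ E, y (Sum.inl e.1) = true ∧ y (Sum.inr e.2) = true from
            ⟨e', he', hmon x y hxy _ h'.1, hmon x y hxy _ h'.2⟩)]
      · rw [if_neg hb]
        split_ifs <;> norm_num
    have hanti2 : Antitone g := by
      intro x y hxy
      simp only [g]
      by_cases hb : x (Sum.inl e.1) = true ∧ x (Sum.inr e.2) = true
      · rw [if_pos hb, if_pos ⟨hmon x y hxy _ hb.1, hmon x y hxy _ hb.2⟩]
      · rw [if_neg hb]
        split_ifs <;> norm_num
    refine le_trans ?_ (Har_fkg p h0 h1 _ _ hPhi hg0 hanti hanti2)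
    rw [hg]
    exact mul_le_mul_of_nonneg_right ih hp2

end DSD
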