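import Pool.Agent.DSD.St

/-!
# DSD [Ker]: the kernel (helper28)
-/

set_option autoImplicit false

namespace DSD

open Finset

theorem thm_Ker : St_Ker := by
  intro d s s' π h0 h1 hd
  rw [← pow_add]
  generalize s + s' = t at hd
  have hc0 : 0 ≤ 1 - 2 * π := by linarith
  have hc1 : 1 - 2 * π ≤ 1 := by linarith
  rcases Nat.lt_or_ge t 2 with ht | ht
  · rw [if_neg (Nat.not_le.2 ht)]
    interval_cases t
    · simp
    · simp
  · rw [if_pos ht]
    have hle : (1 - 2 * π) ^ t ≤ 1 - 2 * π := by
      have h2 := pow_le_pow_of_le_one hc0 hc1 (show 1 ≤ t by omega)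
      rwa [pow_one] at h2
    have hb : 1 - 2 * π * t ≤ (1 - 2 * π) ^ t := by
      have h2 := one_add_mul_le_pow (show (-2 : ℝ) ≤ -(2 * π) by linarith) t
      have h3 : (1 : ℝ) + -(2 * π) = 1 - 2 * π := by ring
      rw [h3] at h2
      linarith
    have ht2 : (t : ℝ) ≤ 2 * d := by exact_mod_cast hd
    have h4 : 2 * π * t ≤ 4 * d * π := by nlinarith
    constructor
    · split_ifs
      · linarith
      · linarith
    · split_ifs
      · linarith
      · linarith

end DSD
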