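import Pool.Agent.DSD.St

/-!
# DSD, module Pre: the exponent of the prefactor (helper68)
-/

set_option autoImplicit false

namespace DSD

open Finset

private theorem Pre_prod {ι : Type} (U : Finset ι) (a : ι → ℝ) (h : ∀ u ∈ U, 0 ≤ a u ∧ a u ≤ 1) :
    ∏ u ∈ U, (1 - a u) ≤ 1 - ∑ u ∈ U, a u + (∑ u ∈ U, a u) ^ 2 / 2 := by
  classical
  induction U using Finset.induction_on with
  | empty => simp
  | @insert u U hu ih =>
    rw [prod_insert hu, sum_insert hu]
    have h1 := ih fun v hv => h v (mem_insert_of_mem hv)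
    obtain ⟨h2, h3⟩ := h u (mem_insert_self u U)
    have h4 := mul_le_mul_of_nonneg_left h1 (sub_nonneg.2 h3)
    nlinarith [sq_nonneg (a u), mul_nonneg h2 (sq_nonneg (∑ v ∈ U, a v))]

theorem thm_Pre : St_Pre := by
  intro ι U π d p η w hd hp hpd hη0 hη1 hπ hw
  rcases U.eq_empty_or_nonempty with rfl | hne
  · simp
  have hc : (U.card : ℝ) ≤ d := by exact_mod_cast hd
  have hc1 : (1 : ℝ) ≤ U.card := by exact_mod_cast hne.card_pos
  have hpd' : p * U.card ≤ p * d := mul_le_mul_of_nonneg_left hc hp.le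
  have hpp : p ≤ p * U.card := by nlinarith
  have h0 : ∀ u ∈ U, 0 ≤ 2 * π u ∧ 2 * π u ≤ 1 := by
    intro u hu
    obtain ⟨h1, h2⟩ := hπ u hu
    have h3 : 0 ≤ (1 - η) * p := mul_nonneg (sub_nonneg.2 hη1) hp.le
    exact ⟨by linarith, by linarith⟩
  have h1 := Pre_prod U (fun u => 2 * π u) h0
  set X := ∑ u ∈ U, 2 * π u with hX
  have hX1 : 2 * (1 - η) * p * U.card ≤ X := by
    have h2 : U.card • (2 * ((1 - η) * p)) ≤ X :=
      Finset.card_nsmul_le_sum U _ _ fun u hu => by linarith [(hπ u hu).1]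
    rw [nsmul_eq_mul] at h2
    linarith
  have hX2 : X ≤ 2 * p * U.card := by
    have h2 : X ≤ U.card • (2 * p) :=
      Finset.sum_le_card_nsmul U _ _ fun u hu => by linarith [(hπ u hu).2]
    rw [nsmul_eq_mul] at h2
    linarith
  have h3 : 2 * (1 - η) * p * U.card * (1 - d * p) ≤ 1 - ∏ u ∈ U, (1 - 2 * π u) := by
    have h4 : X * (1 - X / 2) ≤ 1 - ∏ u ∈ U, (1 - 2 * π u) := by
      have : X * (1 - X / 2) = X - X ^ 2 / 2 := by ring
      linarith
    have h5 : 0 ≤ 1 - (d : ℝ) * p := by linarith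
    have h6 : 1 - (d : ℝ) * p ≤ 1 - X / 2 := by linarith
    have h7 : 0 ≤ X := Finset.sum_nonneg fun u hu => (h0 u hu).1
    calc 2 * (1 - η) * p * U.card * (1 - d * p) ≤ X * (1 - d * p) :=
          mul_le_mul_of_nonneg_right hX1 h5
      _ ≤ X * (1 - X / 2) := mul_le_mul_of_nonneg_left h6 h7
      _ ≤ _ := h4
  have h5 : 0 ≤ 1 - (d : ℝ) * p := by linarith
  have hη' : 0 ≤ 1 - η := sub_nonneg.2 hη1
  have h8 : 0 ≤ 2 * (1 - η) * p * U.card * (1 - d * p) := by positivity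
  have h9 : 0 ≤ w := le_trans (mul_nonneg hη' hp.le) hw
  calc 2 * p ^ 2 * (1 - 2 * η - d * p) * U.card
      ≤ (1 - η) * p * (2 * (1 - η) * p * U.card * (1 - d * p)) := by
        have h10 : (1 - 2 * η - d * p) ≤ (1 - η) ^ 2 * (1 - d * p) := by
          have h11 : (1 - η) ^ 2 * (1 - d * p) - (1 - 2 * η - d * p) =
              η ^ 2 * (1 - d * p) + 2 * η * (d * p) := by ring
          have h12 : 0 ≤ η ^ 2 * (1 - d * p) + 2 * η * (d * p) := by positivity
          linarith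
        have h13 : 0 ≤ 2 * p ^ 2 * (U.card : ℝ) := by positivity
        have h14 := mul_le_mul_of_nonneg_left h10 h13
        calc 2 * p ^ 2 * (1 - 2 * η - d * p) * U.card
            = 2 * p ^ 2 * (U.card : ℝ) * (1 - 2 * η - d * p) := by ring
          _ ≤ 2 * p ^ 2 * (U.card : ℝ) * ((1 - η) ^ 2 * (1 - d * p)) := h14
          _ = _ := by ring
    _ ≤ w * (2 * (1 - η) * p * U.card * (1 - d * p)) := mul_le_mul_of_nonneg_right hw h8
    _ ≤ _ := mul_le_mul_of_nonneg_left h3 h9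

end DSD
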