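import Pool.Agent.DSD.St

/-!
# Small disjoint sets extend to a partition into few small sets
-/

set_option autoImplicit false

namespace DSD

open Finset

theorem thm_Prt : St_Prt := by
  intro V _ _ m r A hm hcard hdis
  classical
  have huniq : ∀ v i j, v ∈ A i → v ∈ A j → i = j := by
    intro v i j hi hj
    by_contra hne
    exact Finset.disjoint_left.1 (hdis i j hne) hi hj
  let χ : V → ℕ := fun v => if h : ∃ i, v ∈ A i then (h.choose : ℕ)
    else r + (Fintype.equivFin V v : ℕ) / m
  have h1 : ∀ i : Fin r, ∀ v ∈ A i, χ v = i := by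
    intro i v hv
    have h : ∃ i, v ∈ A i := ⟨i, hv⟩
    have e : χ v = (h.choose : ℕ) := dif_pos h
    rw [e, huniq v _ _ h.choose_spec hv]
  have h2 : ∀ v, (¬ ∃ i, v ∈ A i) → χ v = r + (Fintype.equivFin V v : ℕ) / m :=
    fun v h => dif_neg h
  refine ⟨χ, fun v => ?_, h1, fun j => ?_⟩
  · by_cases h : ∃ i, v ∈ A i
    · obtain ⟨i, hi⟩ := h
      rw [h1 i v hi, Nat.add_assoc]
      exact lt_of_lt_of_le i.2 (Nat.le_add_right _ _)
    · rw [h2 v h]
      have h3 : (Fintype.equivFin V v : ℕ) / m ≤ Fintype.card V / m :=
        Nat.div_le_div_right (Fintype.equivFin V v).2.le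
      omega
  · by_cases hj : j < r
    · refine le_trans (Finset.card_le_card ?_) (hcard ⟨j, hj⟩)
      intro v hv
      have hv' : χ v = j := (Finset.mem_filter.1 hv).2
      by_cases h : ∃ i, v ∈ A i
      · obtain ⟨i, hi⟩ := h
        rw [h1 i v hi] at hv'
        have e : i = ⟨j, hj⟩ := Fin.ext hv'
        rw [← e]
        exact hi
      · rw [h2 v h] at hv'
        have h3 := Nat.le_add_right r ((Fintype.equivFin V v : ℕ) / m)
        rw [hv'] at h3
        exact absurd hj (not_lt.2 h3)
    · have hmem : ∀ v ∈ univ.filter (fun v => χ v = j),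
          (Fintype.equivFin V v : ℕ) / m = j - r := by
        intro v hv
        have hv' : χ v = j := (Finset.mem_filter.1 hv).2
        by_cases h : ∃ i, v ∈ A i
        · obtain ⟨i, hi⟩ := h
          rw [h1 i v hi] at hv'
          have := i.2
          omega
        · rw [h2 v h] at hv'
          omega
      have h3 : (univ.filter (fun v => χ v = j)).card ≤
          (Finset.Ico (m * (j - r)) (m * (j - r) + m)).card := by
        refine Finset.card_le_card_of_injOn (fun v => (Fintype.equivFin V v : ℕ)) ?_ ?_
        · intro v hv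
          have h4 := hmem v hv
          have h5 := Nat.div_add_mod (Fintype.equivFin V v : ℕ) m
          have h6 := Nat.mod_lt (Fintype.equivFin V v : ℕ) (show 0 < m by omega)
          rw [h4] at h5
          simp only [Finset.coe_Ico, Set.mem_Ico]
          constructor <;> omega
        · intro v _ w _ h
          exact (Fintype.equivFin V).injective (Fin.ext h)
      refine h3.trans ?_
      rw [Nat.card_Ico]
      omega

end DSD
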