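import Pool.Agent.DSD.St

/-!
# DSD, module Psi (helper72): the mean after fixing the neighbourhoods of the defects
-/

set_option autoImplicit false

namespace DSD

open Finset

/-! ### Facts about the mean -/

section ep

variable {V : Type} [Fintype V] [DecidableEq V]

private theorem psi_congr (π : V → ℝ) {F G : (V → Bool) → ℝ}
    (h : ∀ x : V → Bool, (∀ v, π v = 0 → x v = false) → F x = G x) : Ep π F = Ep π G := by
  unfold Ep
  refine sum_congr rfl fun x _ => ?_
  by_cases hx : ∀ v, π v = 0 → x v = false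
  · rw [h x hx]
  · rw [not_forall] at hx
    obtain ⟨v, hv⟩ := hx
    rw [Classical.not_imp] at hv
    have hxv : x v = true := by
      cases h0 : x v
      · exact absurd h0 hv.2
      · rfl
    have h1 : (∏ v, if x v = true then π v else 1 - π v) = 0 :=
      prod_eq_zero (mem_univ v) (by rw [if_pos hxv, hv.1])
    rw [h1, zero_mul, zero_mul]

private theorem psi_mul (π : V → ℝ) (κ : ℝ) (F : (V → Bool) → ℝ) :
    Ep π (fun x => κ * F x) = κ * Ep π F := by
  unfold Ep
  rw [mul_sum]
  exact sum_congr rfl fun x _ => by ring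

private def psi_flip (v : V) : (V → Bool) ≃ (V → Bool) where
  toFun x := Function.update x v (!x v)
  invFun x := Function.update x v (!x v)
  left_inv x := by
    funext u
    by_cases hu : u = v
    · rw [hu]
      simp
    · simp [Function.update_of_ne hu]
  right_inv x := by
    funext u
    by_cases hu : u = v
    · rw [hu]
      simp
    · simp [Function.update_of_ne hu]

private theorem psi_half (π : V → ℝ) (v : V) (F : (V → Bool) → ℝ)
    (hF : ∀ x b, F (Function.update x v b) = F x) :
    2 * Ep π F = ∑ x : V → Bool,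
      (∏ u ∈ univ.erase v, if x u = true then π u else 1 - π u) * F x := by
  have h1 : Ep π F = ∑ x : V → Bool, (∏ u, if psi_flip v x u = true then π u else 1 - π u) *
      F (psi_flip v x) := by
    unfold Ep
    exact (Equiv.sum_comp (psi_flip v)
      (fun x : V → Bool => (∏ u, if x u = true then π u else 1 - π u) * F x)).symm
  have h2 : 2 * Ep π F = Ep π F + Ep π F := two_mul _
  rw [h2]
  nth_rewrite 2 [h1]
  unfold Ep
  rw [← sum_add_distrib]
  refine sum_congr rfl fun x _ => ?_
  have h3 : F (psi_flip v x) = F x := hF x _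
  have h4 : ∏ u ∈ univ.erase v, (if psi_flip v x u = true then π u else 1 - π u) =
      ∏ u ∈ univ.erase v, if x u = true then π u else 1 - π u := by
    refine prod_congr rfl fun u hu => ?_
    have h5 : psi_flip v x u = x u := Function.update_of_ne (ne_of_mem_erase hu) _ _
    rw [h5]
  rw [h3, ← mul_prod_erase univ _ (mem_univ v), ← mul_prod_erase univ
    (fun u => if psi_flip v x u = true then π u else 1 - π u) (mem_univ v), h4]
  have h6 : psi_flip v x v = !x v := Function.update_self _ _ _
  rw [h6]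
  cases x v
  · simp only [Bool.false_eq_true, if_false, Bool.not_false, if_true]
    ring
  · simp only [if_true, Bool.not_true, Bool.false_eq_true, if_false]
    ring

private theorem psi_one (π π' : V → ℝ) (v : V) (F : (V → Bool) → ℝ)
    (hF : ∀ x b, F (Function.update x v b) = F x) (hπ : ∀ u, u ≠ v → π u = π' u) :
    Ep π F = Ep π' F := by
  have h1 := psi_half π v F hF
  have h2 := psi_half π' v F hF
  have h3 : (∑ x : V → Bool, (∏ u ∈ univ.erase v, if x u = true then π u else 1 - π u) * F x) =
      ∑ x : V → Bool, (∏ u ∈ univ.erase v, if x u = true then π' u else 1 - π' u) * F x := by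
    refine sum_congr rfl fun x _ => ?_
    congr 1
    refine prod_congr rfl fun u hu => ?_
    rw [hπ u (ne_of_mem_erase hu)]
  rw [h3, ← h2] at h1
  linarith

private theorem psi_zero (π : V → ℝ) (B : Finset V) (F : (V → Bool) → ℝ)
    (hF : ∀ v ∈ B, ∀ x b, F (Function.update x v b) = F x) :
    Ep π F = Ep (fun v => if v ∈ B then 0 else π v) F := by
  induction B using Finset.induction_on with
  | empty => simp
  | insert v B hv ih =>
    rw [ih fun u hu => hF u (mem_insert_of_mem hu)]
    refine psi_one _ _ v F (hF v (mem_insert_self v B)) fun u hu => ?_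
    by_cases h : u ∈ B
    · rw [if_pos h, if_pos (mem_insert_of_mem h)]
    · rw [if_neg h, if_neg fun h' => h ((mem_insert.mp h').resolve_left hu)]

private theorem psi_tilt (π C : V → ℝ) (hD : ∀ v, 1 - π v * (1 - C v) ≠ 0)
    (G : (V → Bool) → ℝ) :
    Ep π (fun x => (∏ v, if x v = true then C v else 1) * G x) =
      (∏ v, (1 - π v * (1 - C v))) *
        Ep (fun v => π v * C v / (1 - π v * (1 - C v))) G := by
  unfold Ep
  rw [mul_sum]
  refine sum_congr rfl fun x _ => ?_
  rw [← mul_assoc, ← mul_assoc, ← prod_mul_distrib, ← prod_mul_distrib]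
  congr 1
  refine prod_congr rfl fun v _ => ?_
  have h := hD v
  by_cases hx : x v = true
  · rw [if_pos hx, if_pos hx, if_pos hx]
    field_simp
  · rw [if_neg hx, if_neg hx, if_neg hx]
    field_simp
    ring

end ep

/-- Bernoulli for products -/
private theorem psi_bern {ι : Type} (T : Finset ι) (a : ι → ℝ) (q : ℝ) (hq : 2 * q ≤ 1)
    (h : ∀ i ∈ T, 0 ≤ a i ∧ a i ≤ q) :
    1 - 2 * q * T.card ≤ ∏ i ∈ T, (1 - 2 * a i) ∧ 0 ≤ ∏ i ∈ T, (1 - 2 * a i) ∧
      ∏ i ∈ T, (1 - 2 * a i) ≤ 1 := by
  classical
  induction T using Finset.induction_on with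
  | empty => simp
  | insert i T hi ih =>
    obtain ⟨h1, h2, h3⟩ := ih fun j hj => h j (mem_insert_of_mem hj)
    obtain ⟨h4, h5⟩ := h i (mem_insert_self i T)
    rw [prod_insert hi, card_insert_of_notMem hi]
    have h6 : 0 ≤ 1 - 2 * a i := by linarith
    push_cast
    refine ⟨?_, mul_nonneg h6 h2, ?_⟩
    · nlinarith
    · nlinarith

/-- the exponents -/
private theorem psi_cnt {V : Type} [DecidableEq V] (M B : Finset V) (α z : V → Bool)
    (hz : ∀ v ∈ B, z v = false) : cnt M (mix B α z) = cnt (M ∩ B) α + cnt M z := by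
  unfold cnt
  have h1 : M.filter (fun v => mix B α z v = true) =
      (M ∩ B).filter (fun v => α v = true) ∪ M.filter (fun v => z v = true) := by
    ext v
    have hm : mix B α z v = if v ∈ B then α v else z v := rfl
    rw [mem_filter, mem_union, mem_filter, mem_filter, mem_inter, hm]
    by_cases hv : v ∈ B
    · rw [if_pos hv, hz v hv]
      simp [hv]
    · rw [if_neg hv]
      simp [hv]
  rw [h1, card_union_of_disjoint]
  rw [disjoint_left]
  intro v hv hv'
  rw [mem_filter, mem_inter] at hv
  rw [mem_filter] at hv'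
  rw [hz v hv.1.2] at hv'
  exact absurd hv'.2 (by decide)

private theorem psi_powcnt {V : Type} [DecidableEq V] (M : Finset V) (z : V → Bool) (c : ℝ) :
    c ^ cnt M z = ∏ v ∈ M, if z v = true then c else 1 := by
  unfold cnt
  rw [prod_ite, prod_const_one, mul_one, prod_const]

theorem thm_Psi (hC : St_Cls) (hP : St_Pre) (hN : St_Cnt) : St_Psi := by
  classical
  intro V _ _ χ N d r k p hpar hlow hkr hdis π hπ f hf S hS α
  obtain ⟨hd, hr, hp, h8, h5⟩ := hpar
  set B : Finset V := S.biUnion N with hB
  set A : Finset V := univ.filter (fun u => χ u = k ∧ u ∉ S) with hA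
  -- numbers
  have hdR : (1 : ℝ) ≤ d := by exact_mod_cast hd
  have hrR : (1 : ℝ) ≤ r := by exact_mod_cast hr
  have hkR : (k : ℝ) + 1 ≤ r := by exact_mod_cast hkr
  have hk0 : (0 : ℝ) ≤ k := Nat.cast_nonneg k
  have hpd0 : 0 < p * d := mul_pos hp (by linarith)
  have hpd : 16 * (p * d) ≤ 1 := by nlinarith
  have hpd1 : p ≤ p * d := by nlinarith
  have hp16 : 16 * p ≤ 1 := by linarith
  set η : ℝ := 2 * d * p * ((r : ℝ) - (k + 1 : ℕ)) with hη
  have hcast : ((k + 1 : ℕ) : ℝ) = k + 1 := by push_cast; ring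
  have hη' : η = 2 * (p * d) * ((r : ℝ) - k - 1) := by
    rw [hη, hcast]
    ring
  have hη0 : 0 ≤ η := by
    rw [hη']
    exact mul_nonneg (by linarith) (by linarith)
  have h5' : 5 * (p * d) * r ≤ 1 := by linarith
  have hη1 : η ≤ 2 / 5 := by
    rw [hη']
    nlinarith
  have hc1 : 2 * η + d * p ≤ 5 * d * r * p := by
    rw [hη']
    nlinarith
  have hπb : ∀ v, 0 ≤ π v ∧ π v ≤ p := by
    intro v
    rcases hπ v with h | ⟨h, h'⟩
    · rw [h]
      exact ⟨le_rfl, hp.le⟩
    · refine ⟨le_trans ?_ h, h'⟩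
      exact mul_nonneg (by linarith) hp.le
  set c0 : ℝ := 2 * p ^ 2 * (1 - 5 * d * r * p) with hc0
  have hc00 : 0 ≤ c0 := mul_nonneg (by positivity) (by linarith)
  -- the numbers C v
  set C : V → ℝ := fun v => ∏ u ∈ A.filter (fun u => v ∈ N u), (1 - 2 * π u) with hCdef
  have hCv : ∀ v, 1 - 2 * (p * d) ≤ C v ∧ C v ≤ 1 := by
    intro v
    obtain ⟨h1, -, h3⟩ := psi_bern (A.filter (fun u => v ∈ N u)) π p (by linarith)
      (fun u _ => hπb u)
    refine ⟨le_trans ?_ h1, h3⟩
    have h4 : (A.filter (fun u => v ∈ N u)).card ≤ d := by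
      refine le_trans (card_le_card ?_) (le_trans (Nat.le_add_left _ _) (hlow.2 v))
      intro u hu
      rw [mem_filter] at hu ⊢
      exact ⟨mem_univ u, hu.2⟩
    have h5 : ((A.filter (fun u => v ∈ N u)).card : ℝ) ≤ d := by exact_mod_cast h4
    nlinarith
  -- the class
  obtain ⟨f', hf', hcls⟩ := hC V χ N k B α f hlow.1 hf (by
    intro v hv
    rw [hB, mem_biUnion] at hv
    obtain ⟨u, hu, hv⟩ := hv
    rw [← hS u hu]
    exact hlow.1 u v hv)
  set π₀ : V → ℝ := fun v => if v ∈ B then 0 else π v with hπ₀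
  have hπ₀b : ∀ v, 0 ≤ π₀ v ∧ π₀ v ≤ p := by
    intro v
    rw [hπ₀]
    show 0 ≤ (if v ∈ B then 0 else π v) ∧ (if v ∈ B then 0 else π v) ≤ p
    by_cases hv : v ∈ B
    · rw [if_pos hv]
      exact ⟨le_rfl, hp.le⟩
    · rw [if_neg hv]
      exact hπb v
  have hDv : ∀ v, 1 / 2 ≤ 1 - π₀ v * (1 - C v) ∧ 1 - π₀ v * (1 - C v) ≤ 1 := by
    intro v
    obtain ⟨h1, h2⟩ := hπ₀b v
    obtain ⟨h3, h4⟩ := hCv v
    constructor
    · nlinarith
    · nlinarith
  set π' : V → ℝ := fun v => π₀ v * C v / (1 - π₀ v * (1 - C v)) with hπ'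
  set κ : ℝ := ∏ u ∈ A, (1 - 2 * π u) ^ cnt (N u ∩ B) α with hκ
  have hκ0 : 0 ≤ κ := prod_nonneg fun u _ => pow_nonneg (by have := hπb u; linarith) _
  have hκ1 : κ ≤ 1 := prod_le_one (fun u _ => pow_nonneg (by have := hπb u; linarith) _)
    fun u _ => pow_le_one₀ (by have := hπb u; linarith) (by have := hπb u; linarith)
  -- the mean
  have hEp : Ep π (fun z => Sgn χ N k (mix B α z) * (∏ i ∈ range k, f i (mix B α z)) *
      ∏ u ∈ A, (1 - 2 * π u) ^ cnt (N u) (mix B α z)) =
      (∏ v, (1 - π₀ v * (1 - C v))) * (κ * Ep π' (fun z => Sgn χ N k z *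
        ∏ i ∈ range k, f' i z)) := by
    rw [psi_zero π B _ (by
      intro v hv x b
      have h1 : mix B α (Function.update x v b) = mix B α x := by
        funext u
        unfold mix
        by_cases hu : u ∈ B
        · rw [if_pos hu, if_pos hu]
        · rw [if_neg hu, if_neg hu, Function.update_of_ne]
          rintro rfl
          exact hu hv
      rw [h1])]
    have h2 : Ep π₀ (fun z => Sgn χ N k (mix B α z) * (∏ i ∈ range k, f i (mix B α z)) *
        ∏ u ∈ A, (1 - 2 * π u) ^ cnt (N u) (mix B α z)) =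
        Ep π₀ (fun z => (∏ v, if z v = true then C v else 1) *
          (κ * (Sgn χ N k z * ∏ i ∈ range k, f' i z))) := by
      refine psi_congr π₀ fun z hz => ?_
      have hzB : ∀ v ∈ B, z v = false := fun v hv => hz v (if_pos hv)
      rw [hcls z hzB]
      have h3 : ∏ u ∈ A, (1 - 2 * π u) ^ cnt (N u) (mix B α z) =
          κ * ∏ v, if z v = true then C v else 1 := by
        rw [hκ]
        have h4 : ∏ u ∈ A, (1 - 2 * π u) ^ cnt (N u) (mix B α z) =
            (∏ u ∈ A, (1 - 2 * π u) ^ cnt (N u ∩ B) α) *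
              ∏ u ∈ A, ∏ v ∈ N u, (if z v = true then 1 - 2 * π u else 1) := by
          rw [← prod_mul_distrib]
          refine prod_congr rfl fun u _ => ?_
          rw [psi_cnt (N u) B α z hzB, pow_add, psi_powcnt (N u) z]
        rw [h4]
        congr 1
        rw [prod_comm' (t' := univ) (s' := fun v => A.filter (fun u => v ∈ N u)) (by
          intro u v
          simp [mem_filter])]
        refine prod_congr rfl fun v _ => ?_
        by_cases hv : z v = true
        · rw [if_pos hv]
          exact prod_congr rfl fun u _ => by rw [if_pos hv]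
        · rw [if_neg hv]
          exact prod_eq_one fun u _ => by rw [if_neg hv]
      rw [h3]
      ring
    rw [show (fun v => if v ∈ B then 0 else π v) = π₀ from rfl, h2,
      psi_tilt π₀ C (fun v => by have := (hDv v).1; linarith), psi_mul]
  rw [hEp]
  -- the set of active vertices
  have hact : act π' = act π \ B := by
    ext v
    unfold act
    rw [mem_filter, mem_sdiff, mem_filter]
    have h1 : π' v ≠ 0 ↔ π₀ v ≠ 0 := by
      have h2 : 1 - π₀ v * (1 - C v) ≠ 0 := by have := (hDv v).1; linarith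
      have h3 : C v ≠ 0 := by have := (hCv v).1; linarith
      rw [hπ']
      show π₀ v * C v / (1 - π₀ v * (1 - C v)) ≠ 0 ↔ π₀ v ≠ 0
      rw [Ne, div_eq_zero_iff, mul_eq_zero]
      simp [h2, h3]
    rw [h1]
    have h4 : π₀ v ≠ 0 ↔ v ∉ B ∧ π v ≠ 0 := by
      rw [hπ₀]
      show (if v ∈ B then 0 else π v) ≠ 0 ↔ _
      by_cases hv : v ∈ B
      · rw [if_pos hv]
        simp [hv]
      · rw [if_neg hv]
        simp [hv]
    rw [h4]
    simp
    tauto
  have hadm : Adm p (2 * d * p * ((r : ℝ) - k)) π' := by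
    intro v
    by_cases hv : π₀ v = 0
    · left
      rw [hπ']
      show π₀ v * C v / (1 - π₀ v * (1 - C v)) = 0
      rw [hv, zero_mul, zero_div]
    · right
      have hvB : v ∉ B := fun h => hv (if_pos h)
      have hπv : π₀ v = π v := if_neg hvB
      obtain ⟨h1, h2⟩ := (hπ v).resolve_left (by rwa [hπv] at hv)
      obtain ⟨h3, h4⟩ := hCv v
      obtain ⟨h5, h6⟩ := hDv v
      have hD0 : 0 < 1 - π₀ v * (1 - C v) := by linarith
      have hη2 : 2 * d * p * ((r : ℝ) - k) = η + 2 * (p * d) := by
        rw [hη']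
        ring
      rw [hπ']
      show (1 - 2 * d * p * ((r : ℝ) - k)) * p ≤ π₀ v * C v / (1 - π₀ v * (1 - C v)) ∧
        π₀ v * C v / (1 - π₀ v * (1 - C v)) ≤ p
      rw [le_div_iff₀ hD0, div_le_iff₀ hD0, hη2, hπv]
      rw [hπv] at hD0 h6 h5
      have hπ0 := (hπb v).1
      constructor
      · by_cases hneg : 1 - (η + 2 * (p * d)) ≤ 0
        · have h7 : (1 - (η + 2 * (p * d))) * p * (1 - π v * (1 - C v)) ≤ 0 :=
            mul_nonpos_of_nonpos_of_nonneg (mul_nonpos_of_nonpos_of_nonneg hneg hp.le) hD0.le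
          have h8 : 0 ≤ π v * C v := mul_nonneg hπ0 (by linarith)
          linarith
        · have hneg' : 0 ≤ (1 - (η + 2 * (p * d))) * p := mul_nonneg (not_le.mp hneg).le hp.le
          have h7 : (1 - (η + 2 * (p * d))) * p * (1 - π v * (1 - C v)) ≤
              (1 - (η + 2 * (p * d))) * p := mul_le_of_le_one_right hneg' h6
          have h8 : (1 - η) * p * (1 - 2 * (p * d)) ≤ π v * C v :=
            mul_le_mul h1 h3 (by linarith) hπ0
          have h9 : (1 - (η + 2 * (p * d))) * p ≤ (1 - η) * p * (1 - 2 * (p * d)) := by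
            have h10 : 0 ≤ η * (2 * (p * d)) * p := by positivity
            nlinarith
          linarith
      · have h7 : C v ≤ 1 - π v * (1 - C v) := by nlinarith
        exact mul_le_mul h2 h7 (by linarith) hp.le
  have hD := hdis π' hadm f' hf'
  rw [hact] at hD
  -- the prefactor
  set T : Finset V := (act π).filter (fun u => χ u = k ∧ u ∉ S) with hT
  set s1 : ℝ := ∑ v, π₀ v * (1 - C v) with hs1
  have hpre : ∏ v, (1 - π₀ v * (1 - C v)) ≤ Real.exp (-s1) := by
    rw [hs1, ← sum_neg_distrib, Real.exp_sum]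
    refine prod_le_prod (fun v _ => by have := (hDv v).1; linarith) fun v _ => ?_
    exact Real.one_sub_le_exp_neg _
  have hsum : c0 * (∑ u ∈ T, (N u ∩ (act π \ B)).card : ℕ) ≤ s1 := by
    have h1 : ∑ v ∈ act π \ B, π₀ v * (1 - C v) ≤ s1 := by
      refine sum_le_sum_of_subset_of_nonneg (subset_univ _) fun v _ _ => ?_
      exact mul_nonneg (hπ₀b v).1 (by have := (hCv v).2; linarith)
    have h2 : ∑ v ∈ act π \ B, c0 * ((T.filter (fun u => v ∈ N u)).card : ℝ) ≤
        ∑ v ∈ act π \ B, π₀ v * (1 - C v) := by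
      refine sum_le_sum fun v hv => ?_
      rw [mem_sdiff] at hv
      have hvπ : π v ≠ 0 := by
        have := hv.1
        unfold act at this
        rw [mem_filter] at this
        exact this.2
      have hπv : π₀ v = π v := if_neg hv.2
      have hCv' : C v = ∏ u ∈ T.filter (fun u => v ∈ N u), (1 - 2 * π u) := by
        rw [hCdef]
        show ∏ u ∈ A.filter (fun u => v ∈ N u), (1 - 2 * π u) = _
        symm
        refine prod_subset ?_ ?_
        · intro u hu
          rw [mem_filter, hT, mem_filter] at hu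
          rw [mem_filter, hA, mem_filter]
          exact ⟨⟨mem_univ u, hu.1.2⟩, hu.2⟩
        · intro u hu hu'
          rw [mem_filter, hA, mem_filter] at hu
          have h3 : π u = 0 := by
            by_contra hne
            apply hu'
            rw [mem_filter, hT, mem_filter]
            refine ⟨⟨?_, hu.1.2⟩, hu.2⟩
            unfold act
            rw [mem_filter]
            exact ⟨mem_univ u, hne⟩
          rw [h3]
          ring
      have h4 := hP V (T.filter (fun u => v ∈ N u)) π d p η (π v) (by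
          refine le_trans (card_le_card ?_) (le_trans (Nat.le_add_left _ _) (hlow.2 v))
          intro u hu
          rw [mem_filter] at hu ⊢
          exact ⟨mem_univ u, hu.2⟩) hp (by linarith) hη0 (by linarith) (by
          intro u hu
          rw [mem_filter, hT, mem_filter] at hu
          have h5 : π u ≠ 0 := by
            have := hu.1.1
            unfold act at this
            rw [mem_filter] at this
            exact this.2
          exact (hπ u).resolve_left h5) ((hπ v).resolve_left hvπ).1
      rw [hπv, hCv']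
      refine le_trans ?_ h4
      refine mul_le_mul_of_nonneg_right ?_ (Nat.cast_nonneg _)
      rw [hc0]
      refine mul_le_mul_of_nonneg_left ?_ (by positivity)
      linarith
    have h3 : ∑ v ∈ act π \ B, (T.filter (fun u => v ∈ N u)).card =
        ∑ u ∈ T, (N u ∩ (act π \ B)).card := by
      have h4 := sum_card_bipartiteAbove_eq_sum_card_bipartiteBelow (s := act π \ B) (t := T)
        (fun v u => v ∈ N u)
      refine Eq.trans ?_ (h4.trans ?_)
      · rfl
      · refine sum_congr rfl fun u _ => ?_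
        congr 1
        ext v
        simp only [bipartiteBelow, mem_filter, mem_inter]
        tauto
    rw [← mul_sum, ← Nat.cast_sum, h3] at h2
    linarith
  -- conclusion
  have hcnt := hN V χ N d k (act π) S hlow hS
  have hcnt' : (ec χ N (k + 1) (act π) : ℝ) ≤ ec χ N k (act π \ B) +
      (∑ u ∈ T, (N u ∩ (act π \ B)).card : ℕ) + d ^ 2 * S.card := by exact_mod_cast hcnt
  have hDn : 0 ≤ ∏ v, (1 - π₀ v * (1 - C v)) :=
    prod_nonneg fun v _ => by have := (hDv v).1; linarith
  rw [abs_mul, abs_mul, abs_of_nonneg hDn, abs_of_nonneg hκ0]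
  have h1 : κ * |Ep π' fun z => Sgn χ N k z * ∏ i ∈ range k, f' i z| ≤
      bd d r (Fintype.card V) p (ec χ N k (act π \ B)) k :=
    le_trans (mul_le_of_le_one_left (abs_nonneg _) hκ1) hD
  have h2 : (∏ v, (1 - π₀ v * (1 - C v))) *
      (κ * |Ep π' fun z => Sgn χ N k z * ∏ i ∈ range k, f' i z|) ≤
      Real.exp (-s1) * bd d r (Fintype.card V) p (ec χ N k (act π \ B)) k :=
    mul_le_mul hpre h1 (mul_nonneg hκ0 (abs_nonneg _)) (Real.exp_pos _).le
  refine le_trans h2 ?_
  unfold bd
  rw [← Real.exp_add, Real.exp_le_exp, ← hc0]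
  have h3 := mul_le_mul_of_nonneg_left hcnt' hc00
  linarith

end DSD
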