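import Pool.Agent.DSD.St

/-!
# Module Spl: the sign of a bipartite graph and a numbering of parts (helper12)
-/

set_option autoImplicit false
set_option linter.unusedSectionVars false

namespace DSD

open Finset

section Spl

variable {K : Type} [Fintype K] [DecidableEq K]

/-- the neighbours in parts with smaller numbers -/
def Spl_N (E : Finset (K × K)) (χ : K ⊕ K → ℕ) : K ⊕ K → Finset (K ⊕ K) :=
  Sum.elim
    (fun a => ((E.filter fun e => χ (Sum.inr e.2) < χ (Sum.inl e.1)).filter fun e => e.1 = a).image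
      fun e => Sum.inr e.2)
    (fun b => ((E.filter fun e => χ (Sum.inl e.1) < χ (Sum.inr e.2)).filter fun e => e.2 = b).image
      fun e => Sum.inl e.1)

theorem Spl_mem_inl (E : Finset (K × K)) (χ : K ⊕ K → ℕ) (a : K) (w : K ⊕ K) :
    w ∈ Spl_N E χ (Sum.inl a) ↔
      ∃ b, w = Sum.inr b ∧ (a, b) ∈ E ∧ χ (Sum.inr b) < χ (Sum.inl a) := by
  unfold Spl_N
  simp only [Sum.elim_inl, mem_image, mem_filter]
  constructor
  · rintro ⟨⟨a', b⟩, ⟨⟨h1, h2⟩, h3⟩, rfl⟩
    have e : a' = a := h3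
    subst e
    exact ⟨b, rfl, h1, h2⟩
  · rintro ⟨b, rfl, h1, h2⟩
    exact ⟨(a, b), ⟨⟨h1, h2⟩, rfl⟩, rfl⟩

theorem Spl_mem_inr (E : Finset (K × K)) (χ : K ⊕ K → ℕ) (b : K) (w : K ⊕ K) :
    w ∈ Spl_N E χ (Sum.inr b) ↔
      ∃ a, w = Sum.inl a ∧ (a, b) ∈ E ∧ χ (Sum.inl a) < χ (Sum.inr b) := by
  unfold Spl_N
  simp only [Sum.elim_inr, mem_image, mem_filter]
  constructor
  · rintro ⟨⟨a, b'⟩, ⟨⟨h1, h2⟩, h3⟩, rfl⟩
    have e : b' = b := h3
    subst e
    exact ⟨a, rfl, h1, h2⟩
  · rintro ⟨a, rfl, h1, h2⟩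
    exact ⟨(a, b), ⟨⟨h1, h2⟩, rfl⟩, rfl⟩

theorem Spl_prod (E : Finset (K × K)) (χ : K ⊕ K → ℕ) (g : K ⊕ K → K ⊕ K → ℝ) :
    ∏ u, ∏ v ∈ Spl_N E χ u, g u v =
      (∏ e ∈ E.filter (fun e => χ (Sum.inr e.2) < χ (Sum.inl e.1)),
        g (Sum.inl e.1) (Sum.inr e.2)) *
      ∏ e ∈ E.filter (fun e => χ (Sum.inl e.1) < χ (Sum.inr e.2)),
        g (Sum.inr e.2) (Sum.inl e.1) := by
  rw [Fintype.prod_sum_type]
  congr 1
  · rw [← Finset.prod_fiberwise _ (fun e : K × K => e.1)]
    apply Finset.prod_congr rfl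
    intro a _
    unfold Spl_N
    rw [Sum.elim_inl, Finset.prod_image]
    · apply Finset.prod_congr rfl
      intro e he
      rw [(mem_filter.1 he).2]
    · rintro ⟨a1, b1⟩ h1 ⟨a2, b2⟩ h2 h
      have e1 : a1 = a := (mem_filter.1 h1).2
      have e2 : a2 = a := (mem_filter.1 h2).2
      have e3 : b1 = b2 := Sum.inr_injective h
      rw [e1, e2, e3]
  · rw [← Finset.prod_fiberwise _ (fun e : K × K => e.2)]
    apply Finset.prod_congr rfl
    intro b _
    unfold Spl_N
    rw [Sum.elim_inr, Finset.prod_image]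
    · apply Finset.prod_congr rfl
      intro e he
      rw [(mem_filter.1 he).2]
    · rintro ⟨a1, b1⟩ h1 ⟨a2, b2⟩ h2 h
      have e1 : b1 = b := (mem_filter.1 h1).2
      have e2 : b2 = b := (mem_filter.1 h2).2
      have e3 : a1 = a2 := Sum.inl_injective h
      rw [e1, e2, e3]

theorem Spl_sum (E : Finset (K × K)) (χ : K ⊕ K → ℕ) :
    ∑ u, (Spl_N E χ u).card =
      (E.filter (fun e => χ (Sum.inr e.2) < χ (Sum.inl e.1))).card +
      (E.filter (fun e => χ (Sum.inl e.1) < χ (Sum.inr e.2))).card := by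
  rw [Fintype.sum_sum_type]
  congr 1
  · rw [Finset.card_eq_sum_card_fiberwise (f := fun e : K × K => e.1) (t := univ)
      (fun e _ => mem_coe.2 (mem_univ _))]
    apply Finset.sum_congr rfl
    intro a _
    unfold Spl_N
    rw [Sum.elim_inl, Finset.card_image_of_injOn]
    rintro ⟨a1, b1⟩ h1 ⟨a2, b2⟩ h2 h
    have e1 : a1 = a := (mem_filter.1 h1).2
    have e2 : a2 = a := (mem_filter.1 h2).2
    have e3 : b1 = b2 := Sum.inr_injective h
    rw [e1, e2, e3]
  · rw [Finset.card_eq_sum_card_fiberwise (f := fun e : K × K => e.2) (t := univ)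
      (fun e _ => mem_coe.2 (mem_univ _))]
    apply Finset.sum_congr rfl
    intro b _
    unfold Spl_N
    rw [Sum.elim_inr, Finset.card_image_of_injOn]
    rintro ⟨a1, b1⟩ h1 ⟨a2, b2⟩ h2 h
    have e1 : b1 = b := (mem_filter.1 h1).2
    have e2 : b2 = b := (mem_filter.1 h2).2
    have e3 : a1 = a2 := Sum.inl_injective h
    rw [e1, e2, e3]

theorem Spl_low (E : Finset (K × K)) (χ : K ⊕ K → ℕ) (d : ℕ)
    (h1 : ∀ a, (E.filter fun e => e.1 = a).card ≤ d)
    (h2 : ∀ b, (E.filter fun e => e.2 = b).card ≤ d) : Low χ (Spl_N E χ) d := by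
  refine ⟨?_, ?_⟩
  · rintro (a | b) v hv
    · rw [Spl_mem_inl] at hv
      obtain ⟨b, rfl, -, h⟩ := hv
      exact h
    · rw [Spl_mem_inr] at hv
      obtain ⟨a, rfl, -, h⟩ := hv
      exact h
  · rintro (a | b)
    · rw [← Finset.card_union_of_disjoint]
      · refine (Finset.card_le_card ?_).trans ((Finset.card_image_le (s := E.filter fun e => e.1 = a)
          (f := fun e => (Sum.inr e.2 : K ⊕ K))).trans (h1 a))
        intro w hw
        rw [mem_union, Spl_mem_inl, mem_filter] at hw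
        rw [mem_image]
        rcases hw with ⟨b, rfl, h, -⟩ | ⟨-, h⟩
        · exact ⟨(a, b), mem_filter.2 ⟨h, rfl⟩, rfl⟩
        · rcases w with a' | b
          · rw [Spl_mem_inl] at h
            obtain ⟨b, hb, -⟩ := h
            exact absurd hb Sum.inl_ne_inr
          · rw [Spl_mem_inr] at h
            obtain ⟨a', ha', h, -⟩ := h
            have e : a = a' := Sum.inl_injective ha'
            rw [← e] at h
            exact ⟨(a, b), mem_filter.2 ⟨h, rfl⟩, rfl⟩
      · rw [Finset.disjoint_left]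
        intro w hw hw'
        rw [Spl_mem_inl] at hw
        obtain ⟨b, rfl, -, h⟩ := hw
        rw [mem_filter, Spl_mem_inr] at hw'
        obtain ⟨-, a', ha', -, h'⟩ := hw'
        have e : a = a' := Sum.inl_injective ha'
        rw [← e] at h'
        exact absurd h (not_lt.2 h'.le)
    · rw [← Finset.card_union_of_disjoint]
      · refine (Finset.card_le_card ?_).trans ((Finset.card_image_le (s := E.filter fun e => e.2 = b)
          (f := fun e => (Sum.inl e.1 : K ⊕ K))).trans (h2 b))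
        intro w hw
        rw [mem_union, Spl_mem_inr, mem_filter] at hw
        rw [mem_image]
        rcases hw with ⟨a, rfl, h, -⟩ | ⟨-, h⟩
        · exact ⟨(a, b), mem_filter.2 ⟨h, rfl⟩, rfl⟩
        · rcases w with a | b'
          · rw [Spl_mem_inl] at h
            obtain ⟨b', hb', h, -⟩ := h
            have e : b = b' := Sum.inr_injective hb'
            rw [← e] at h
            exact ⟨(a, b), mem_filter.2 ⟨h, rfl⟩, rfl⟩
          · rw [Spl_mem_inr] at h
            obtain ⟨a, ha, -⟩ := h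
            exact absurd ha.symm Sum.inl_ne_inr
      · rw [Finset.disjoint_left]
        intro w hw hw'
        rw [Spl_mem_inr] at hw
        obtain ⟨a, rfl, -, h⟩ := hw
        rw [mem_filter, Spl_mem_inl] at hw'
        obtain ⟨-, b', hb', -, h'⟩ := hw'
        have e : b = b' := Sum.inr_injective hb'
        rw [← e] at h'
        exact absurd h (not_lt.2 h'.le)

/-- the sign of one edge -/
def Spl_s (x : K ⊕ K → Bool) (u v : K ⊕ K) : ℝ := if x u = true ∧ x v = true then -1 else 1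

theorem Spl_s_comm (x : K ⊕ K → Bool) (u v : K ⊕ K) : Spl_s x u v = Spl_s x v u := by
  unfold Spl_s
  simp only [and_comm]

theorem Spl_pow (x : K ⊕ K → Bool) (u : K ⊕ K) (N : Finset (K ⊕ K)) :
    (if x u = true then (-1 : ℝ) ^ cnt N x else 1) = ∏ v ∈ N, Spl_s x u v := by
  unfold cnt Spl_s
  by_cases hu : x u = true
  · simp only [hu, if_true, true_and]
    rw [Finset.prod_ite, Finset.prod_const, Finset.prod_const_one, mul_one]
  · rw [if_neg hu]
    symm
    apply Finset.prod_eq_one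
    intro v _
    rw [if_neg (fun h => hu h.1)]

/-- the sign of the edges inside the part `i` -/
def Spl_h (E : Finset (K × K)) (χ : K ⊕ K → ℕ) (i : ℕ) (x : K ⊕ K → Bool) : ℝ :=
  ∏ e ∈ E.filter (fun e => χ (Sum.inl e.1) = i ∧ χ (Sum.inr e.2) = i),
    Spl_s x (Sum.inl e.1) (Sum.inr e.2)

theorem Spl_loc (E : Finset (K × K)) (χ : K ⊕ K → ℕ) : Loc χ (Spl_h E χ) := by
  intro i
  refine ⟨?_, ?_⟩
  · intro x y hxy
    unfold Spl_h
    apply Finset.prod_congr rfl
    intro e he
    obtain ⟨-, h1, h2⟩ := mem_filter.1 he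
    have e1 := hxy (Sum.inl e.1) (mem_filter.2 ⟨mem_univ _, h1⟩)
    have e2 := hxy (Sum.inr e.2) (mem_filter.2 ⟨mem_univ _, h2⟩)
    unfold Spl_s
    rw [e1, e2]
  · intro x
    unfold Spl_h
    rw [Finset.abs_prod]
    apply le_of_eq
    apply Finset.prod_eq_one
    intro e _
    unfold Spl_s
    by_cases h : x (Sum.inl e.1) = true ∧ x (Sum.inr e.2) = true
    · rw [if_pos h, abs_neg, abs_one]
    · rw [if_neg h, abs_one]

theorem Spl_fiber (E : Finset (K × K)) (χ : K ⊕ K → ℕ) (i : ℕ) :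
    (E.filter fun e => χ (Sum.inl e.1) = i ∧ χ (Sum.inr e.2) = i) =
      (E.filter fun e => χ (Sum.inl e.1) = χ (Sum.inr e.2)).filter fun e => χ (Sum.inl e.1) = i := by
  ext e
  simp only [mem_filter]
  constructor
  · rintro ⟨h, h1, h2⟩
    exact ⟨⟨h, h1.trans h2.symm⟩, h1⟩
  · rintro ⟨⟨h, h1⟩, h2⟩
    exact ⟨h, h2, h1.symm.trans h2⟩

end Spl

theorem thm_Spl : St_Spl := by
  intro K _ _ E d r χ h1 h2 hr
  have hfil : (univ.filter fun u => χ u < r) = univ := by
    ext u
    simp only [mem_filter, mem_univ, true_and, iff_true]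
    exact hr u
  refine ⟨Spl_N E χ, Spl_h E χ, Spl_low E χ d h1 h2, Spl_loc E χ, fun x => ?_, ?_⟩
  · have hS : Sgn χ (Spl_N E χ) r x =
        (∏ e ∈ E.filter (fun e => χ (Sum.inr e.2) < χ (Sum.inl e.1)),
          Spl_s x (Sum.inl e.1) (Sum.inr e.2)) *
        ∏ e ∈ E.filter (fun e => χ (Sum.inl e.1) < χ (Sum.inr e.2)),
          Spl_s x (Sum.inl e.1) (Sum.inr e.2) := by
      unfold Sgn
      rw [hfil, Finset.prod_congr rfl fun u _ => Spl_pow x u (Spl_N E χ u), Spl_prod]
      congr 1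
      exact Finset.prod_congr rfl fun e _ => Spl_s_comm x _ _
    have hH : ∏ i ∈ range r, Spl_h E χ i x =
        ∏ e ∈ E.filter (fun e => χ (Sum.inl e.1) = χ (Sum.inr e.2)),
          Spl_s x (Sum.inl e.1) (Sum.inr e.2) := by
      rw [← Finset.prod_fiberwise_of_maps_to (s := E.filter fun e =>
        χ (Sum.inl e.1) = χ (Sum.inr e.2)) (t := range r) (g := fun e => χ (Sum.inl e.1))
        (fun e _ => mem_range.2 (hr _))]
      apply Finset.prod_congr rfl
      intro i _
      unfold Spl_h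
      rw [Spl_fiber]
    have hE : Sg E x = ∏ e ∈ E, Spl_s x (Sum.inl e.1) (Sum.inr e.2) := rfl
    rw [hE, hS, hH, ← Finset.prod_filter_mul_prod_filter_not E
      (fun e => χ (Sum.inl e.1) = χ (Sum.inr e.2)), mul_comm]
    congr 1
    rw [← Finset.prod_filter_mul_prod_filter_not (E.filter fun e =>
      ¬ χ (Sum.inl e.1) = χ (Sum.inr e.2)) (fun e => χ (Sum.inr e.2) < χ (Sum.inl e.1)),
      Finset.filter_filter, Finset.filter_filter]
    congr 1
    · apply Finset.prod_congr _ fun _ _ => rfl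
      ext e
      simp only [mem_filter]
      constructor
      · rintro ⟨h, -, h3⟩
        exact ⟨h, h3⟩
      · rintro ⟨h, h3⟩
        exact ⟨h, h3.ne', h3⟩
    · apply Finset.prod_congr _ fun _ _ => rfl
      ext e
      simp only [mem_filter]
      constructor
      · rintro ⟨h, h3, h4⟩
        exact ⟨h, lt_of_le_of_ne (not_lt.1 h4) h3⟩
      · rintro ⟨h, h3⟩
        exact ⟨h, h3.ne, not_lt.2 h3.le⟩
  · have hec : ec χ (Spl_N E χ) r univ = ∑ u, (Spl_N E χ u).card := by
      unfold ec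
      rw [hfil]
      exact Finset.sum_congr rfl fun u _ => by rw [Finset.inter_univ]
    have hH : ∑ i ∈ range r,
        (E.filter fun e => χ (Sum.inl e.1) = i ∧ χ (Sum.inr e.2) = i).card =
        (E.filter fun e => χ (Sum.inl e.1) = χ (Sum.inr e.2)).card := by
      rw [Finset.card_eq_sum_card_fiberwise (s := E.filter fun e =>
        χ (Sum.inl e.1) = χ (Sum.inr e.2)) (t := range r) (f := fun e => χ (Sum.inl e.1))
        (fun e _ => mem_coe.2 (mem_range.2 (hr _)))]
      exact Finset.sum_congr rfl fun i _ => by rw [Spl_fiber]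
    rw [hec, Spl_sum, hH, ← Finset.card_union_of_disjoint, ← Finset.card_union_of_disjoint]
    · apply Finset.card_le_card
      intro e he
      rw [mem_union, mem_union, mem_filter, mem_filter, mem_filter]
      rcases lt_trichotomy (χ (Sum.inl e.1)) (χ (Sum.inr e.2)) with h | h | h
      · exact Or.inl (Or.inr ⟨he, h⟩)
      · exact Or.inr ⟨he, h⟩
      · exact Or.inl (Or.inl ⟨he, h⟩)
    · rw [Finset.disjoint_left]
      intro e he he'
      have h3 := (mem_filter.1 he').2
      rcases mem_union.1 he with h | h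
      · exact (mem_filter.1 h).2.ne' h3
      · exact (mem_filter.1 h).2.ne h3
    · rw [Finset.disjoint_left]
      intro e he he'
      exact absurd (mem_filter.1 he).2 (not_lt.2 (mem_filter.1 he').2.le)

end DSD
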