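import Pool.Agent.DSD.Defs

/-!
# The Dalvi-Suciu dichotomy for decomposable circuits: statements of the modules

Conventions: the module `[X]` is a file `Pool/Agent/DSD/X.lean` with `theorem thm_X ... : St_X` in the
namespace `DSD`; auxiliary lemmas private, or prefixed by `X_`. Basic facts about `Ep` are in the file
`Ep.lean`.
-/

set_option autoImplicit false

namespace DSD

open Finset

/-- [Exs] The mean over random subsets of `D` if the probabilities are `p` on the range of `ι` and `1` elsewhere.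
PROOF. Only the `W ⊇ D \ range ι` have a weight `≠ 0`; they correspond to the `x : V → Bool`, `W = D \ ι '' {x = false}`. -/
def St_Exs : Prop :=
  ∀ (V W : Type) [Fintype V] [DecidableEq V] [DecidableEq W] (ι : V → W) (D : Finset W) (t : W → ℝ)
    (p : ℝ) (F : (W → Bool) → ℝ), Function.Injective ι → (∀ v, ι v ∈ D) → (∀ v, t (ι v) = p) →
    (∀ w ∈ D, (∀ v, ι v ≠ w) → t w = 1) →
    Mean D t F = Ep (fun _ => p) fun x => F (ind (D \ (univ.filter fun v => x v = false).image ι))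

/-- [Prt] Small disjoint sets extend to a partition in few small sets.
PROOF. Cut the complement of the union of the `A i` in pieces of `m` elements. -/
def St_Prt : Prop :=
  ∀ (V : Type) [Fintype V] [DecidableEq V] (m r : ℕ) (A : Fin r → Finset V), 1 ≤ m →
    (∀ i, (A i).card ≤ m) → (∀ i j, i ≠ j → Disjoint (A i) (A j)) →
    ∃ χ : V → ℕ, (∀ v, χ v < r + Fintype.card V / m + 1) ∧ (∀ i : Fin r, ∀ v ∈ A i, χ v = i) ∧
      ∀ j, (univ.filter fun v => χ v = j).card ≤ m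

/-! ### Discrepancy -/

/-- [Ker] The kernel.
PROOF. `c = 1 - 2 π`, `t = s + s'`: `t = 0`: `0`; `t = 1`: `c - c`; `t ≥ 2`: `0 ≤ 1 - c ^ t ≤ 2 π t` (Bernoulli), and `c - c ^ t` is
between `0` and `1 - c ^ t`. -/
def St_Ker : Prop :=
  ∀ (d s s' : ℕ) (π : ℝ), 0 ≤ π → π ≤ 1 / 2 → s + s' ≤ 2 * d →
    0 ≤ (if Odd (s + s') then 1 - 2 * π else 1) - (1 - 2 * π) ^ s * (1 - 2 * π) ^ s' ∧
    (if Odd (s + s') then 1 - 2 * π else 1) - (1 - 2 * π) ^ s * (1 - 2 * π) ^ s' ≤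
      if 2 ≤ s + s' then 4 * d * π else 0

/-- [Def] The defects.
PROOF. Write `κ = 8 p d`, `C = d ^ 2 + 1`, `h u = 1 + κ [t_u ≥ 2]`. Colour `A` with `C` colours such that the sets `N u`, `N u'` of
different `u`, `u'` with the same colour are disjoint (each `u` meets at most `d * d` others; greedy). AM-GM:
`∏_c X_c ≤ (1 / C) ∑_c X_c ^ C`, `X_c = ∏_(u in colour c) h u`. In a colour class the `h u ^ C` are independent:
`E X_c ^ C = ∏ E h u ^ C = ∏ (1 + ((1 + κ) ^ C - 1) P(t_u ≥ 2)) ≤ ∏ (1 + 2 κ C * 2 d ^ 2 p ^ 2)` as `κ C ≤ 1`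
(`P(t_u ≥ 2) ≤` number of pairs of the at most `2 d` bits times `p ^ 2`), so `≤ exp (32 p ^ 3 d ^ 3 (d ^ 2 + 1) A.card)`. -/
def St_Def : Prop :=
  ∀ (V : Type) [Fintype V] [DecidableEq V] (d : ℕ) (p : ℝ) (π : V → ℝ) (A : Finset V)
    (N : V → Finset V), 1 ≤ d → 0 ≤ p → 8 * p * d * ((d : ℝ) ^ 2 + 1) ≤ 1 →
    (∀ v, 0 ≤ π v ∧ π v ≤ p) → (∀ u ∈ A, (N u).card ≤ d) →
    (∀ v, (A.filter fun u => v ∈ N u).card ≤ d) →
    (Ep π fun x => Ep π fun y =>
      ∏ u ∈ A, (1 + if 2 ≤ cnt (N u) x + cnt (N u) y then 8 * p * d else 0)) ≤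
      Real.exp (64 * p ^ 3 * d ^ 5 * A.card)

/-- [Cls] The class of the functions `Sgn * ∏ f i` is closed under fixing variables.
PROOF. `k = 0`: `B = ∅`. `Sgn χ N k x` is the product over the pairs `(u, v)`, `χ u < k`, `v ∈ N u`, of `-1` if `x u`, `x v` are true,
else `1`. For `x = mix B α z`, `z = false` on `B`: the pairs outside `B` give `Sgn χ N k z`; the pairs with one end `v ∉ B` give
a sign to the power `z v`; the pairs inside `B` give a constant sign. So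
`f' i z = f i (mix B α z) * ∏_(χ v = i) (if z v then ε v else 1)`, times the constant sign for `i = 0`. -/
def St_Cls : Prop :=
  ∀ (V : Type) [Fintype V] [DecidableEq V] (χ : V → ℕ) (N : V → Finset V) (k : ℕ) (B : Finset V)
    (α : V → Bool) (f : ℕ → (V → Bool) → ℝ), (∀ u, ∀ v ∈ N u, χ v < χ u) → Loc χ f →
    (∀ v ∈ B, χ v < k) →
    ∃ f' : ℕ → (V → Bool) → ℝ, Loc χ f' ∧ ∀ z : V → Bool, (∀ v ∈ B, z v = false) →
      Sgn χ N k (mix B α z) * ∏ i ∈ range k, f i (mix B α z) =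
        Sgn χ N k z * ∏ i ∈ range k, f' i z

/-- [CSq] Cauchy-Schwarz for the last part `A = {χ = k}`.
PROOF. `Ep_mix` for `A`: the left mean is `E_y f_k(y) E_x K(y, x) G(x)` with `K(y, x) = ∏_(u in A) (if y u then (-1) ^ cnt (N u) x else 1)`
(`G`, `cnt (N u)`, `u ∈ A`, depend only on the parts `< k`, `f k` only on `A`). Square: `≤ E_y (E_x K G) ^ 2 =
E_y E_x E_x' K(y, x) K(y, x') G(x) G(x')`, exchange, and `E_y K(y, x) K(y, x') = ∏_(u in A) (1 - π u + π u (-1) ^ (cnt + cnt'))`. -/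
def St_CSq : Prop :=
  ∀ (V : Type) [Fintype V] [DecidableEq V] (χ : V → ℕ) (N : V → Finset V) (k : ℕ) (π : V → ℝ)
    (f : ℕ → (V → Bool) → ℝ), (∀ v, 0 ≤ π v ∧ π v ≤ 1) → (∀ u, ∀ v ∈ N u, χ v < χ u) → Loc χ f →
    (Ep π fun x => Sgn χ N (k + 1) x * ∏ i ∈ range (k + 1), f i x) ^ 2 ≤
      Ep π fun x => Ep π fun y =>
        (Sgn χ N k x * ∏ i ∈ range k, f i x) * (Sgn χ N k y * ∏ i ∈ range k, f i y) *
          ∏ u ∈ univ.filter (fun u => χ u = k),
            if Odd (cnt (N u) x + cnt (N u) y) then 1 - 2 * π u else 1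

/-- [Pre] The exponent of the prefactor.
PROOF. `∏ (1 - a_u) ≤ 1 - X + X ^ 2 / 2`, `X = ∑ a_u`, `0 ≤ a_u ≤ 1` (induction), for `a_u = 2 π u`; `2 (1 - η) p |U| ≤ X ≤ 2 p |U|`, so
`1 - ∏ ≥ X (1 - X / 2) ≥ 2 (1 - η) p |U| (1 - d p)`, and `(1 - η) ^ 2 (1 - d p) ≥ 1 - 2 η - d p`. -/
def St_Pre : Prop :=
  ∀ (ι : Type) (U : Finset ι) (π : ι → ℝ) (d : ℕ) (p η w : ℝ), U.card ≤ d → 0 < p →
    2 * p * d ≤ 1 → 0 ≤ η → η ≤ 1 → (∀ u ∈ U, (1 - η) * p ≤ π u ∧ π u ≤ p) → (1 - η) * p ≤ w →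
    2 * p ^ 2 * (1 - 2 * η - d * p) * U.card ≤ w * (1 - ∏ u ∈ U, (1 - 2 * π u))

/-- [Cnt] Count of edges.
PROOF. The edges `u v`, `v ∈ N u`, `χ u ≤ k`, with both ends in `U`, which are not counted on the right have an end in
`B = S.biUnion N`, and `B.card ≤ d * S.card`, at most `d` edges at every vertex. -/
def St_Cnt : Prop :=
  ∀ (V : Type) [Fintype V] [DecidableEq V] (χ : V → ℕ) (N : V → Finset V) (d k : ℕ) (U S : Finset V),
    Low χ N d → (∀ u ∈ S, χ u = k) →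
    ec χ N (k + 1) U ≤ ec χ N k (U \ S.biUnion N) +
      ∑ u ∈ U.filter (fun u => χ u = k ∧ u ∉ S), (N u ∩ (U \ S.biUnion N)).card + d ^ 2 * S.card

/-- [Psi] (from `St_Cls`, `St_Pre`, `St_Cnt`) The mean after fixing `B = S.biUnion N`.
PROOF. The function `z ↦ ...` does not depend on `z` on `B`, so `π` may be replaced by `π₀ = π` outside `B`, `0` on `B`
(`Ep_zero`), and `z = false` on `B` almost surely (`Ep_congr`). Then `G (mix B α z) = Sgn z * ∏ f' i z` ([Cls]) and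
`(1 - 2 π u) ^ cnt (N u) (mix B α z) = (1 - 2 π u) ^ cnt (N u ∩ B) α * ∏_(v in N u) (if z v then 1 - 2 π u else 1)`. So the mean is
`κ * E_(π₀) (∏_v (if z v then C v else 1)) Sgn ∏ f'`, `0 ≤ κ ≤ 1`, `C v = ∏_(u in A \ S, v in N u) (1 - 2 π u)`. Tilt (`Ep_tilt`):
`= κ * ∏_v (1 - π₀ v (1 - C v)) * E_(π') ...`, `π' v = π₀ v C v / (1 - π₀ v (1 - C v))` between `π₀ v C v ≥ π₀ v (1 - 2 d p)` and
`π₀ v`, so `Adm p (2 d p (r - k)) π'` and `Dis ... k` applies, with `act π' = act π \ B`. The prefactor is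
`≤ exp (- ∑ π₀ v (1 - C v))`, [Pre] with `η = 2 d p (r - k - 1)`, `2 η + d p ≤ 5 d r p`, and [Cnt]. -/
def St_Psi : Prop :=
  ∀ (V : Type) [Fintype V] [DecidableEq V] (χ : V → ℕ) (N : V → Finset V) (d r k : ℕ) (p : ℝ),
    Par d r p → Low χ N d → k < r → Dis χ N d r p k →
    ∀ (π : V → ℝ), Adm p (2 * d * p * ((r : ℝ) - (k + 1 : ℕ))) π → ∀ f : ℕ → (V → Bool) → ℝ,
    Loc χ f → ∀ S : Finset V, (∀ u ∈ S, χ u = k) → ∀ α : V → Bool,
    |Ep π fun z =>
      Sgn χ N k (mix (S.biUnion N) α z) * (∏ i ∈ range k, f i (mix (S.biUnion N) α z)) *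
        ∏ u ∈ univ.filter (fun u => χ u = k ∧ u ∉ S),
          (1 - 2 * π u) ^ cnt (N u) (mix (S.biUnion N) α z)| ≤
      Real.exp (-(2 * p ^ 2 * (1 - 5 * d * r * p)) *
        ((ec χ N (k + 1) (act π) : ℝ) - d ^ 2 * S.card) +
        32 * k * p ^ 3 * d ^ 5 * Fintype.card V)

/-- [Dis] (from `St_Ker`, `St_Def`, `St_CSq`, `St_Psi`) the multi-part discrepancy -/
def St_Dis : Prop :=
  ∀ (V : Type) [Fintype V] [DecidableEq V] (χ : V → ℕ) (N : V → Finset V) (d r : ℕ) (p : ℝ),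
    Par d r p → Low χ N d → ∀ k ≤ r, Dis χ N d r p k

/-! ### The graph and the conclusion -/

/-- [Spl] The sign of a bipartite graph and a numbering of parts.
PROOF. `N (inl a) = {inr b | (a, b) ∈ E, χ (inr b) < χ (inl a)}`, `N (inr b)` similarly, `h i` the sign of the edges inside the
part `i`. -/
def St_Spl : Prop :=
  ∀ (K : Type) [Fintype K] [DecidableEq K] (E : Finset (K × K)) (d r : ℕ) (χ : K ⊕ K → ℕ),
    (∀ a, (E.filter fun e => e.1 = a).card ≤ d) → (∀ b, (E.filter fun e => e.2 = b).card ≤ d) →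
    (∀ v, χ v < r) →
    ∃ (N : K ⊕ K → Finset (K ⊕ K)) (h : ℕ → (K ⊕ K → Bool) → ℝ), Low χ N d ∧ Loc χ h ∧
      (∀ x, Sg E x = Sgn χ N r x * ∏ i ∈ range r, h i x) ∧
      E.card ≤ ec χ N r univ +
        ∑ i ∈ range r, (E.filter fun e => χ (Sum.inl e.1) = i ∧ χ (Sum.inr e.2) = i).card

/-- [Har] Harris' inequality.
PROOF. Induction on `E` with `fkg` (Mathlib) on the cube, for the decreasing functions (or in the dual order / with the
complemented bits): `E (∏_e (1 - x_a x_b)) ≥ ∏_e (1 - p ^ 2)`. -/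
def St_Har : Prop :=
  ∀ (K : Type) [Fintype K] [DecidableEq K] (E : Finset (K × K)) (p : ℝ), 0 ≤ p → p ≤ 1 →
    (1 - p ^ 2) ^ E.card ≤ Ep (fun _ => p) fun x => 1 - Phi E x

/-- [Gra] Regular bipartite graphs where small sets span few edges.
PROOF. Random lifts: for permutations `τ i j` of `Fin n`, `i j : Fin 16`, let `E` be the set of the pairs
`((i, a), (j, τ i j a))`: exactly `256 n` edges, all degrees `16`. Let `X` be a set with `t ≥ 1` elements and more than `2 t` edges;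
then there is a set `P` of `2 t` triples `(i, j, a)` with `(i, a) ∈ X` and `(j, τ i j a) ∈ X`. For fixed `X`, `P` the share of the `τ`
with this property is at most `(t / n) ^ (2 t)` (for one permutation `τ` of `Fin n` and sets `A`, `Y`: share of the `τ` with
`τ A ⊆ Y` is `≤ (|Y| / n) ^ |A|`). There are at most `2 ^ (16 t)` sets `P` and at most
`(32 n) ^ t / t! ≤ (96 n / t) ^ t` sets `X` (`t ^ t / t! ≤ e ^ t`, `Real.pow_div_factorial_le_exp`). The sum over `t ≥ 1` of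
`(96 * 2 ^ 16 * t / n) ^ t` is `< 1` if `t / n ≤ 2 ^ (-25)`. -/
def St_Gra : Prop :=
  ∃ ε : ℝ, 0 < ε ∧ ∀ n : ℕ, 1 ≤ n →
    ∃ E : Finset ((Fin 16 × Fin n) × (Fin 16 × Fin n)), E.card = 256 * n ∧
      (∀ a, (E.filter fun e => e.1 = a).card = 16) ∧ (∀ b, (E.filter fun e => e.2 = b).card = 16) ∧
      ∀ X : Finset ((Fin 16 × Fin n) ⊕ (Fin 16 × Fin n)), (X.card : ℝ) ≤ ε * n →
        (E.filter fun e => Sum.inl e.1 ∈ X ∧ Sum.inr e.2 ∈ X).card ≤ 2 * X.card

end DSD
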